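import Mathlib

/-! [CZ-A0] powers of odd numbers near powers of `2`, small exponents -/

set_option autoImplicit false

namespace Pool.Agent.CZ

/-- binary search for the `l`-th root of `2 ^ g` -/
def bs (g l i : ℕ) : ℕ → ℕ :=
  Nat.rec (motive := fun _ => ℕ → ℕ) (fun x => x)
    (fun i ih x => match Nat.ble (Nat.pow (Nat.add x (Nat.pow 2 i)) l) (Nat.pow 2 g) with
      | true => ih (Nat.add x (Nat.pow 2 i))
      | false => ih x) i

/-- the largest odd number which is at most `x` -/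
def odc (x : ℕ) : ℕ := Nat.sub (Nat.add x (Nat.mod x 2)) 1

/-- the check for one pair, `c` odd -/
def ck (g l c : ℕ) : Bool :=
  Nat.beq (Nat.mod c 2) 1 &&
  (Nat.blt c 3 || (Nat.ble (Nat.pow c l) (Nat.pow 2 g) &&
    Nat.ble (Nat.pow 2 g) (Nat.pow (Nat.sub (Nat.pow 2 g) (Nat.pow c l)) 2))) &&
  (Nat.ble (Nat.pow 2 g) (Nat.pow (Nat.add c 2) l) &&
    Nat.ble (Nat.pow 2 g) (Nat.pow (Nat.sub (Nat.pow (Nat.add c 2) l) (Nat.pow 2 g)) 2))

/-- odd primes up to `131` -/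
def opr : List ℕ := [3,5,7,11,13,17,19,23,29,31,37,41,43,47,53,59,61,67,71,73,79,83,89,97,101,103,107,109,113,127,131]

def exq (g l : ℕ) : Bool :=
  (Nat.beq g 5 && Nat.beq l 3) || (Nat.beq g 7 && Nat.beq l 3) || (Nat.beq g 8 && Nat.beq l 5) ||
    (Nat.beq g 35 && Nat.beq l 3)

def ck1' (g l : ℕ) : Bool :=
  Nat.beq (Nat.mod g l) 0 || exq g l || ck g l (odc (bs g l (Nat.add (Nat.div g l) 1) 0))

theorem all_ck : ((List.range 210).all fun g => Nat.blt g 5 || opr.all fun l => ck1' g l) = true := by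
  decide +kernel

theorem a0_up {g l c P : ℕ} (h1 : 2 ^ g ≤ c ^ l) (h2 : 2 ^ g ≤ (c ^ l - 2 ^ g) ^ 2) (h : c ≤ P) :
    (2 : ℤ) ^ g ≤ ((P : ℤ) ^ l - 2 ^ g) ^ 2 := by
  have h3 : c ^ l ≤ P ^ l := Nat.pow_le_pow_left h l
  have h4 : (2 ^ g : ℕ) ≤ (P ^ l - 2 ^ g) ^ 2 :=
    h2.trans (Nat.pow_le_pow_left (Nat.sub_le_sub_right h3 _) 2)
  have h5 : ((P ^ l - 2 ^ g : ℕ) : ℤ) = (P : ℤ) ^ l - 2 ^ g := by
    rw [Nat.cast_sub (h1.trans h3)]
    push_cast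
    rfl
  have h6 : (((2 ^ g : ℕ)) : ℤ) ≤ (((P ^ l - 2 ^ g) ^ 2 : ℕ) : ℤ) := by exact_mod_cast h4
  rw [Nat.cast_pow, Nat.cast_pow, h5] at h6
  exact_mod_cast h6

theorem a0_down {g l c P : ℕ} (h1 : c ^ l ≤ 2 ^ g) (h2 : 2 ^ g ≤ (2 ^ g - c ^ l) ^ 2) (h : P ≤ c) :
    (2 : ℤ) ^ g ≤ ((P : ℤ) ^ l - 2 ^ g) ^ 2 := by
  have h3 : P ^ l ≤ c ^ l := Nat.pow_le_pow_left h l
  have h4 : (2 ^ g : ℕ) ≤ (2 ^ g - P ^ l) ^ 2 :=
    h2.trans (Nat.pow_le_pow_left (Nat.sub_le_sub_left h3 _) 2)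
  have h5 : ((2 ^ g - P ^ l : ℕ) : ℤ) = 2 ^ g - (P : ℤ) ^ l := by
    rw [Nat.cast_sub (h3.trans h1)]
    push_cast
    rfl
  have h6 : (((2 ^ g : ℕ)) : ℤ) ≤ (((2 ^ g - P ^ l) ^ 2 : ℕ) : ℤ) := by exact_mod_cast h4
  rw [Nat.cast_pow, Nat.cast_pow, h5] at h6
  have h7 : ((P : ℤ) ^ l - 2 ^ g) ^ 2 = (2 ^ g - (P : ℤ) ^ l) ^ 2 := by ring
  rw [h7]
  exact_mod_cast h6

theorem a0_ck {g l c P : ℕ} (h : ck g l c = true) (hP : Odd P) (h3 : 3 ≤ P) :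
    (2 : ℤ) ^ g ≤ ((P : ℤ) ^ l - 2 ^ g) ^ 2 := by
  simp only [ck, Bool.and_eq_true, Bool.or_eq_true, Nat.beq_eq, Nat.ble_eq, Nat.blt_eq] at h
  obtain ⟨⟨hc, hlo⟩, h4, h5⟩ := h
  have hc' : c % 2 = 1 := hc
  obtain ⟨m, hm⟩ := hP
  rcases Nat.lt_or_ge c P with hcP | hcP
  · have h6 : c + 2 ≤ P := by omega
    exact a0_up h4 h5 h6
  · rcases hlo with h7 | ⟨h7, h8⟩
    · omega
    · exact a0_down h7 h8 hcP

theorem a0_big {g l P : ℕ} (hg : g < 210) (hl : 133 ≤ l) (h3 : 3 ≤ P) :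
    (2 : ℤ) ^ g ≤ ((P : ℤ) ^ l - 2 ^ g) ^ 2 := by
  have h1 : 2 ^ 210 ≤ P ^ l := by
    calc 2 ^ 210 ≤ 3 ^ 133 := by norm_num
      _ ≤ P ^ 133 := Nat.pow_le_pow_left h3 _
      _ ≤ P ^ l := Nat.pow_le_pow_right (by omega) hl
  have h2 : 2 ^ g * 2 ≤ 2 ^ 210 := by
    rw [← pow_succ]
    exact Nat.pow_le_pow_right (by norm_num) (by omega)
  have h4 : 2 ^ g ≤ P ^ l - 2 ^ g := by omega
  have h5 : 1 ≤ 2 ^ g := Nat.one_le_two_pow
  refine a0_up (c := P) (by omega) ?_ le_rfl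
  calc 2 ^ g ≤ P ^ l - 2 ^ g := h4
    _ ≤ (P ^ l - 2 ^ g) ^ 2 := Nat.le_self_pow two_ne_zero _

theorem a0_opr {l : ℕ} (hl : l.Prime) (h3 : 3 ≤ l) (h : l < 133) : l ∈ opr := by
  have key : ∀ l < 133, (3 ≤ l ∧ l ∉ opr) → ∃ d ∈ [2, 3, 5, 7, 11], d ∣ l ∧ d < l := by decide +kernel
  by_contra hn
  obtain ⟨d, hd, hdl, hlt⟩ := key l h ⟨h3, hn⟩
  rcases (Nat.dvd_prime hl).1 hdl with h1 | h1
  · subst h1
    simp at hd
  · omega

/-- (A0) -/
theorem A0 (g l P : ℕ) (h1 : 5 ≤ g) (h2 : g < 210) (hl : l.Prime) (hl3 : 3 ≤ l) (hd : ¬ l ∣ g)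
    (hP : Odd P) (hP3 : 3 ≤ P) : (2 : ℤ) ^ g ≤ ((P : ℤ) ^ l - 2 ^ g) ^ 2 ∨
      (g = 5 ∧ l = 3 ∧ P = 3) ∨ (g = 7 ∧ l = 3 ∧ P = 5) ∨ (g = 8 ∧ l = 5 ∧ P = 3) ∨
      (g = 35 ∧ l = 3 ∧ P = 3251) := by
  rcases Nat.lt_or_ge l 133 with hlt | hge
  · have hmem := a0_opr hl hl3 hlt
    have h := all_ck
    rw [List.all_eq_true] at h
    have h4 := h g (List.mem_range.2 h2)
    rw [Bool.or_eq_true] at h4
    rcases h4 with h4 | h4
    · rw [Nat.blt_eq] at h4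
      omega
    rw [List.all_eq_true] at h4
    have h5 := h4 l hmem
    simp only [ck1', Bool.or_eq_true, Nat.beq_eq] at h5
    rcases h5 with (h5 | h5) | h5
    · exact absurd (Nat.dvd_of_mod_eq_zero h5) hd
    · simp only [exq, Bool.or_eq_true, Bool.and_eq_true, Nat.beq_eq] at h5
      obtain ⟨m, hm⟩ := hP
      rcases h5 with ((⟨rfl, rfl⟩ | ⟨rfl, rfl⟩) | ⟨rfl, rfl⟩) | ⟨rfl, rfl⟩
      · rcases Nat.lt_or_ge P 5 with h6 | h6
        · right; left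
          exact ⟨rfl, rfl, by omega⟩
        · left
          exact a0_up (c := 5) (by norm_num) (by norm_num) h6
      · rcases Nat.lt_or_ge P 5 with h6 | h6
        · left
          exact a0_down (c := 3) (by norm_num) (by norm_num) (by omega)
        · rcases Nat.lt_or_ge P 7 with h7 | h7
          · right; right; left
            exact ⟨rfl, rfl, by omega⟩
          · left
            exact a0_up (c := 7) (by norm_num) (by norm_num) h7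
      · rcases Nat.lt_or_ge P 5 with h6 | h6
        · right; right; right; left
          exact ⟨rfl, rfl, by omega⟩
        · left
          exact a0_up (c := 5) (by norm_num) (by norm_num) h6
      · rcases Nat.lt_or_ge P 3251 with h6 | h6
        · left
          exact a0_down (c := 3249) (by norm_num) (by norm_num) (by omega)
        · rcases Nat.lt_or_ge P 3253 with h7 | h7
          · right; right; right; right
            exact ⟨rfl, rfl, by omega⟩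
          · left
            exact a0_up (c := 3253) (by norm_num) (by norm_num) h7
    · left
      exact a0_ck h5 hP hP3
  · left
    exact a0_big h2 hge hP3

end Pool.Agent.CZ
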