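import Mathlib

set_option autoImplicit false

namespace Pool.Agent.CZ

open Finset

/-- The arithmetic situation of a perfect code: `u = t N + 1` is squarefree, every prime factor `p` of `u` has a
power in the window `[w + 1, w + t + 1]`, `w = (t + 1) N + 1`, and the window contains a power of two. -/
structure Window (t N : ℕ) (h : ℕ → ℕ) : Prop where
  t_ge : 2 ≤ t
  t_le : t ≤ N
  sqf : Squarefree (t * N + 1)
  two : ∃ g, (t + 1) * N + 2 ≤ 2 ^ g ∧ 2 ^ g ≤ (t + 1) * (N + 1) + 1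
  lower : ∀ p, p.Prime → p ∣ t * N + 1 → (t + 1) * N + 2 ≤ p ^ h p
  upper : ∀ p, p.Prime → p ∣ t * N + 1 → p ^ h p ≤ (t + 1) * (N + 1) + 1

namespace Window

variable {t N : ℕ} {h : ℕ → ℕ}

theorem u_lt (_hW : Window t N h) : t * N + 1 < (t + 1) * N + 2 := by nlinarith

theorem tsq (hW : Window t N h) : t ^ 2 < (t + 1) * N + 2 := by
  have := hW.t_le
  nlinarith [Nat.mul_le_mul_left t this]

/-- exponents are at least two -/
theorem two_le (hW : Window t N h) {p : ℕ} (hp : p.Prime) (hd : p ∣ t * N + 1) : 2 ≤ h p := by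
  by_contra hc
  have h1 := hW.lower p hp hd
  have h2 : p ≤ t * N + 1 := Nat.le_of_dvd (by omega) hd
  have h3 := hW.u_lt
  have h4 : p ^ h p ≤ p := by
    have : h p = 0 ∨ h p = 1 := by omega
    rcases this with h5 | h5
    · rw [h5]; simpa using hp.one_lt.le
    · rw [h5]; simp
  omega

theorem gap {A B d s : ℕ} (hAB : A < B) (hd : 2 ≤ d) (hs : s ^ 2 < A ^ d) : A ^ d + s < B ^ d := by
  have h1 : (A + 1) ^ d ≤ B ^ d := Nat.pow_le_pow_left hAB d
  obtain ⟨e, rfl⟩ : ∃ e, d = e + 1 := ⟨d - 1, by omega⟩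
  have h2 : A ^ (e + 1) + A ^ e ≤ (A + 1) ^ (e + 1) := by
    calc A ^ (e + 1) + A ^ e = A ^ e * (A + 1) := by ring
      _ ≤ (A + 1) ^ e * (A + 1) := Nat.mul_le_mul_right _ (Nat.pow_le_pow_left (by omega) e)
      _ = (A + 1) ^ (e + 1) := by ring
  have h3 : s < A ^ e := by
    by_contra hc
    push Not at hc
    have hA : 0 < A := by
      rcases Nat.eq_zero_or_pos A with h0 | h0
      · subst h0; simp at hs
      · exact h0
    have h4 : A ^ (e + 1) ≤ (A ^ e) ^ 2 := by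
      rw [← pow_mul]
      exact Nat.pow_le_pow_right hA (by omega)
    have h5 : (A ^ e) ^ 2 ≤ s ^ 2 := Nat.pow_le_pow_left hc 2
    omega
  omega

/-- two members of the window -/
theorem near (_hW : Window t N h) {a b : ℕ} (ha1 : (t + 1) * N + 2 ≤ a) (_ha2 : a ≤ (t + 1) * (N + 1) + 1)
    (_hb1 : (t + 1) * N + 2 ≤ b) (hb2 : b ≤ (t + 1) * (N + 1) + 1) : b ≤ a + t := by
  have : (t + 1) * (N + 1) + 1 = (t + 1) * N + 2 + t := by ring
  omega

theorem cop (hW : Window t N h) {p q a b : ℕ} (hp : p.Prime) (hq : q.Prime) (hpq : p ≠ q)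
    (l1 : (t + 1) * N + 2 ≤ p ^ a) (u1 : p ^ a ≤ (t + 1) * (N + 1) + 1)
    (l2 : (t + 1) * N + 2 ≤ q ^ b) (u2 : q ^ b ≤ (t + 1) * (N + 1) + 1) : Nat.Coprime a b := by
  by_contra hc
  set d := Nat.gcd a b with hdd
  have h1 : a ≠ 0 := by rintro rfl; simp at l1
  have h2 : b ≠ 0 := by rintro rfl; simp at l2
  have h3 : d ≠ 0 := by
    intro h0
    have := Nat.gcd_eq_zero_iff.mp h0
    omega
  have h4 : 2 ≤ d := by
    have : d ≠ 1 := hc
    omega
  obtain ⟨a', ha⟩ : d ∣ a := Nat.gcd_dvd_left _ _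
  obtain ⟨b', hb⟩ : d ∣ b := Nat.gcd_dvd_right _ _
  have ha0 : a' ≠ 0 := by rintro rfl; simp at ha; omega
  have hb0 : b' ≠ 0 := by rintro rfl; simp at hb; omega
  have hpp : p ^ a = (p ^ a') ^ d := by rw [ha, ← pow_mul, mul_comm]
  have hqq : q ^ b = (q ^ b') ^ d := by rw [hb, ← pow_mul, mul_comm]
  have hne : p ^ a' ≠ q ^ b' := by
    intro he
    have h5 : p ∣ q ^ b' := he ▸ dvd_pow_self p ha0
    exact hpq ((Nat.prime_dvd_prime_iff_eq hp hq).mp (hp.dvd_of_dvd_pow h5))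
  have ts := hW.tsq
  rcases lt_or_gt_of_ne hne with h6 | h6
  · have h7 := gap h6 h4 (s := t) (by rw [← hpp]; omega)
    rw [← hpp, ← hqq] at h7
    have := hW.near l1 u1 l2 u2
    omega
  · have h7 := gap h6 h4 (s := t) (by rw [← hqq]; omega)
    rw [← hpp, ← hqq] at h7
    have := hW.near l2 u2 l1 u1
    omega

theorem pairwise (hW : Window t N h) {p q : ℕ} (hp : p.Prime) (hdp : p ∣ t * N + 1) (hq : q.Prime)
    (hdq : q ∣ t * N + 1) (hpq : p ≠ q) : Nat.Coprime (h p) (h q) :=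
  hW.cop hp hq hpq (hW.lower p hp hdp) (hW.upper p hp hdp) (hW.lower q hq hdq) (hW.upper q hq hdq)

/-- the exponent of the power of two -/
noncomputable def gg (hW : Window t N h) : ℕ := hW.two.choose

theorem gg_lower (hW : Window t N h) : (t + 1) * N + 2 ≤ 2 ^ hW.gg := hW.two.choose_spec.1

theorem gg_upper (hW : Window t N h) : 2 ^ hW.gg ≤ (t + 1) * (N + 1) + 1 := hW.two.choose_spec.2

theorem h_two (hW : Window t N h) (hd : 2 ∣ t * N + 1) : h 2 = hW.gg := by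
  have key : ∀ a b : ℕ, (t + 1) * N + 2 ≤ 2 ^ a → 2 ^ b ≤ (t + 1) * (N + 1) + 1 → ¬ a < b := by
    intro a b h1 h2 hab
    have h3 : 2 ^ (a + 1) ≤ 2 ^ b := Nat.pow_le_pow_right (by norm_num) hab
    rw [pow_succ] at h3
    have h4 : (t + 1) * (N + 1) + 1 = (t + 1) * N + 2 + t := by ring
    have h5 : t * 1 ≤ (t + 1) * N := Nat.mul_le_mul (by omega) (by have := hW.t_le; have := hW.t_ge; omega)
    omega
  have l1 := hW.lower 2 Nat.prime_two hd
  have u1 := hW.upper 2 Nat.prime_two hd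
  have k1 := key _ _ l1 hW.gg_upper
  have k2 := key _ _ hW.gg_lower u1
  omega

theorem cop_gg (hW : Window t N h) {p : ℕ} (hp : p.Prime) (hd : p ∣ t * N + 1) (hp2 : p ≠ 2) :
    Nat.Coprime (h p) hW.gg :=
  hW.cop hp Nat.prime_two hp2 (hW.lower p hp hd) (hW.upper p hp hd) hW.gg_lower hW.gg_upper

/-- distance to the power of two, squared -/
theorem near_two (hW : Window t N h) {p : ℕ} (hp : p.Prime) (hd : p ∣ t * N + 1) :
    ((p : ℤ) ^ h p - 2 ^ hW.gg) ^ 2 < 2 ^ hW.gg := by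
  have l1 := hW.lower p hp hd
  have u1 := hW.upper p hp hd
  have l2 := hW.gg_lower
  have u2 := hW.gg_upper
  have ts := hW.tsq
  have n1 := hW.near l1 u1 l2 u2
  have n2 := hW.near l2 u2 l1 u1
  have m1 : ((2 : ℤ) ^ hW.gg) ≤ (p : ℤ) ^ h p + t := by exact_mod_cast n1
  have m2 : ((p : ℤ) ^ h p) ≤ (2 : ℤ) ^ hW.gg + t := by exact_mod_cast n2
  have m3 : (t : ℤ) ^ 2 < 2 ^ hW.gg := by
    have : t ^ 2 < 2 ^ hW.gg := by omega
    exact_mod_cast this
  have m4 : ((p : ℤ) ^ h p - 2 ^ hW.gg) ^ 2 ≤ (t : ℤ) ^ 2 := by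
    apply sq_le_sq'
    · linarith
    · linarith
  linarith

/-- size of the prime factors -/
theorem p_le (hW : Window t N h) {p : ℕ} (hp : p.Prime) (hd : p ∣ t * N + 1) : p ≤ t * (t + 1) := by
  have l1 := hW.lower p hp hd
  have u1 := hW.upper p hp hd
  obtain ⟨c, hc⟩ : ∃ c, p ^ h p = (t + 1) * N + 1 + c := ⟨p ^ h p - ((t + 1) * N + 1), by omega⟩
  have hc1 : 1 ≤ c := by omega
  have hc2 : c ≤ t + 1 := by
    have : (t + 1) * (N + 1) + 1 = (t + 1) * N + 1 + (t + 1) := by ring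
    omega
  have h2 := hW.two_le hp hd
  have h3 : p ∣ p ^ h p := dvd_pow_self p (by omega)
  -- t * p^h = (t+1) (tN+1) + (t c - 1)
  have h4 : t * p ^ h p = (t + 1) * (t * N + 1) + (t * c - 1) := by
    have htc : 1 ≤ t * c := Nat.mul_pos (by have := hW.t_ge; omega) hc1
    obtain ⟨e, he⟩ : ∃ e, t * c = e + 1 := ⟨t * c - 1, by omega⟩
    rw [hc]
    have : t * ((t + 1) * N + 1 + c) = t * (t + 1) * N + t + t * c := by ring
    rw [this, he]
    simp only [Nat.add_sub_cancel]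
    ring
  have h5 : p ∣ t * c - 1 := by
    have h6 : p ∣ (t + 1) * (t * N + 1) + (t * c - 1) := h4 ▸ Dvd.dvd.mul_left h3 t
    exact (Nat.dvd_add_right (Dvd.dvd.mul_left hd (t + 1))).mp h6
  have h7 : 0 < t * c - 1 := by
    have h8 : 2 * 1 ≤ t * c := Nat.mul_le_mul hW.t_ge hc1
    omega
  have h9 := Nat.le_of_dvd h7 h5
  have h10 : t * c ≤ t * (t + 1) := Nat.mul_le_mul_left t hc2
  omega

theorem g_big (hW : Window t N h) : (t + 1) * N + 1 < 2 ^ hW.gg := by
  have := hW.gg_lower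
  omega

theorem two_le_gg (hW : Window t N h) : 2 ≤ hW.gg := by
  by_contra hc
  have h1 := hW.gg_lower
  have h2 : 2 ^ hW.gg ≤ 2 ^ 1 := Nat.pow_le_pow_right (by norm_num) (by omega)
  have h3 : 2 * 1 ≤ (t + 1) * N := Nat.mul_le_mul (by have := hW.t_ge; omega) (by have := hW.t_le; have := hW.t_ge; omega)
  omega

end Window

end Pool.Agent.CZ
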