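import Mathlib
import Pool.Agent.CZ.Win

set_option autoImplicit false

namespace Pool.Agent.CZ

open Finset

namespace Window

variable {t N : ℕ} {h : ℕ → ℕ}

theorem mem_S {p : ℕ} : p ∈ (t * N + 1).primeFactors ↔ p.Prime ∧ p ∣ t * N + 1 := by
  rw [Nat.mem_primeFactors]
  constructor
  · rintro ⟨h1, h2, _⟩; exact ⟨h1, h2⟩
  · rintro ⟨h1, h2⟩; exact ⟨h1, h2, by omega⟩

/-- the sum of the reciprocals of the exponents -/
noncomputable def sig (t N : ℕ) (h : ℕ → ℕ) : ℝ := ∑ p ∈ (t * N + 1).primeFactors, (1 : ℝ) / h p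

theorem sum_log (hW : Window t N h) :
    ∑ p ∈ (t * N + 1).primeFactors, Real.log (p : ℝ) = Real.log ((t : ℝ) * N + 1) := by
  have h1 : ∏ p ∈ (t * N + 1).primeFactors, p = t * N + 1 := Nat.prod_primeFactors_of_squarefree hW.sqf
  have h2 : (∏ p ∈ (t * N + 1).primeFactors, (p : ℝ)) = (t : ℝ) * N + 1 := by
    rw [← Nat.cast_prod, h1]
    push_cast
    ring
  rw [← h2, Real.log_prod]
  intro p hp
  have := (mem_S.mp hp).1.pos
  positivity

theorem logp_le (hW : Window t N h) {p : ℕ} (hp : p ∈ (t * N + 1).primeFactors) :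
    Real.log p ≤ (1 : ℝ) / h p * Real.log (((t : ℝ) + 1) * (N + 1) + 1) := by
  obtain ⟨hp1, hp2⟩ := mem_S.mp hp
  have h2 : (0 : ℝ) < h p := by
    have := hW.two_le hp1 hp2
    exact_mod_cast (by omega : 0 < h p)
  have h1 := hW.upper p hp1 hp2
  have h3 : (p : ℝ) ^ h p ≤ ((t : ℝ) + 1) * (N + 1) + 1 := by exact_mod_cast h1
  have h4 : (0 : ℝ) < (p : ℝ) ^ h p := by
    have := hp1.pos
    positivity
  have h5 := Real.log_le_log h4 h3
  rw [Real.log_pow] at h5
  rw [div_mul_eq_mul_div, one_mul, le_div_iff₀ h2]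
  linarith

theorem le_logp (hW : Window t N h) {p : ℕ} (hp : p ∈ (t * N + 1).primeFactors) :
    (1 : ℝ) / h p * Real.log (((t : ℝ) + 1) * N + 2) ≤ Real.log p := by
  obtain ⟨hp1, hp2⟩ := mem_S.mp hp
  have h2 : (0 : ℝ) < h p := by
    have := hW.two_le hp1 hp2
    exact_mod_cast (by omega : 0 < h p)
  have h1 := hW.lower p hp1 hp2
  have h3 : ((t : ℝ) + 1) * N + 2 ≤ (p : ℝ) ^ h p := by exact_mod_cast h1
  have h4 : (0 : ℝ) < ((t : ℝ) + 1) * N + 2 := by positivity
  have h5 := Real.log_le_log h4 h3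
  rw [Real.log_pow] at h5
  rw [div_mul_eq_mul_div, one_mul, div_le_iff₀ h2]
  linarith

theorem sig_lt_one (hW : Window t N h) : sig t N h < 1 := by
  have h1 : sig t N h * Real.log (((t : ℝ) + 1) * N + 2) ≤ Real.log ((t : ℝ) * N + 1) := by
    rw [← hW.sum_log, sig, Finset.sum_mul]
    exact Finset.sum_le_sum fun p hp => hW.le_logp hp
  have hu := hW.u_lt
  have h2 : (t : ℝ) * N + 1 < ((t : ℝ) + 1) * N + 2 := by exact_mod_cast hu
  have h3 : Real.log ((t : ℝ) * N + 1) < Real.log (((t : ℝ) + 1) * N + 2) :=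
    Real.log_lt_log (by positivity) h2
  have h4 : 0 < Real.log (((t : ℝ) + 1) * N + 2) := by
    apply Real.log_pos
    have : (0 : ℝ) ≤ ((t : ℝ) + 1) * N := by positivity
    linarith
  by_contra hc
  push Not at hc
  nlinarith

theorem one_sub_sig_le (hW : Window t N h) :
    (1 - sig t N h) * Real.log (((t : ℝ) + 1) * (N + 1) + 1) ≤ ((N : ℝ) + t + 1) / ((t : ℝ) * N + 1) := by
  have h1 : Real.log ((t : ℝ) * N + 1) ≤ sig t N h * Real.log (((t : ℝ) + 1) * (N + 1) + 1) := by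
    rw [← hW.sum_log, sig, Finset.sum_mul]
    exact Finset.sum_le_sum fun p hp => hW.logp_le hp
  have hu : (0 : ℝ) < (t : ℝ) * N + 1 := by positivity
  have hw : (0 : ℝ) < ((t : ℝ) + 1) * (N + 1) + 1 := by positivity
  have h2 : Real.log (((t : ℝ) + 1) * (N + 1) + 1) - Real.log ((t : ℝ) * N + 1) ≤
      ((N : ℝ) + t + 1) / ((t : ℝ) * N + 1) := by
    rw [← Real.log_div hw.ne' hu.ne']
    have h3 := Real.log_le_sub_one_of_pos (div_pos hw hu)
    have h4 : (((t : ℝ) + 1) * (N + 1) + 1) / ((t : ℝ) * N + 1) - 1 = ((N : ℝ) + t + 1) / ((t : ℝ) * N + 1) := by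
      rw [div_sub_one hu.ne']
      congr 1
      ring
    linarith
  linarith

theorem prod_lower (hW : Window t N h) :
    1 ≤ (1 - sig t N h) * ∏ p ∈ (t * N + 1).primeFactors, (h p : ℝ) := by
  have h0 : ∀ p ∈ (t * N + 1).primeFactors, (h p : ℝ) ≠ 0 := by
    intro p hp
    obtain ⟨hp1, hp2⟩ := mem_S.mp hp
    have := hW.two_le hp1 hp2
    exact_mod_cast (by omega : h p ≠ 0)
  have h1 : sig t N h * ∏ p ∈ (t * N + 1).primeFactors, (h p : ℝ) =
      ∑ p ∈ (t * N + 1).primeFactors, ∏ q ∈ (t * N + 1).primeFactors.erase p, (h q : ℝ) := by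
    rw [sig, Finset.sum_mul]
    apply Finset.sum_congr rfl
    intro p hp
    rw [← Finset.mul_prod_erase _ _ hp]
    field_simp [h0 p hp]
  have h2 : (1 - sig t N h) * ∏ p ∈ (t * N + 1).primeFactors, (h p : ℝ) =
      (((∏ p ∈ (t * N + 1).primeFactors, (h p : ℤ)) -
        ∑ p ∈ (t * N + 1).primeFactors, ∏ q ∈ (t * N + 1).primeFactors.erase p, (h q : ℤ) : ℤ) : ℝ) := by
    rw [sub_mul, one_mul, h1]
    push_cast
    rfl
  have h3 : 0 < (1 - sig t N h) * ∏ p ∈ (t * N + 1).primeFactors, (h p : ℝ) := by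
    apply mul_pos
    · linarith [hW.sig_lt_one]
    · apply Finset.prod_pos
      intro p hp
      exact lt_of_le_of_ne (Nat.cast_nonneg _) (Ne.symm (h0 p hp))
  rw [h2] at h3 ⊢
  have h4 : (0 : ℤ) < ((∏ p ∈ (t * N + 1).primeFactors, (h p : ℤ)) -
        ∑ p ∈ (t * N + 1).primeFactors, ∏ q ∈ (t * N + 1).primeFactors.erase p, (h q : ℤ) : ℤ) := by
    exact_mod_cast h3
  exact_mod_cast h4

theorem odd_part_inj (hW : Window t N h) :
    Set.InjOn (fun p => (h p).minFac) ((t * N + 1).primeFactors.erase 2 : Finset ℕ) := by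
  intro p hp q hq hpq
  by_contra hne
  have hp' := Finset.mem_coe.mp hp
  have hq' := Finset.mem_coe.mp hq
  obtain ⟨hp1, hp2⟩ := mem_S.mp (Finset.mem_of_mem_erase hp')
  obtain ⟨hq1, hq2⟩ := mem_S.mp (Finset.mem_of_mem_erase hq')
  have hc := hW.pairwise hp1 hp2 hq1 hq2 hne
  have hm : (h p).minFac = (h q).minFac := hpq
  have t1 := hW.two_le hp1 hp2
  have pr : (h p).minFac.Prime := Nat.minFac_prime (by omega)
  have d1 : (h p).minFac ∣ h p := Nat.minFac_dvd _
  have d2 : (h p).minFac ∣ h q := hm ▸ Nat.minFac_dvd (h q)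
  exact Nat.not_coprime_of_dvd_of_dvd pr.one_lt d1 d2 hc

/-- **Sum over least prime factors.** -/
theorem sum_minFac (hW : Window t N h) (Q : Finset ℕ) (f : ℕ → ℝ) (hf : ∀ q ∈ Q, 0 ≤ f q)
    (hQ : ∀ p ∈ (t * N + 1).primeFactors, p ≠ 2 → (h p).minFac ∈ Q ∧ (1 : ℝ) / h p ≤ f (h p).minFac) :
    sig t N h ≤ 1 / hW.gg + ∑ q ∈ Q, f q := by
  have hmain : ∑ p ∈ (t * N + 1).primeFactors.erase 2, (1 : ℝ) / h p ≤ ∑ q ∈ Q, f q := by
    calc ∑ p ∈ (t * N + 1).primeFactors.erase 2, (1 : ℝ) / h p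
        ≤ ∑ p ∈ (t * N + 1).primeFactors.erase 2, f (h p).minFac := by
          apply Finset.sum_le_sum
          intro p hp
          exact (hQ p (Finset.mem_of_mem_erase hp) (Finset.ne_of_mem_erase hp)).2
      _ = ∑ q ∈ ((t * N + 1).primeFactors.erase 2).image (fun p => (h p).minFac), f q := by
          rw [Finset.sum_image hW.odd_part_inj]
      _ ≤ ∑ q ∈ Q, f q := by
          apply Finset.sum_le_sum_of_subset_of_nonneg
          · intro q hq
            obtain ⟨p, hp, rfl⟩ := Finset.mem_image.mp hq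
            exact (hQ p (Finset.mem_of_mem_erase hp) (Finset.ne_of_mem_erase hp)).1
          · intro q hq _
            exact hf q hq
  have hg0 : (0 : ℝ) ≤ 1 / hW.gg := by positivity
  by_cases h2 : 2 ∈ (t * N + 1).primeFactors
  · rw [sig, ← Finset.add_sum_erase _ _ h2, hW.h_two (mem_S.mp h2).2]
    linarith
  · rw [Finset.erase_eq_of_notMem h2] at hmain
    rw [sig]
    linarith

/-- product of the exponents when all odd primes have exponent at most `H` -/
theorem prod_le (hW : Window t N h) {M : ℕ} (hM : 0 < M)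
    (hdv : ∀ p ∈ (t * N + 1).primeFactors, p ≠ 2 → h p ∣ M) :
    (∏ p ∈ (t * N + 1).primeFactors, (h p : ℝ)) ≤ hW.gg * M := by
  have h3 : ∏ p ∈ (t * N + 1).primeFactors.erase 2, h p ∣ M := by
    apply Finset.prod_dvd_of_isRelPrime
    · intro p hp q hq hne
      have hp' := Finset.mem_coe.mp hp
      have hq' := Finset.mem_coe.mp hq
      obtain ⟨hp1, hp2⟩ := mem_S.mp (Finset.mem_of_mem_erase hp')
      obtain ⟨hq1, hq2⟩ := mem_S.mp (Finset.mem_of_mem_erase hq')
      exact Nat.coprime_iff_isRelPrime.mp (hW.pairwise hp1 hp2 hq1 hq2 hne)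
    · intro p hp
      exact hdv p (Finset.mem_of_mem_erase hp) (Finset.ne_of_mem_erase hp)
  have h4 := Nat.le_of_dvd hM h3
  have hg2 := hW.two_le_gg
  have h5 : ∏ p ∈ (t * N + 1).primeFactors, h p ≤ hW.gg * M := by
    by_cases h2 : 2 ∈ (t * N + 1).primeFactors
    · rw [← Finset.mul_prod_erase _ _ h2, hW.h_two (mem_S.mp h2).2]
      exact Nat.mul_le_mul_left _ h4
    · rw [Finset.erase_eq_of_notMem h2] at h4
      calc _ ≤ 1 * M := by rw [one_mul]; exact h4
        _ ≤ _ := Nat.mul_le_mul_right _ (by omega)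
  exact_mod_cast h5

end Window

end Pool.Agent.CZ
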