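import Mathlib
import Pool.Agent.CZ.Sig

set_option autoImplicit false

namespace Pool.Agent.CZ

open Finset

/-- `lcm` of `a, a + 1, ..., a + 2^k - 1` -/
def lcr : ℕ → ℕ → ℕ
  | 0, a => a
  | k + 1, a => Nat.lcm (lcr k a) (lcr k (a + 2 ^ k))

theorem dvd_lcr : ∀ k a n : ℕ, a ≤ n → n < a + 2 ^ k → n ∣ lcr k a := by
  intro k
  induction k with
  | zero =>
    intro a n h1 h2
    have : n = a := by simp at h2; omega
    subst this
    exact dvd_rfl
  | succ k ih =>
    intro a n h1 h2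
    rw [pow_succ] at h2
    rcases lt_or_ge n (a + 2 ^ k) with h3 | h3
    · exact (ih a n h1 h3).trans (Nat.dvd_lcm_left _ _)
    · exact (ih (a + 2 ^ k) n h3 (by omega)).trans (Nat.dvd_lcm_right _ _)

theorem lcr_pos : ∀ k a : ℕ, 0 < a → 0 < lcr k a := by
  intro k
  induction k with
  | zero => intro a ha; exact ha
  | succ k ih => intro a ha; exact Nat.lcm_pos (ih a ha) (ih _ (Nat.add_pos_left ha _))

theorem lcr_lt : lcr 12 1 < 2 ^ 5925 := by decide +kernel

/-- the primes up to 251 -/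
def plist : List ℕ := [2, 3, 5, 7, 11, 13, 17, 19, 23, 29, 31, 37, 41, 43, 47, 53, 59, 61, 67, 71, 73, 79, 83, 89, 97,
  101, 103, 107, 109, 113, 127, 131, 137, 139, 149, 151, 157, 163, 167, 173, 179, 181, 191, 193, 197, 199, 211,
  223, 227, 229, 233, 239, 241, 251]

theorem plist_prime : ∀ p ∈ plist, p.Prime := by
  intro p hp
  simp only [plist, List.mem_cons, List.not_mem_nil, or_false] at hp
  rcases hp with h | h | h | h | h | h | h | h | h | h | h | h | h | h | h | h | h | h | h | h | h | h | h | h | h |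
    h | h | h | h | h | h | h | h | h | h | h | h | h | h | h | h | h | h | h | h | h | h | h | h | h | h | h | h | h
    <;> subst h <;> norm_num

/-- some prime of the list divides `t N + 1` and has no power in the window -/
def fchk (t N : ℕ) : Bool :=
  plist.any fun p => (t * N + 1) % p == 0 &&
    (List.range 10).all fun e => !(Nat.ble ((t + 1) * N + 2) (p ^ e) && Nat.ble (p ^ e) ((t + 1) * (N + 1) + 1))

theorem fchk_all : ((List.range 17).all fun t => (List.range 86).all fun N =>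
    !(Nat.ble 2 t && Nat.ble t N && (List.range 9).any fun e =>
      (Nat.ble ((t + 1) * N + 2) (2 ^ e) && Nat.ble (2 ^ e) ((t + 1) * (N + 1) + 1))) || fchk t N) = true := by
  decide +kernel

theorem fincheck {t N g : ℕ} (ht : t < 17) (hN : N < 86) (h3 : 2 ≤ t) (htN : t ≤ N) (hg : g ≤ 8)
    (hw : (t + 1) * N + 2 ≤ 2 ^ g) (h2 : 2 ^ g ≤ (t + 1) * (N + 1) + 1) :
    ∃ p ∈ plist, p ∣ t * N + 1 ∧ ∀ e < 10, ¬((t + 1) * N + 2 ≤ p ^ e ∧ p ^ e ≤ (t + 1) * (N + 1) + 1) := by
  have h := fchk_all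
  rw [List.all_eq_true] at h
  have h' := h t (List.mem_range.mpr ht)
  rw [List.all_eq_true] at h'
  have h'' := h' N (List.mem_range.mpr hN)
  have e : (Nat.ble 2 t && Nat.ble t N && (List.range 9).any fun e =>
      (Nat.ble ((t + 1) * N + 2) (2 ^ e) && Nat.ble (2 ^ e) ((t + 1) * (N + 1) + 1))) = true := by
    simp only [Bool.and_eq_true, Nat.ble_eq, List.any_eq_true]
    exact ⟨⟨h3, htN⟩, g, List.mem_range.mpr (by omega), hw, h2⟩
  rw [e] at h''
  simp only [Bool.not_true, Bool.false_or, fchk, List.any_eq_true] at h''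
  obtain ⟨p, hp, hq⟩ := h''
  rw [Bool.and_eq_true, List.all_eq_true, beq_iff_eq] at hq
  refine ⟨p, hp, Nat.dvd_of_mod_eq_zero hq.1, ?_⟩
  rintro e he ⟨c1, c2⟩
  have := hq.2 e (List.mem_range.mpr he)
  rw [Nat.ble_eq.mpr c1, Nat.ble_eq.mpr c2] at this
  simp at this

namespace Window

variable {t N : ℕ} {h : ℕ → ℕ}

theorem not_small (hW : Window t N h) (hg : hW.gg ≤ 8) : False := by
  have t2 := hW.t_ge
  have tN := hW.t_le
  have h1 := hW.gg_lower
  have h2 : 2 ^ hW.gg ≤ 2 ^ 8 := Nat.pow_le_pow_right (by norm_num) hg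
  have h3 : (t + 1) * N + 2 ≤ 256 := by omega
  have h4 : 3 * N ≤ (t + 1) * N := Nat.mul_le_mul_right N (by omega)
  have h5 : (t + 1) * t ≤ (t + 1) * N := Nat.mul_le_mul_left _ tN
  have h6 : t < 17 := by
    by_contra hc
    push Not at hc
    have : 18 * 17 ≤ (t + 1) * t := Nat.mul_le_mul (by omega) hc
    omega
  obtain ⟨p, hp, hd, hn⟩ := fincheck h6 (by omega) t2 tN hg h1 hW.gg_upper
  have pp := plist_prime p hp
  have l := hW.lower p pp hd
  have u := hW.upper p pp hd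
  rcases lt_or_ge (h p) 10 with h7 | h7
  · exact hn (h p) h7 ⟨l, u⟩
  · have h8 : 2 ^ 10 ≤ p ^ h p := (Nat.pow_le_pow_left pp.two_le 10).trans (Nat.pow_le_pow_right pp.pos h7)
    have h9 : (t + 1) * (N + 1) + 1 = (t + 1) * N + 2 + t := by ring
    omega

/-- If every prime factor outside `T` has an even exponent, `u` is small. -/
theorem u_le (hW : Window t N h) (T : Finset ℕ) (hT : ∀ p ∈ T, 0 < p)
    (h2 : ∀ p ∈ (t * N + 1).primeFactors, p ∉ T → 2 ∣ h p) : t * N + 1 ≤ 2 * (∏ p ∈ T, p) ^ 2 := by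
  have t2 := hW.t_ge
  have tN := hW.t_le
  set S := (t * N + 1).primeFactors with hS
  have hcard : (S \ T).card ≤ 1 := by
    rw [Finset.card_le_one]
    intro p hp q hq
    by_contra hne
    obtain ⟨hp1, hp2⟩ := Finset.mem_sdiff.mp hp
    obtain ⟨hq1, hq2⟩ := Finset.mem_sdiff.mp hq
    have a1 := mem_S.mp hp1
    have a2 := mem_S.mp hq1
    have hc := hW.pairwise a1.1 a1.2 a2.1 a2.2 hne
    exact Nat.not_coprime_of_dvd_of_dvd (by norm_num) (h2 p hp1 hp2) (h2 q hq1 hq2) hc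
  have hW1 : (t + 1) * (N + 1) + 1 ≤ 2 * (t * N + 1) := by nlinarith
  have hr : (∏ p ∈ S \ T, p) ^ 2 ≤ 2 * (t * N + 1) := by
    rcases Finset.card_le_one_iff_subset_singleton.mp hcard with ⟨x, hx⟩
    rcases Finset.subset_singleton_iff.mp hx with h0 | h0
    · rw [h0]; simp; omega
    · rw [h0, Finset.prod_singleton]
      have hx' : x ∈ S := by
        have : x ∈ S \ T := by rw [h0]; exact Finset.mem_singleton_self x
        exact (Finset.mem_sdiff.mp this).1
      have a1 := mem_S.mp hx'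
      have a2 := hW.two_le a1.1 a1.2
      have a3 := hW.upper x a1.1 a1.2
      have a4 : x ^ 2 ≤ x ^ h x := Nat.pow_le_pow_right a1.1.pos a2
      omega
  have hu : t * N + 1 = (∏ p ∈ S \ T, p) * ∏ p ∈ S ∩ T, p := by
    rw [← Nat.prod_primeFactors_of_squarefree hW.sqf, ← hS, mul_comm]
    exact (Finset.prod_inter_mul_prod_sdiff S T _).symm
  have hT2 : ∏ p ∈ S ∩ T, p ≤ ∏ p ∈ T, p := by
    apply Nat.le_of_dvd (Finset.prod_pos hT)
    exact Finset.prod_dvd_prod_of_subset _ _ _ Finset.inter_subset_right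
  have h3 : (t * N + 1) ^ 2 ≤ (2 * (t * N + 1)) * (∏ p ∈ T, p) ^ 2 := by
    calc (t * N + 1) ^ 2 = (∏ p ∈ S \ T, p) ^ 2 * (∏ p ∈ S ∩ T, p) ^ 2 := by
          rw [← mul_pow, ← hu]
      _ ≤ (2 * (t * N + 1)) * (∏ p ∈ T, p) ^ 2 :=
          Nat.mul_le_mul hr (Nat.pow_le_pow_left hT2 2)
  have h4 : (t * N + 1) * (t * N + 1) ≤ (t * N + 1) * (2 * (∏ p ∈ T, p) ^ 2) := by
    calc (t * N + 1) * (t * N + 1) = (t * N + 1) ^ 2 := by ring
      _ ≤ _ := h3
      _ = _ := by ring
  exact Nat.le_of_mul_le_mul_left h4 (by omega)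

end Window

end Pool.Agent.CZ
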