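import Mathlib
import Pool.Agent.CZ.Fin3

set_option autoImplicit false

namespace Pool.Agent.CZ

open Finset

namespace Window

variable {t N : ℕ} {h : ℕ → ℕ}

/-- `log W1 ≥ g log 2` -/
theorem log_W1 (hW : Window t N h) : (hW.gg : ℝ) * Real.log 2 ≤ Real.log (((t : ℝ) + 1) * (N + 1) + 1) := by
  have h1 : ((2 : ℝ)) ^ hW.gg ≤ ((t : ℝ) + 1) * (N + 1) + 1 := by exact_mod_cast hW.gg_upper
  have h2 := Real.log_le_log (by positivity) h1
  rwa [Real.log_pow] at h2

theorem X_le (hW : Window t N h) : ((N : ℝ) + t + 1) / ((t : ℝ) * N + 1) ≤ 2 / ((t : ℝ) - 1) := by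
  have t2 : (2 : ℝ) ≤ t := by exact_mod_cast hW.t_ge
  have tN : (t : ℝ) ≤ N := by exact_mod_cast hW.t_le
  rw [div_le_div_iff₀ (by positivity) (by linarith)]
  nlinarith

/-- the window is shorter than its lower end -/
theorem W1_le (hW : Window t N h) : (t + 1) * (N + 1) + 1 ≤ 2 * ((t + 1) * N + 2) := by
  have h3 : (t + 1) * (N + 1) + 1 = (t + 1) * N + 2 + t := by ring
  have h4 : t * 1 ≤ (t + 1) * N :=
    Nat.mul_le_mul (by omega) (by have := hW.t_le; have := hW.t_ge; omega)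
  omega

/-- the window starts above half of `2^g` -/
theorem half (hW : Window t N h) {p : ℕ} (hp : p.Prime) (hd : p ∣ t * N + 1) : 2 ^ hW.gg ≤ 2 * p ^ h p := by
  have h1 := hW.gg_upper
  have h2 := hW.lower p hp hd
  have h3 := hW.W1_le
  omega

/-- bound for `t` when all odd exponents divide `M` -/
theorem t_le_of (hW : Window t N h) {M : ℕ} (hM : 0 < M)
    (hdv : ∀ p ∈ (t * N + 1).primeFactors, p ≠ 2 → h p ∣ M) : t ≤ 3 * M + 1 := by
  have a1 := hW.one_sub_sig_le
  have a2 := hW.prod_lower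
  have a3 := hW.prod_le hM hdv
  have a4 := hW.log_W1
  have a5 := hW.X_le
  have a6 := hW.sig_lt_one
  have t2 : (2 : ℝ) ≤ t := by exact_mod_cast hW.t_ge
  have g2 := hW.two_le_gg
  have g2' : (2 : ℝ) ≤ hW.gg := by exact_mod_cast g2
  have l2 : (0.69 : ℝ) < Real.log 2 := by linarith [Real.log_two_gt_d9]
  set L := Real.log (((t : ℝ) + 1) * (N + 1) + 1) with hL
  set P := ∏ p ∈ (t * N + 1).primeFactors, (h p : ℝ) with hP
  set X := ((N : ℝ) + t + 1) / ((t : ℝ) * N + 1) with hX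
  have hMr : (1 : ℝ) ≤ M := by exact_mod_cast hM
  have hLpos : 0 < L := by nlinarith
  have hXpos : 0 ≤ X := by positivity
  have hPpos : 0 ≤ P := Finset.prod_nonneg fun p _ => Nat.cast_nonneg _
  -- L ≤ (1 - sig) P L ≤ X P ≤ X g M
  have b1 : L ≤ X * (hW.gg * M) := by
    calc L ≤ ((1 - sig t N h) * P) * L := by nlinarith
      _ = ((1 - sig t N h) * L) * P := by ring
      _ ≤ X * P := mul_le_mul_of_nonneg_right a1 hPpos
      _ ≤ X * (hW.gg * M) := mul_le_mul_of_nonneg_left a3 hXpos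
  have b2 : (hW.gg : ℝ) * 0.69 ≤ X * (hW.gg * M) := by nlinarith
  have b3 : 0.69 ≤ X * M := by
    have : (hW.gg : ℝ) * 0.69 ≤ hW.gg * (X * M) := by linarith
    exact le_of_mul_le_mul_left this (by linarith)
  have b4 : 0.69 ≤ 2 / ((t : ℝ) - 1) * M := b3.trans (mul_le_mul_of_nonneg_right a5 (by linarith))
  have b5 : 0.69 * ((t : ℝ) - 1) ≤ 2 * M := by
    rw [div_mul_eq_mul_div, le_div_iff₀ (by linarith)] at b4
    exact b4
  have b6 : (t : ℝ) ≤ 3 * M + 1 := by linarith
  exact_mod_cast b6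

/-- lower bound for the odd exponents -/
theorem h_ge_of (hW : Window t N h) {M a : ℕ} (hM : 0 < M) (hMa : M < 2 ^ a)
    (hdv : ∀ p ∈ (t * N + 1).primeFactors, p ≠ 2 → h p ∣ M) {p : ℕ} (hp : p ∈ (t * N + 1).primeFactors) :
    hW.gg - 1 ≤ (2 * a + 4) * h p := by
  obtain ⟨hp1, hp2⟩ := mem_S.mp hp
  have h1 := hW.t_le_of hM hdv
  have h2 := hW.p_le hp1 hp2
  have h3 : t ≤ 2 ^ (a + 2) - 1 := by
    have : 2 ^ (a + 2) = 4 * 2 ^ a := by ring
    omega
  have h3' : 0 < 2 ^ (a + 2) := by positivity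
  have h4 : p ≤ 2 ^ (2 * a + 4) := by
    calc p ≤ t * (t + 1) := h2
      _ ≤ 2 ^ (a + 2) * 2 ^ (a + 2) := Nat.mul_le_mul (by omega) (by omega)
      _ = 2 ^ (2 * a + 4) := by rw [← pow_add]; congr 1; ring
  have h5 := hW.half hp1 hp2
  have h6 : p ^ h p ≤ 2 ^ ((2 * a + 4) * h p) := by
    rw [pow_mul]
    exact Nat.pow_le_pow_left h4 _
  have g2 := hW.two_le_gg
  have h7 : 2 ^ (hW.gg - 1) ≤ 2 ^ ((2 * a + 4) * h p) := by
    have h8 : 2 ^ hW.gg = 2 * 2 ^ (hW.gg - 1) := by
      rw [← pow_succ']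
      congr 1
      omega
    omega
  exact (Nat.pow_le_pow_iff_right (by norm_num)).mp h7

/-- an odd prime factor of an exponent -/
theorem not_dvd_g (hW : Window t N h) {p l : ℕ} (hp : p ∈ (t * N + 1).primeFactors) (hp2 : p ≠ 2)
    (hl : l.Prime) (hlp : l ∣ h p) : ¬ l ∣ hW.gg := by
  obtain ⟨a1, a2⟩ := mem_S.mp hp
  intro hd
  exact Nat.not_coprime_of_dvd_of_dvd hl.one_lt hlp hd (hW.cop_gg a1 a2 hp2)

theorem excl (hW : Window t N h) {p l : ℕ} (hp : p ∈ (t * N + 1).primeFactors) (hlp : l ∣ h p)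
    (hR : ∀ P : ℕ, (2 : ℤ) ^ hW.gg ≤ ((P : ℤ) ^ l - 2 ^ hW.gg) ^ 2) : False := by
  obtain ⟨a1, a2⟩ := mem_S.mp hp
  have h1 := hW.near_two a1 a2
  obtain ⟨e, he⟩ := hlp
  have h2 := hR (p ^ e)
  have h3 : (((p ^ e : ℕ) : ℤ)) ^ l = (p : ℤ) ^ h p := by
    rw [he]
    push_cast
    rw [← pow_mul, mul_comm]
  rw [h3] at h2
  linarith

theorem odd_p (_hW : Window t N h) {p : ℕ} (hp : p ∈ (t * N + 1).primeFactors) (hp2 : p ≠ 2) :
    3 ≤ p ∧ Odd p := by
  obtain ⟨a1, _⟩ := mem_S.mp hp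
  have := a1.two_le
  exact ⟨by omega, a1.odd_of_ne_two hp2⟩

theorem X_le_05 (hW : Window t N h) (hN : 200 ≤ N) : ((N : ℝ) + t + 1) / ((t : ℝ) * N + 1) ≤ 0.51 := by
  have t2 : (2 : ℝ) ≤ t := by exact_mod_cast hW.t_ge
  have hN' : (200 : ℝ) ≤ N := by exact_mod_cast hN
  rw [div_le_iff₀ (by positivity)]
  nlinarith [mul_nonneg (sub_nonneg.mpr t2) (sub_nonneg.mpr hN')]

/-- trivial upper bound for the odd exponents -/
theorem h_le (hW : Window t N h) {p : ℕ} (hp : p ∈ (t * N + 1).primeFactors) (hp2 : p ≠ 2) :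
    84 * h p < 53 * (hW.gg + 1) := by
  obtain ⟨b1, b2⟩ := mem_S.mp hp
  have c1 := hW.upper p b1 b2
  have c2 := hW.gg_lower
  have c3 := hW.W1_le
  have c5 : p ^ h p ≤ 2 ^ (hW.gg + 1) := by
    rw [pow_succ]; omega
  have c5' : p ^ h p ≠ 2 ^ (hW.gg + 1) := by
    intro he
    have h0 := hW.two_le b1 b2
    have d1 : p ∣ 2 ^ (hW.gg + 1) := he ▸ dvd_pow_self p (by omega)
    exact hp2 ((Nat.prime_dvd_prime_iff_eq b1 Nat.prime_two).mp (b1.dvd_of_dvd_pow d1))
  have c6 : p ^ h p < 2 ^ (hW.gg + 1) := lt_of_le_of_ne c5 c5'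
  have c7 : 2 ^ (84 * h p) < 2 ^ (53 * (hW.gg + 1)) := by
    calc 2 ^ (84 * h p) = (2 ^ 84) ^ h p := by rw [pow_mul]
      _ ≤ (3 ^ 53) ^ h p := Nat.pow_le_pow_left (by norm_num) _
      _ = (3 ^ h p) ^ 53 := by rw [← pow_mul, ← pow_mul, mul_comm]
      _ ≤ (p ^ h p) ^ 53 := Nat.pow_le_pow_left (Nat.pow_le_pow_left (hW.odd_p hp hp2).1 _) _
      _ < (2 ^ (hW.gg + 1)) ^ 53 := Nat.pow_lt_pow_left c6 (by norm_num)
      _ = 2 ^ (53 * (hW.gg + 1)) := by rw [← pow_mul, mul_comm]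
  exact (Nat.pow_lt_pow_iff_right (by norm_num)).mp c7

end Window

/-- **No window.** The inputs are: the two-logarithm bound (no exponent `≥ 4096` for `g ≥ 10^5`), the root tables
and three sums over primes. -/
theorem no_window
    (h2log : ∀ g h p : ℕ, 100000 ≤ g → 4096 ≤ h → Nat.Coprime g h → p.Prime → 3 ≤ p →
      (2 : ℤ) ^ g ≤ ((p : ℤ) ^ h - 2 ^ g) ^ 2)
    (hRA1 : ∀ g l P : ℕ, 210 ≤ g → g ≤ 100000 → l.Prime → 3 ≤ l → l ≤ 829 → ¬ l ∣ g →
      (2 : ℤ) ^ g ≤ ((P : ℤ) ^ l - 2 ^ g) ^ 2)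
    (hRA2 : ∀ g l P : ℕ, 100000 ≤ g → g ≤ 1000000 → l.Prime → 3 ≤ l → l ≤ 167 → ¬ l ∣ g →
      (2 : ℤ) ^ g ≤ ((P : ℤ) ^ l - 2 ^ g) ^ 2)
    (hA0 : ∀ g l P : ℕ, 5 ≤ g → g < 210 → l.Prime → 3 ≤ l → ¬ l ∣ g → 3 ≤ P → Odd P →
      (2 : ℤ) ^ g ≤ ((P : ℤ) ^ l - 2 ^ g) ^ 2 ∨ (g = 5 ∧ l = 3 ∧ P = 3) ∨ (g = 7 ∧ l = 3 ∧ P = 5) ∨
        (g = 8 ∧ l = 5 ∧ P = 3) ∨ (g = 35 ∧ l = 3 ∧ P = 3251))
    (hS1 : ∑ q ∈ (Ioc 0 4095).filter Nat.Prime, (1 : ℝ) / max (q : ℝ) 78 ≤ 0.896)
    (hS2 : ∑ q ∈ (Ioc 167 4095).filter Nat.Prime, (1 : ℝ) / q ≤ 0.4706)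
    (hS3 : ∑ q ∈ (Ioc 829 63100).filter Nat.Prime, (1 : ℝ) / q ≤ 0.4917)
    (t N : ℕ) (h : ℕ → ℕ) : ¬ Window t N h := by
  intro hW
  have t2 := hW.t_ge
  have tN := hW.t_le
  have t2' : (2 : ℝ) ≤ t := by exact_mod_cast t2
  have l2 : (0.6931 : ℝ) < Real.log 2 := by linarith [Real.log_two_gt_d9]
  have a1 := hW.one_sub_sig_le
  have a4 := hW.log_W1
  have a5 := hW.X_le
  have a6 := hW.sig_lt_one
  have a5' : ((N : ℝ) + t + 1) / ((t : ℝ) * N + 1) ≤ 2 := by
    refine a5.trans ?_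
    rw [div_le_iff₀ (by linarith)]
    linarith
  rcases le_or_gt (hW.gg) 8 with hg8 | hg8
  · exact hW.not_small hg8
  have hprime : ∀ p ∈ (t * N + 1).primeFactors, (h p).minFac.Prime := by
    intro p hp
    obtain ⟨b1, b2⟩ := Window.mem_S.mp hp
    have := hW.two_le b1 b2
    exact Nat.minFac_prime (by omega)
  have hpos : ∀ p ∈ (t * N + 1).primeFactors, 0 < h p := by
    intro p hp
    obtain ⟨b1, b2⟩ := Window.mem_S.mp hp
    have := hW.two_le b1 b2
    omega
  have hmf : ∀ p ∈ (t * N + 1).primeFactors, (1 : ℝ) / h p ≤ 1 / ((h p).minFac : ℝ) := by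
    intro p hp
    have b1 : (h p).minFac ≤ h p := Nat.minFac_le (hpos p hp)
    have b2 : (0 : ℝ) < (h p).minFac := by exact_mod_cast (hprime p hp).pos
    exact one_div_le_one_div_of_le b2 (by exact_mod_cast b1)
  rcases lt_or_ge (hW.gg) 210 with hg | hg
  · -- small range
    by_cases h35 : hW.gg = 35
    · have h1 := hW.u_le {2, 3251} (by simp) (by
        intro p hp hpT
        simp only [Finset.mem_insert, Finset.mem_singleton, not_or] at hpT
        by_contra hc
        have pr := hprime p hp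
        have l3 : 3 ≤ (h p).minFac := by
          have := pr.two_le
          have hne : (h p).minFac ≠ 2 := fun he => hc (he ▸ Nat.minFac_dvd (h p))
          omega
        obtain ⟨e, he⟩ := Nat.minFac_dvd (h p)
        obtain ⟨p3, podd⟩ := hW.odd_p hp hpT.1
        have he0 : e ≠ 0 := by
          rintro rfl
          have := hpos p hp
          simp at he
          omega
        have P3 : 3 ≤ p ^ e := p3.trans (Nat.le_self_pow he0 p)
        have h2 := hA0 (hW.gg) (h p).minFac (p ^ e) (by omega) hg pr l3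
          (hW.not_dvd_g hp hpT.1 pr (Nat.minFac_dvd _)) P3 podd.pow
        have h3 : (((p ^ e : ℕ) : ℤ)) ^ (h p).minFac = (p : ℤ) ^ h p := by
          push_cast
          rw [← pow_mul, mul_comm, ← he]
        rw [h3] at h2
        obtain ⟨b1, b2⟩ := Window.mem_S.mp hp
        have h4 := hW.near_two b1 b2
        rcases h2 with h2 | h2 | h2 | h2 | h2
        · linarith
        · omega
        · omega
        · omega
        · have h5 : p ^ e = 3251 := h2.2.2
          have h6 : p ∣ 3251 := h5 ▸ dvd_pow_self p he0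
          have h7 : Nat.Prime 3251 := by norm_num
          exact hpT.2 ((Nat.prime_dvd_prime_iff_eq b1 h7).mp h6))
      have h2 : ∏ p ∈ ({2, 3251} : Finset ℕ), p = 6502 := by
        rw [Finset.prod_pair (by norm_num)]
        norm_num
      rw [h2] at h1
      have h3 := hW.gg_upper
      have h4 : (t + 1) * (N + 1) + 1 ≤ 2 * (t * N + 1) := by nlinarith
      have h5 : 2 ^ 30 ≤ 2 ^ hW.gg := Nat.pow_le_pow_right (by norm_num) (by omega)
      norm_num at h1 h5
      omega
    · have h1 := hW.u_le {2} (by simp) (by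
        intro p hp hpT
        simp only [Finset.mem_singleton] at hpT
        by_contra hc
        have pr := hprime p hp
        have l3 : 3 ≤ (h p).minFac := by
          have := pr.two_le
          have hne : (h p).minFac ≠ 2 := fun he => hc (he ▸ Nat.minFac_dvd (h p))
          omega
        obtain ⟨e, he⟩ := Nat.minFac_dvd (h p)
        obtain ⟨p3, podd⟩ := hW.odd_p hp hpT
        have he0 : e ≠ 0 := by
          rintro rfl
          have := hpos p hp
          simp at he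
          omega
        have P3 : 3 ≤ p ^ e := p3.trans (Nat.le_self_pow he0 p)
        have h2 := hA0 (hW.gg) (h p).minFac (p ^ e) (by omega) hg pr l3
          (hW.not_dvd_g hp hpT pr (Nat.minFac_dvd _)) P3 podd.pow
        have h3 : (((p ^ e : ℕ) : ℤ)) ^ (h p).minFac = (p : ℤ) ^ h p := by
          push_cast
          rw [← pow_mul, mul_comm, ← he]
        rw [h3] at h2
        obtain ⟨b1, b2⟩ := Window.mem_S.mp hp
        have h4 := hW.near_two b1 b2
        rcases h2 with h2 | h2 | h2 | h2 | h2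
        · linarith
        · omega
        · omega
        · omega
        · omega)
      have h2 : ∏ p ∈ ({2} : Finset ℕ), p = 2 := Finset.prod_singleton _ _
      rw [h2] at h1
      have h3 := hW.gg_upper
      have h4 : (t + 1) * (N + 1) + 1 ≤ 2 * (t * N + 1) := by nlinarith
      have h5 : 2 ^ 9 ≤ 2 ^ hW.gg := Nat.pow_le_pow_right (by norm_num) hg8
      omega
  have hgR : (210 : ℝ) ≤ hW.gg := by exact_mod_cast hg
  have hN200 : 200 ≤ N := by
    have h3 := hW.gg_upper
    have h4 : 2 ^ 16 ≤ 2 ^ hW.gg := Nat.pow_le_pow_right (by norm_num) (by omega)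
    by_contra hc
    push Not at hc
    have h5 : (t + 1) * (N + 1) ≤ 200 * 200 := Nat.mul_le_mul (by omega) (by omega)
    omega
  have a7 := hW.X_le_05 hN200
  rcases le_or_gt (hW.gg) 100000 with hgA | hgA
  · -- middle range
    have hs := hW.sum_minFac (insert 2 ((Ioc 829 63100).filter Nat.Prime)) (fun q => 1 / (q : ℝ))
      (by intro q _; positivity) (by
        intro p hp hp2
        refine ⟨?_, hmf p hp⟩
        have pr := hprime p hp
        by_cases he : (h p).minFac = 2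
        · rw [he]; exact Finset.mem_insert_self _ _
        · have l3 : 3 ≤ (h p).minFac := by have := pr.two_le; omega
          apply Finset.mem_insert_of_mem
          rw [Finset.mem_filter, Finset.mem_Ioc]
          refine ⟨⟨?_, ?_⟩, pr⟩
          · by_contra hc
            push Not at hc
            exact hW.excl hp (Nat.minFac_dvd _) (fun P => hRA1 (hW.gg) _ P hg hgA pr l3 hc
              (hW.not_dvd_g hp hp2 pr (Nat.minFac_dvd _)))
          · refine (Nat.minFac_le (hpos p hp)).trans ?_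
            have c1 := hW.h_le hp hp2
            omega)
    have h2mem : 2 ∉ (Ioc 829 63100).filter Nat.Prime := by simp
    rw [Finset.sum_insert h2mem] at hs
    have e1 : (1 : ℝ) / hW.gg ≤ 1 / 210 := one_div_le_one_div_of_le (by norm_num) hgR
    have e2 : Window.sig t N h ≤ 1 / hW.gg + (1 / 2 + 0.4917) := by
      refine hs.trans ?_
      have : (1 : ℝ) / ((2 : ℕ) : ℝ) = 1 / 2 := by norm_num
      rw [this]
      linarith
    have e3 : (1 / 2 - 0.4917 - 1 / (hW.gg : ℝ)) * (hW.gg * 0.6931) ≤ 0.51 := by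
      have e4 : (0 : ℝ) ≤ 1 / 2 - 0.4917 - 1 / (hW.gg : ℝ) := by linarith
      have e5 : (hW.gg : ℝ) * 0.6931 ≤ Real.log (((t : ℝ) + 1) * (N + 1) + 1) := by nlinarith
      calc (1 / 2 - 0.4917 - 1 / (hW.gg : ℝ)) * (hW.gg * 0.6931)
          ≤ (1 / 2 - 0.4917 - 1 / (hW.gg : ℝ)) * Real.log (((t : ℝ) + 1) * (N + 1) + 1) :=
            mul_le_mul_of_nonneg_left e5 e4
        _ ≤ (1 - Window.sig t N h) * Real.log (((t : ℝ) + 1) * (N + 1) + 1) := by
            apply mul_le_mul_of_nonneg_right _ (by nlinarith)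
            linarith
        _ ≤ _ := a1
        _ ≤ 0.51 := a7
    have e6 : (1 / 2 - 0.4917 - 1 / (hW.gg : ℝ)) * (hW.gg * 0.6931) = 0.6931 * (0.0083 * hW.gg - 1) := by
      field_simp
      ring
    rw [e6] at e3
    linarith
  have hsmall : ∀ p ∈ (t * N + 1).primeFactors, p ≠ 2 → h p < 4096 := by
    intro p hp hp2
    obtain ⟨b1, b2⟩ := Window.mem_S.mp hp
    by_contra hc
    push Not at hc
    have c1 := h2log (hW.gg) (h p) p hgA.le hc (hW.cop_gg b1 b2 hp2).symm b1
      (hW.odd_p hp hp2).1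
    have c2 := hW.near_two b1 b2
    linarith
  rcases le_or_gt (hW.gg) 1000000 with hgB | hgB
  · have hs := hW.sum_minFac (insert 2 ((Ioc 167 4095).filter Nat.Prime)) (fun q => 1 / (q : ℝ))
      (by intro q _; positivity) (by
        intro p hp hp2
        refine ⟨?_, hmf p hp⟩
        have pr := hprime p hp
        by_cases he : (h p).minFac = 2
        · rw [he]; exact Finset.mem_insert_self _ _
        · have l3 : 3 ≤ (h p).minFac := by have := pr.two_le; omega
          apply Finset.mem_insert_of_mem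
          rw [Finset.mem_filter, Finset.mem_Ioc]
          refine ⟨⟨?_, ?_⟩, pr⟩
          · by_contra hc
            push Not at hc
            exact hW.excl hp (Nat.minFac_dvd _) (fun P => hRA2 (hW.gg) _ P hgA.le hgB pr l3 hc
              (hW.not_dvd_g hp hp2 pr (Nat.minFac_dvd _)))
          · have c1 := Nat.minFac_le (hpos p hp)
            have c2 := hsmall p hp hp2
            omega)
    have h2mem : 2 ∉ (Ioc 167 4095).filter Nat.Prime := by simp
    rw [Finset.sum_insert h2mem] at hs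
    have hgR' : (100000 : ℝ) ≤ hW.gg := by exact_mod_cast hgA.le
    have e1 : (1 : ℝ) / hW.gg ≤ 1 / 100000 := one_div_le_one_div_of_le (by norm_num) hgR'
    have e2 : Window.sig t N h ≤ 0.9707 := by
      refine hs.trans ?_
      have : (1 : ℝ) / ((2 : ℕ) : ℝ) = 1 / 2 := by norm_num
      rw [this]
      linarith
    have e3 : (0.0293 : ℝ) * 69310 ≤ (1 - Window.sig t N h) * Real.log (((t : ℝ) + 1) * (N + 1) + 1) :=
      mul_le_mul (by linarith) (by nlinarith) (by norm_num) (by linarith)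
    linarith
  · have hM : 0 < lcr 12 1 := lcr_pos 12 1 (by norm_num)
    have hdv : ∀ p ∈ (t * N + 1).primeFactors, p ≠ 2 → h p ∣ lcr 12 1 := by
      intro p hp hp2
      have c1 := hsmall p hp hp2
      have c2 := hpos p hp
      exact dvd_lcr 12 1 (h p) c2 (by norm_num; omega)
    have h78 : ∀ p ∈ (t * N + 1).primeFactors, 78 ≤ h p := by
      intro p hp
      have c1 := hW.h_ge_of hM lcr_lt hdv hp
      norm_num at c1
      omega
    have hs := hW.sum_minFac ((Ioc 0 4095).filter Nat.Prime) (fun q => 1 / max (q : ℝ) 78)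
      (by intro q _; positivity) (by
        intro p hp hp2
        have pr := hprime p hp
        have c1 := Nat.minFac_le (hpos p hp)
        have c2 := hsmall p hp hp2
        refine ⟨?_, ?_⟩
        · rw [Finset.mem_filter, Finset.mem_Ioc]
          exact ⟨⟨pr.pos, by omega⟩, pr⟩
        · have c3 : max (((h p).minFac : ℕ) : ℝ) 78 ≤ h p :=
            max_le (by exact_mod_cast c1) (by exact_mod_cast h78 p hp)
          exact one_div_le_one_div_of_le (by positivity) c3)
    have hgR' : (1000000 : ℝ) ≤ hW.gg := by exact_mod_cast hgB.le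
    have e1 : (1 : ℝ) / hW.gg ≤ 1 / 1000000 := one_div_le_one_div_of_le (by norm_num) hgR'
    have e2 : Window.sig t N h ≤ 0.8961 := by
      refine hs.trans ?_
      linarith
    have e3 : (0.1 : ℝ) * 693100 ≤ (1 - Window.sig t N h) * Real.log (((t : ℝ) + 1) * (N + 1) + 1) :=
      mul_le_mul (by linarith) (by nlinarith) (by norm_num) (by linarith)
    linarith

end Pool.Agent.CZ
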