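import Mathlib

/-! [CZ-S] upper bounds for sums over primes (kernel computation) -/

set_option autoImplicit false

namespace Pool.Agent.CZ

/-- `∑_{n < 2^k} f (a + n)` by bisection -/
def ds (f : ℕ → ℕ) (k : ℕ) : ℕ → ℕ :=
  Nat.rec (motive := fun _ => ℕ → ℕ) (fun a => f a) (fun k ih a => Nat.add (ih a) (ih (Nat.add a (Nat.pow 2 k)))) k

theorem ds_eq (f : ℕ → ℕ) (k a : ℕ) : ds f k a = ∑ n ∈ Finset.range (2 ^ k), f (a + n) := by
  induction k generalizing a with
  | zero => simp [ds]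
  | succ k ih =>
    have h : ds f (k + 1) a = ds f k a + ds f k (a + 2 ^ k) := rfl
    rw [h, ih, ih, pow_succ, mul_two, Finset.sum_range_add]
    congr 1
    refine Finset.sum_congr rfl fun n _ => ?_
    rw [add_assoc]

/-- the weight of a number without small prime factors -/
def fw (PR b n : ℕ) : ℕ :=
  match Nat.ble n b, Nat.beq (Nat.gcd n PR) 1 with
  | true, true => Nat.add (Nat.div 1000000000000 n) 1
  | _, _ => 0

theorem fw_eq {PR b n : ℕ} (h1 : n ≤ b) (h2 : Nat.Coprime n PR) :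
    fw PR b n = 1000000000000 / n + 1 := by
  unfold fw
  have e1 : Nat.ble n b = true := by rwa [Nat.ble_eq]
  have e2 : Nat.beq (Nat.gcd n PR) 1 = true := by
    rw [h2]
    rfl
  rw [e1, e2]
  rfl

theorem sum_bd (PR N a b k T : ℕ) (hPR : PR ∣ N.factorial) (hNa : N ≤ a) (hb : b < a + 1 + 2 ^ k)
    (hck : Nat.ble (ds (fw PR b) k (a + 1)) T = true) :
    ∑ q ∈ (Finset.Ioc a b).filter Nat.Prime, (1 / (q : ℝ)) ≤ (T : ℝ) / 1000000000000 := by
  have h1 : ds (fw PR b) k (a + 1) ≤ T := by rwa [Nat.ble_eq] at hck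
  rw [ds_eq] at h1
  have h2 : ∑ n ∈ Finset.range (2 ^ k), fw PR b (a + 1 + n) =
      ∑ m ∈ Finset.Ico (a + 1) (a + 1 + 2 ^ k), fw PR b m := by
    rw [Finset.sum_Ico_eq_sum_range, Nat.add_sub_cancel_left]
  rw [h2] at h1
  have h3 : ∀ q ∈ (Finset.Ioc a b).filter Nat.Prime, (1 / (q : ℝ)) ≤
      (fw PR b q : ℝ) / 1000000000000 := by
    intro q hq
    rw [Finset.mem_filter, Finset.mem_Ioc] at hq
    obtain ⟨⟨ha, hqb⟩, hp⟩ := hq
    have hco : Nat.Coprime q PR := by
      refine Nat.Coprime.coprime_dvd_right hPR ?_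
      rw [hp.coprime_iff_not_dvd, hp.dvd_factorial]
      omega
    rw [fw_eq hqb hco]
    have hq0 : (0 : ℝ) < q := by exact_mod_cast hp.pos
    rw [div_le_div_iff₀ hq0 (by norm_num), one_mul]
    have h4 : 1000000000000 < (1000000000000 / q + 1) * q := by
      have h5 := Nat.lt_div_mul_add (a := 1000000000000) hp.pos
      nlinarith
    exact_mod_cast h4.le
  refine le_trans (Finset.sum_le_sum h3) ?_
  rw [← Finset.sum_div]
  refine div_le_div_of_nonneg_right ?_ (by norm_num)
  have h4 : ∑ q ∈ (Finset.Ioc a b).filter Nat.Prime, fw PR b q ≤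
      ∑ m ∈ Finset.Ico (a + 1) (a + 1 + 2 ^ k), fw PR b m := by
    refine Finset.sum_le_sum_of_subset ?_
    intro q hq
    rw [Finset.mem_filter, Finset.mem_Ioc] at hq
    rw [Finset.mem_Ico]
    omega
  exact_mod_cast h4.trans h1

/-- product of the primes up to `251` -/
def PRa : ℕ := 2*3*5*7*11*13*17*19*23*29*31*37*41*43*47*53*59*61*67*71*73*79*83*89*97*101*103*107*109*113*127*131*137*139*149*151*157*163*167*173*179*181*191*193*197*199*211*223*227*229*233*239*241*251

/-- product of the primes up to `61` -/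
def PRb : ℕ := 2*3*5*7*11*13*17*19*23*29*31*37*41*43*47*53*59*61

theorem ck1 : Nat.ble (ds (fw PRa 63100) 16 830) 491700000000 = true := by decide +kernel
theorem ck2 : Nat.ble (ds (fw PRb 4095) 12 168) 470600000000 = true := by decide +kernel
theorem ck3 : Nat.ble (ds (fw PRb 4095) 12 79) 626700000000 = true := by decide +kernel

theorem PRa_dvd : PRa ∣ Nat.factorial 251 := by decide +kernel
theorem PRb_dvd : PRb ∣ Nat.factorial 61 := by decide +kernel

/-- (S), first range -/
theorem S_a : ∑ q ∈ (Finset.Ioc 829 63100).filter Nat.Prime, (1 / (q : ℝ)) ≤ 0.4917 := by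
  have h := sum_bd PRa 251 829 63100 16 491700000000 PRa_dvd (by norm_num) (by norm_num) ck1
  refine h.trans (le_of_eq ?_)
  norm_num

/-- (S), second range -/
theorem S_b : ∑ q ∈ (Finset.Ioc 167 4095).filter Nat.Prime, (1 / (q : ℝ)) ≤ 0.4706 := by
  have h := sum_bd PRb 61 167 4095 12 470600000000 PRb_dvd (by norm_num) (by norm_num) ck2
  refine h.trans (le_of_eq ?_)
  norm_num

theorem S_c0 : ∑ q ∈ (Finset.Ioc 78 4095).filter Nat.Prime, (1 / (q : ℝ)) ≤ 0.6267 := by
  have h := sum_bd PRb 61 78 4095 12 626700000000 PRb_dvd (by norm_num) (by norm_num) ck3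
  refine h.trans (le_of_eq ?_)
  norm_num

theorem S_card : ((Finset.Ioc 0 78).filter Nat.Prime).card = 21 := by decide +kernel

/-- (S), third sum -/
theorem S_c : ∑ q ∈ (Finset.Ioc 0 4095).filter Nat.Prime, (1 / (max (q : ℝ) 78)) ≤ 0.896 := by
  have e : Finset.Ioc 0 4095 = Finset.Ioc 0 78 ∪ Finset.Ioc 78 4095 :=
    (Finset.Ioc_union_Ioc_eq_Ioc (by norm_num) (by norm_num)).symm
  rw [e, Finset.filter_union, Finset.sum_union]
  · have h1 : ∑ q ∈ (Finset.Ioc 0 78).filter Nat.Prime, (1 / (max (q : ℝ) 78)) = 21 / 78 := by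
      have h2 : ∀ q ∈ (Finset.Ioc 0 78).filter Nat.Prime, (1 / (max (q : ℝ) 78)) = 1 / 78 := by
        intro q hq
        rw [Finset.mem_filter, Finset.mem_Ioc] at hq
        rw [max_eq_right (by exact_mod_cast hq.1.2)]
      rw [Finset.sum_congr rfl h2, Finset.sum_const, S_card]
      norm_num
    have h3 : ∑ q ∈ (Finset.Ioc 78 4095).filter Nat.Prime, (1 / (max (q : ℝ) 78)) ≤ 0.6267 := by
      refine le_trans (le_of_eq (Finset.sum_congr rfl fun q hq => ?_)) S_c0
      rw [Finset.mem_filter, Finset.mem_Ioc] at hq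
      rw [max_eq_left (by exact_mod_cast hq.1.1.le)]
    rw [h1]
    refine (add_le_add_right h3 _).trans ?_
    norm_num
  · refine Finset.disjoint_filter_filter ?_
    exact Finset.Ioc_disjoint_Ioc_of_le le_rfl

end Pool.Agent.CZ
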