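import Mathlib
import Pool.Agent.CZ.NoWin
import Pool.Agent.CZ.A0
import Pool.Agent.CZ.S1

set_option autoImplicit false

namespace Pool.Agent.CZ

/-- `no_window` with the small root table and the prime sums filled in: the remaining inputs are the two-logarithm
bound and the two root tables (R_A). -/
theorem no_window_of
    (h2log : ∀ g h p : ℕ, 100000 ≤ g → 4096 ≤ h → Nat.Coprime g h → p.Prime → 3 ≤ p →
      (2 : ℤ) ^ g ≤ ((p : ℤ) ^ h - 2 ^ g) ^ 2)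
    (hRA1 : ∀ g l P : ℕ, 210 ≤ g → g ≤ 100000 → l.Prime → 3 ≤ l → l ≤ 829 → ¬ l ∣ g →
      (2 : ℤ) ^ g ≤ ((P : ℤ) ^ l - 2 ^ g) ^ 2)
    (hRA2 : ∀ g l P : ℕ, 100000 ≤ g → g ≤ 1000000 → l.Prime → 3 ≤ l → l ≤ 167 → ¬ l ∣ g →
      (2 : ℤ) ^ g ≤ ((P : ℤ) ^ l - 2 ^ g) ^ 2)
    (t N : ℕ) (h : ℕ → ℕ) : ¬ Window t N h := by
  refine no_window h2log hRA1 hRA2 ?_ S_c S_b S_a t N h
  intro g l P h1 h2 hl hl3 hd hP3 hP
  exact A0 g l P h1 h2 hl hl3 hd hP hP3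

end Pool.Agent.CZ
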