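import Mathlib
import Pool.Agent.CZ.Win
import Pool.Agent.BX.D2
import Pool.Agent.BY.A6
import Pool.Agent.BY.P5
import Pool.Agent.BY.M5
import Pool.Agent.BY.V1
import Pool.Agent.MP_1e96f1_co.Compl
import Pool.Agent.MP_1e96f1_co.Final

set_option autoImplicit false

namespace Pool.Agent.CZ

open Finset Pool.Agent.BetaL Pool.Agent.MP_1e96f1_co Pool.Agent.BX Pool.Agent.BY

variable {Ω : Type*} [Fintype Ω] [DecidableEq Ω]

/-- arithmetic of the product formula: `(k - t)(w + 1 + t) = 1 + k w` -/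
theorem arith_tN {k w t : ℕ} (ht : 1 ≤ t) (htk : t < k) (hkw : k ≤ w)
    (h : (k - t) * (w + 1 + t) = 1 + k * w) :
    ∃ N, w = (t + 1) * N + 1 ∧ k = t * N + 1 + t ∧ t ≤ N := by
  obtain ⟨u, hu⟩ : ∃ u, k = u + t := ⟨k - t, by omega⟩
  subst hu
  rw [Nat.add_sub_cancel] at h
  have h1 : u * (t + 1) = t * w + 1 := by nlinarith
  obtain ⟨N, hN⟩ : ∃ N, w = (t + 1) * N + 1 := by
    have h2 : (t + 1) * w = u * (t + 1) + (w - 1) := by
      rw [h1]
      have : (t + 1) * w = t * w + w := by ring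
      omega
    have h3 : (t + 1) ∣ (w - 1) := by
      have h4 : (t + 1) ∣ u * (t + 1) + (w - 1) := h2 ▸ Dvd.intro _ rfl
      exact (Nat.dvd_add_right (Dvd.intro_left _ rfl)).mp h4
    obtain ⟨N, hN⟩ := h3
    exact ⟨N, by omega⟩
  refine ⟨N, hN, ?_, ?_⟩
  · have h5 : (t + 1) * u = (t + 1) * (t * N + 1) := by
      calc (t + 1) * u = u * (t + 1) := by ring
        _ = t * w + 1 := h1
        _ = (t + 1) * (t * N + 1) := by rw [hN]; ring
    have h6 := Nat.eq_of_mul_eq_mul_left (Nat.succ_pos t) h5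
    omega
  · have h5 : (t + 1) * u = (t + 1) * (t * N + 1) := by
      calc (t + 1) * u = u * (t + 1) := by ring
        _ = t * w + 1 := h1
        _ = (t + 1) * (t * N + 1) := by rw [hN]; ring
    have h6 := Nat.eq_of_mul_eq_mul_left (Nat.succ_pos t) h5
    have h7 : t * N + 1 + t ≤ (t + 1) * N + 1 := by omega
    have h8 : (t + 1) * N + 1 = t * N + 1 + N := by ring
    omega

/-- The case `(2, 3)`: a counterexample gives a window. -/
theorem setup_window {Bs : Finset (Finset Ω)} {v k d : ℕ} (hD : IsDesign Bs v k d) (hd : 0 < d)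
    (hB : IsBeta Bs v d 2) (hk : k = d + 3) (hv : 2 * k ≤ v) (hn1 : ¬ IsBeta Bs v d 1) :
    ∃ (t N : ℕ) (h : ℕ → ℕ), Window t N h := by
  obtain ⟨hdk, hkv⟩ := design_facts hD
  obtain ⟨w, hw⟩ : ∃ w, w = v - k := ⟨_, rfl⟩
  have hvw : v = k + w := by omega
  have hwk : k ≤ w := by omega
  set L : ℝ := (v : ℝ) - 2 * (k : ℝ) + 1 with hL
  have hLw : L = (w : ℝ) + (0 : ℕ) + 1 - k := by
    rw [hL, hvw]; push_cast; ring
  have hwk' : (k : ℝ) ≤ w := by exact_mod_cast hwk
  have hL0 : 0 ≤ L := by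
    rw [hLw]; push_cast; linarith
  obtain ⟨t, htinj, htb, hz, hstr⟩ := zeros hD (n := 1) hB (by omega) (by omega) (x := (k : ℝ))
    (a := ((0 : ℕ) : ℝ)) (L := L) (by rw [hk]) (by push_cast; ring) hL hL0
  have hprod := prod_formula (x := k) (w := w) (a := 0) (n := 1) (by omega) (by omega) (by omega) htinj
    (fun j => by have := (htb j).2; omega) (by rw [← hLw]; exact hz)
  have hTh : Th k w 0 1 = 1 + k * w := by
    simp [Th, Finset.sum_range_succ]
  rw [hTh] at hprod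
  simp only [Finset.univ_unique, Fin.default_eq_zero, Finset.prod_singleton, pow_zero, one_mul,
    Nat.factorial_one, Nat.add_zero, mul_one] at hprod
  obtain ⟨T, hT⟩ : ∃ T, T = t 0 := ⟨_, rfl⟩
  rw [← hT] at hprod
  have hT1 : 1 ≤ T := hT ▸ (htb 0).1
  have hT2 : T ≤ d + 2 * 1 := hT ▸ (htb 0).2
  have hall : ∀ j : Fin 1, t j = T := fun j => by rw [Subsingleton.elim j 0, hT]
  -- the zero is not `1`
  have hTne : T ≠ 1 := by
    intro h1
    apply hn1
    have hc := hstr (d + 1) (by intro j; rw [hall j]; omega)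
    obtain ⟨S0, -, hS0⟩ := Finset.exists_subset_card_eq (s := (univ : Finset Ω)) (n := d + 1)
      (by rw [Finset.card_univ, hD.card_points]; omega)
    exact beta_one_of_strength hD (L := lam Bs S0) (fun S hS => hc S S0 hS hS0)
  obtain ⟨N, hwN, hkN, hTN⟩ := arith_tN hT1 (by omega) hwk hprod
  have hT3 : 2 ≤ T := by omega
  -- sizes
  have hmul : (T + 1) * (N + 1) + 1 = w + (T + 1) := by rw [hwN]; ring
  have hTT : T * 2 ≤ T * N := Nat.mul_le_mul_left T (by omega)
  have hA2 : 2 * (T + 1) ≤ k := by omega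
  have hwA : w + (T + 1) ≤ 2 * k := by
    have e1 : (T + 1) * N = T * N + N := by ring
    have e2 : 1 * N ≤ T * N := Nat.mul_le_mul_right N hT1
    omega
  have hdvd : ∀ α, T + 1 ≤ α → α ≤ k → Th k w 0 1 ∣ (w + (T + 1)).choose α := by
    intro α h1 h2
    have h3 := th_dvd (n := 1) (a := 0) (t := T) hD hB (by omega) (by omega) (by omega) (by
      intro S S' hS hS'
      refine hstr (d + 2 * 1 - T) ?_ S S' hS hS'
      intro j
      rw [hall j]
      omega) (α := α) (by omega) h2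
    rw [show d + 2 * 1 + 1 = k by omega, ← hw] at h3
    exact h3
  have hpad : ∀ p : ℕ, p.Prime → p ≤ k → p ∣ Th k w 0 1 → ¬ p ^ 2 ∣ Th k w 0 1 ∧
      ∃ g, 2 ≤ g ∧ w + 1 ≤ p ^ g ∧ p ^ g ≤ w + (T + 1) := fun p hp hpk hpd =>
    padic hp hA2 (by omega) hwA hpk hdvd hpd
  have hu : T * N + 1 ∣ Th k w 0 1 := by
    rw [hTh, ← hprod]
    refine Dvd.dvd.mul_right ?_ _
    rw [show k - T = T * N + 1 by omega]
  have hpu : ∀ p : ℕ, p.Prime → p ∣ T * N + 1 → ¬ p ^ 2 ∣ Th k w 0 1 ∧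
      ∃ g, 2 ≤ g ∧ w + 1 ≤ p ^ g ∧ p ^ g ≤ w + (T + 1) := by
    intro p hp hpd
    refine hpad p hp ?_ (hpd.trans hu)
    have := Nat.le_of_dvd (by omega) hpd
    omega
  -- parity
  have hd2 : 2 ∣ d := (div_block (n := 1) hD hB (by omega) (by omega)).1
  have hDc := design_co hD
  have hBc := beta_co hD (i := 2) (by omega) hB
  have hw2 : 2 ∣ v + d - 2 * k := by
    have hBc' : IsBeta (co Bs) v (v + d - 2 * k) (1 + 1) := by
      have : k - d - 2 + 1 = 1 + 1 := by omega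
      rwa [this] at hBc
    exact (div_block (n := 1) hDc hBc' (by omega) (by omega)).1
  have h2Th : 2 ∣ Th k w 0 1 := by
    rw [hTh]
    have ok : Odd k := by
      obtain ⟨c, hc⟩ := hd2
      exact ⟨c + 1, by omega⟩
    have ow : Odd w := by
      obtain ⟨c, hc⟩ := hw2
      exact ⟨c + 1, by omega⟩
    have h1 : Odd (k * w) := ok.mul ow
    have h2 : Even (1 + k * w) := by
      rw [add_comm]; exact h1.add_one
    exact h2.two_dvd
  obtain ⟨-, g2, -, hg2, hg2'⟩ := hpad 2 Nat.prime_two (by omega) h2Th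
  classical
  refine ⟨T, N, fun p => if h : p.Prime ∧ p ∣ T * N + 1 then (hpu p h.1 h.2).2.choose else 0, hT3, hTN, ?_,
    ⟨g2, by omega, by omega⟩, ?_, ?_⟩
  · rw [Nat.squarefree_iff_prime_squarefree]
    intro p hp hpp
    exact (hpu p hp ((Dvd.intro _ rfl).trans hpp)).1 (by rw [sq]; exact hpp.trans hu)
  · intro p hp hpd
    have h1 := (hpu p hp hpd).2.choose_spec
    simp only [hp, hpd, and_self, dif_pos]
    omega
  · intro p hp hpd
    have h1 := (hpu p hp hpd).2.choose_spec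
    simp only [hp, hpd, and_self, dif_pos]
    omega

end Pool.Agent.CZ
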