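import Mathlib

set_option autoImplicit false

namespace Pool.Agent.CZ

open Finset Polynomial

private theorem l1_coeff_prod {ι : Type} (s : Finset ι) (f : ι → ℚ[X]) (d : ι → ℕ)
    (h : ∀ i ∈ s, (f i).natDegree ≤ d i) :
    (∏ i ∈ s, f i).natDegree ≤ ∑ i ∈ s, d i ∧
      (∏ i ∈ s, f i).coeff (∑ i ∈ s, d i) = ∏ i ∈ s, (f i).coeff (d i) := by
  classical
  induction s using Finset.induction_on with
  | empty => simp
  | insert a s ha ih =>
    have h1 := ih fun i hi => h i (Finset.mem_insert_of_mem hi)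
    have h2 := h a (Finset.mem_insert_self a s)
    rw [Finset.prod_insert ha, Finset.sum_insert ha, Finset.prod_insert ha]
    refine ⟨natDegree_mul_le.trans (add_le_add h2 h1.1), ?_⟩
    rw [coeff_mul_add_eq_of_natDegree_le h2 h1.1, h1.2]

private theorem l1_comp (P : ℚ[X]) (a c : ℚ) :
    (P.comp (X + C a) * C c).natDegree ≤ P.natDegree ∧
      (P.comp (X + C a) * C c).coeff P.natDegree = P.leadingCoeff * c := by
  have h1 : (P.comp (X + C a)).natDegree = P.natDegree := by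
    rw [natDegree_comp, natDegree_X_add_C, mul_one]
  refine ⟨(natDegree_mul_C_le _ _).trans h1.le, ?_⟩
  rw [coeff_mul_C]
  congr 1
  have h2 : (P.comp (X + C a)).coeff P.natDegree = (P.comp (X + C a)).leadingCoeff := by
    rw [leadingCoeff, h1]
  rw [h2, leadingCoeff_comp (by rw [natDegree_X_add_C]; exact one_ne_zero), leadingCoeff_X_add_C,
    one_pow, mul_one]

private theorem l1_det {m : ℕ} (b h : ℕ) (Q : Fin m → ℚ[X]) (ex : Fin m → ℕ)
    (hb : 2 ≤ b) (hex : Function.Injective ex) (hQ : ∀ j, Q j ≠ 0) :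
    (Matrix.of fun i j : Fin m => (Q j).comp (X + C ((h : ℚ) * ((i : ℕ) : ℚ))) *
        C ((b : ℚ) ^ ((i : ℕ) * ex j))).det ≠ 0 ∧
      (Matrix.of fun i j : Fin m => (Q j).comp (X + C ((h : ℚ) * ((i : ℕ) : ℚ))) *
        C ((b : ℚ) ^ ((i : ℕ) * ex j))).det.natDegree ≤ ∑ j, (Q j).natDegree := by
  classical
  have hterm : ∀ σ : Equiv.Perm (Fin m),
      (∏ j, ((Q j).comp (X + C ((h : ℚ) * (((σ j : Fin m) : ℕ) : ℚ))) *
        C ((b : ℚ) ^ (((σ j : Fin m) : ℕ) * ex j)))).natDegree ≤ ∑ j, (Q j).natDegree ∧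
      (∏ j, ((Q j).comp (X + C ((h : ℚ) * (((σ j : Fin m) : ℕ) : ℚ))) *
        C ((b : ℚ) ^ (((σ j : Fin m) : ℕ) * ex j)))).coeff (∑ j, (Q j).natDegree) =
        ∏ j, ((Q j).leadingCoeff * (b : ℚ) ^ (((σ j : Fin m) : ℕ) * ex j)) := by
    intro σ
    have h1 := l1_coeff_prod Finset.univ (fun j => (Q j).comp (X + C ((h : ℚ) * (((σ j : Fin m) : ℕ) : ℚ))) *
        C ((b : ℚ) ^ (((σ j : Fin m) : ℕ) * ex j))) (fun j => (Q j).natDegree)
        (fun j _ => (l1_comp _ _ _).1)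
    refine ⟨h1.1, h1.2.trans ?_⟩
    exact Finset.prod_congr rfl fun j _ => (l1_comp _ _ _).2
  have hcoef : (Matrix.of fun i j : Fin m => (Q j).comp (X + C ((h : ℚ) * ((i : ℕ) : ℚ))) *
        C ((b : ℚ) ^ ((i : ℕ) * ex j))).det.coeff (∑ j, (Q j).natDegree) =
      (∏ j, (Q j).leadingCoeff) * (Matrix.vandermonde fun j : Fin m => (b : ℚ) ^ ex j).det := by
    rw [← Matrix.det_transpose (Matrix.vandermonde _), Matrix.det_apply', Matrix.det_apply',
      finsetSum_coeff, Finset.mul_sum]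
    refine Finset.sum_congr rfl fun σ _ => ?_
    have e1 : (((Equiv.Perm.sign σ : ℤˣ) : ℤ) : ℚ[X]) = C (((Equiv.Perm.sign σ : ℤˣ) : ℤ) : ℚ) := by
      simp
    rw [e1, coeff_C_mul]
    have e2 := (hterm σ).2
    simp only [Matrix.of_apply]
    rw [e2, Finset.prod_mul_distrib]
    simp only [Matrix.transpose_apply, Matrix.vandermonde_apply]
    have e3 : ∀ j : Fin m, ((b : ℚ) ^ ex j) ^ ((σ j : Fin m) : ℕ) =
        (b : ℚ) ^ (((σ j : Fin m) : ℕ) * ex j) := fun j => by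
      rw [← pow_mul, mul_comm]
    simp only [e3]
    ring
  constructor
  · intro h0
    rw [h0, coeff_zero] at hcoef
    have h1 : (∏ j, (Q j).leadingCoeff) ≠ 0 :=
      Finset.prod_ne_zero_iff.2 fun j _ => leadingCoeff_ne_zero.2 (hQ j)
    have h2 : (Matrix.vandermonde fun j : Fin m => (b : ℚ) ^ ex j).det ≠ 0 := by
      rw [Matrix.det_vandermonde_ne_zero_iff]
      intro i j hij
      apply hex
      simp only at hij
      have h3 : b ^ ex i = b ^ ex j := by exact_mod_cast hij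
      exact Nat.pow_right_injective hb h3
    exact mul_ne_zero h1 h2 hcoef.symm
  · rw [Matrix.det_apply']
    refine natDegree_sum_le_of_forall_le _ _ fun σ _ => ?_
    have e1 : (((Equiv.Perm.sign σ : ℤˣ) : ℤ) : ℚ[X]) = C (((Equiv.Perm.sign σ : ℤˣ) : ℤ) : ℚ) := by
      simp
    rw [e1]
    refine (natDegree_C_mul_le _ _).trans ?_
    exact (hterm σ).1

/-- **Zero estimate.** (project CZ, row L1; `b`, `p` numbers, `g`, `h` coprime)

Proof. Suppose `F r s := ∑ l, (P l).eval (h r + g s) * (b^r p^s)^l` vanishes for all `r < R2 + L - 1`, `s < S`.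
Let `I = {l | P l ≠ 0}` (nonempty), `m = #I ≤ L`, `l_0 < ... < l_{m-1}` its elements (`I.orderEmbOfFin` or
`Finset.equivFin`; order is not needed).
For `r < R2`, `s < S`, `i < m` (so `r + i < R2 + L - 1`), with `ζ = h r + g s` and `X = b^r p^s`:
`0 = F (r+i) s = ∑_{l ∈ I} (P l).eval (ζ + h i) * b^(i l) * X^l`.
So the `m × m` matrix `M(ζ) = ((P l).eval (ζ + h i) * b^(i l))_{i, l ∈ I}` kills the nonzero vector `(X^l)_{l ∈ I}`
(`X ≠ 0`), hence `det M(ζ) = 0` (`Matrix.exists_mulVec_eq_zero_iff`).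
`det M(ζ)` is the value at `ζ` of the polynomial `D = det ((P l).comp (X + C (h i)) * C (b^(i l)))_{i, l}`. Its
coefficient at `n = ∑_{l ∈ I} (P l).natDegree` is `∏_{l ∈ I} (P l).leadingCoeff * det (b^(i l))_{i,l} ≠ 0`: expand
`D = ∑_σ sign σ ∏_i ...`; every product has degree `≤ n` and coefficient at `n` equal to
`∏ (leadingCoeff) * ∏_i b^(i * l_{σ i})` (`Polynomial.coeff_prod_of_natDegree_le`, `natDegree_comp`,
`leadingCoeff_comp`, note that `X + C a` is monic of degree one); and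
`(b^(i l))_{i,l} = ((b^l)^i)` is a (transposed) Vandermonde matrix with the distinct nodes `b^l`, `l ∈ I`
(`Matrix.det_vandermonde_ne_zero_iff`, `b ≥ 2`). So `D ≠ 0` and `D.natDegree ≤ n ≤ m (K-1) ≤ L (K - 1)`.
But `D` vanishes at the `R2 * S > L (K-1)` numbers `h r + g s`, `r < R2`, `s < S`, which are distinct:
`h r + g s = h r' + g s'` gives `h ∣ g (s - s')`, so `h ∣ s - s'`, `|s - s'| < S ≤ h`, `s = s'`, `r = r'` (`h ≥ 1`
as `S ≥ 1`). Contradiction (`Polynomial.card_roots'` or `Polynomial.eq_zero_of_natDegree_lt_card_of_eval_eq_zero'`). -/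
theorem zero_est {b p g h R2 S L K : ℕ} (hb : 2 ≤ b) (hp : 1 ≤ p) (hgh : Nat.Coprime g h) (hS : S ≤ h)
    (hRS : (K - 1) * L < R2 * S) (P : Fin L → ℚ[X]) (hdeg : ∀ l, (P l).natDegree ≤ K - 1) (hP : P ≠ 0) :
    ∃ r s : ℕ, r < R2 + L - 1 ∧ s < S ∧
      ∑ l : Fin L, (P l).eval ((h * r + g * s : ℕ) : ℚ) * ((b : ℚ) ^ r * (p : ℚ) ^ s) ^ (l : ℕ) ≠ 0 := by
  classical
  by_contra hcon
  push Not at hcon
  set I : Finset (Fin L) := Finset.univ.filter fun l => P l ≠ 0 with hI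
  set e : Fin I.card → Fin L := fun j => I.orderEmbOfFin rfl j with he
  have heI : ∀ j, e j ∈ I := fun j => I.orderEmbOfFin_mem rfl j
  have heinj : Function.Injective e := (I.orderEmbOfFin rfl).injective
  have hsumI : ∀ F : Fin L → ℚ, (∀ l, P l = 0 → F l = 0) → ∑ j, F (e j) = ∑ l, F l := by
    intro F hF
    have h1 : ∑ l, F l = ∑ l ∈ I, F l := by
      symm
      refine Finset.sum_subset (Finset.subset_univ _) fun l _ hl => ?_
      refine hF l ?_
      by_contra h2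
      exact hl (Finset.mem_filter.2 ⟨Finset.mem_univ _, h2⟩)
    have h2 : Finset.univ.image e = I := by
      ext l
      rw [Finset.mem_image]
      have h3 := I.range_orderEmbOfFin rfl
      constructor
      · rintro ⟨j, -, rfl⟩
        exact heI j
      · intro hl
        have h4 : l ∈ Set.range (I.orderEmbOfFin rfl) := by
          rw [h3]
          exact hl
        obtain ⟨j, hj⟩ := h4
        exact ⟨j, Finset.mem_univ _, hj⟩
    have h5 : ∑ l ∈ Finset.univ.image e, F l = ∑ j, F (e j) :=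
      Finset.sum_image fun a _ b _ hab => heinj hab
    rw [h1, ← h5, h2]
  obtain ⟨hD0, hDdeg⟩ := l1_det b h (fun j => P (e j)) (fun j => ((e j : Fin L) : ℕ)) hb
    (fun i j hij => heinj (Fin.ext hij)) (fun j => (Finset.mem_filter.1 (heI j)).2)
  set D := (Matrix.of fun i j : Fin I.card => (P (e j)).comp (X + C ((h : ℚ) * ((i : ℕ) : ℚ))) *
        C ((b : ℚ) ^ ((i : ℕ) * ((e j : Fin L) : ℕ)))).det with hD
  have hIL : I.card ≤ L := by
    refine (Finset.card_le_univ I).trans ?_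
    rw [Fintype.card_fin]
  have hdegD : D.natDegree ≤ (K - 1) * L := by
    refine hDdeg.trans ?_
    calc ∑ j, (P (e j)).natDegree ≤ ∑ _j : Fin I.card, (K - 1) := Finset.sum_le_sum fun j _ => hdeg _
      _ = I.card * (K - 1) := by rw [Finset.sum_const, Finset.card_univ, Fintype.card_fin, smul_eq_mul]
      _ ≤ (K - 1) * L := by
          rw [mul_comm]
          exact Nat.mul_le_mul_left _ hIL
  have hIpos : 0 < I.card := by
    rw [Finset.card_pos]
    by_contra hne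
    rw [Finset.not_nonempty_iff_eq_empty] at hne
    apply hP
    funext l
    by_contra h2
    have h3 : l ∈ I := Finset.mem_filter.2 ⟨Finset.mem_univ _, h2⟩
    rw [hne] at h3
    exact absurd h3 (Finset.notMem_empty l)
  have hroot : ∀ q : Fin R2 × Fin S, D.eval ((h * (q.1 : ℕ) + g * (q.2 : ℕ) : ℕ) : ℚ) = 0 := by
    rintro ⟨r, s⟩
    simp only
    have h1 : D.eval ((h * (r : ℕ) + g * (s : ℕ) : ℕ) : ℚ) =
        ((evalRingHom ((h * (r : ℕ) + g * (s : ℕ) : ℕ) : ℚ)).mapMatrix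
          (Matrix.of fun i j : Fin I.card => (P (e j)).comp (X + C ((h : ℚ) * ((i : ℕ) : ℚ))) *
        C ((b : ℚ) ^ ((i : ℕ) * ((e j : Fin L) : ℕ))))).det := by
      rw [hD, ← RingHom.map_det]
      rfl
    rw [h1, ← Matrix.exists_mulVec_eq_zero_iff]
    refine ⟨fun j => ((b : ℚ) ^ (r : ℕ) * (p : ℚ) ^ (s : ℕ)) ^ ((e j : Fin L) : ℕ), ?_, ?_⟩
    · intro h0
      have h2 := congrFun h0 ⟨0, hIpos⟩
      simp only [Pi.zero_apply] at h2
      have hb0 : (b : ℚ) ≠ 0 := by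
        have : b ≠ 0 := by omega
        exact_mod_cast this
      have hp0 : (p : ℚ) ≠ 0 := by
        have : p ≠ 0 := by omega
        exact_mod_cast this
      exact absurd h2 (pow_ne_zero _ (mul_ne_zero (pow_ne_zero _ hb0) (pow_ne_zero _ hp0)))
    · funext i
      rw [Pi.zero_apply]
      have hi : (r : ℕ) + (i : ℕ) < R2 + L - 1 := by
        have h3 := r.isLt
        have h4 := i.isLt
        omega
      have h5 := hcon ((r : ℕ) + (i : ℕ)) s hi s.isLt
      rw [← h5]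
      rw [← hsumI (fun l => (P l).eval ((h * ((r : ℕ) + (i : ℕ)) + g * (s : ℕ) : ℕ) : ℚ) *
        ((b : ℚ) ^ ((r : ℕ) + (i : ℕ)) * (p : ℚ) ^ (s : ℕ)) ^ (l : ℕ)) (fun l hl => by simp [hl])]
      unfold Matrix.mulVec dotProduct
      refine Finset.sum_congr rfl fun j _ => ?_
      simp only [RingHom.mapMatrix_apply, Matrix.map_apply, Matrix.of_apply, coe_evalRingHom, eval_mul,
        eval_comp, eval_add, eval_X, eval_C]
      have e1 : ((h * (r : ℕ) + g * (s : ℕ) : ℕ) : ℚ) + (h : ℚ) * ((i : ℕ) : ℚ) =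
          ((h * ((r : ℕ) + (i : ℕ)) + g * (s : ℕ) : ℕ) : ℚ) := by
        push_cast
        ring
      rw [e1, pow_add (b : ℚ), pow_mul (b : ℚ)]
      ring
  have hinj : Function.Injective fun q : Fin R2 × Fin S => ((h * (q.1 : ℕ) + g * (q.2 : ℕ) : ℕ) : ℚ) := by
    rintro ⟨r, s⟩ ⟨r', s'⟩ hq
    simp only at hq
    have h1 : h * (r : ℕ) + g * (s : ℕ) = h * (r' : ℕ) + g * (s' : ℕ) := by exact_mod_cast hq
    have h2 : g * (s : ℕ) ≡ g * (s' : ℕ) [MOD h] := by
      have h3 : h * (r : ℕ) + g * (s : ℕ) ≡ g * (s : ℕ) [MOD h] := by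
        simp [Nat.ModEq]
      have h4 : h * (r' : ℕ) + g * (s' : ℕ) ≡ g * (s' : ℕ) [MOD h] := by
        simp [Nat.ModEq]
      rw [h1] at h3
      exact h3.symm.trans h4
    have h3 : (s : ℕ) ≡ (s' : ℕ) [MOD h] := Nat.ModEq.cancel_left_of_coprime hgh.symm h2
    have h4 : (s : ℕ) = (s' : ℕ) := Nat.ModEq.eq_of_lt_of_lt h3 (s.isLt.trans_le hS) (s'.isLt.trans_le hS)
    rw [h4] at h1
    have h5 : h * (r : ℕ) = h * (r' : ℕ) := by omega
    have h6 : 0 < h := by
      have := s.isLt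
      omega
    have h7 : (r : ℕ) = (r' : ℕ) := Nat.eq_of_mul_eq_mul_left h6 h5
    exact Prod.ext (Fin.ext h7) (Fin.ext h4)
  refine hD0 (eq_zero_of_natDegree_lt_card_of_eval_eq_zero D hinj hroot ?_)
  rw [Fintype.card_prod, Fintype.card_fin, Fintype.card_fin]
  omega

end Pool.Agent.CZ
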