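import Mathlib

set_option autoImplicit false

namespace Pool.Agent.CZ

/-- entry of the interpolation matrix: row = point `pt j = (r, s)`, column `c = (k, l)`:
`C(h r + g s, k) * (b^r p^s)^l` -/
def ent (b p g h : ℕ) {K L : ℕ} (pt : Fin K × Fin L → ℕ × ℕ) (j c : Fin K × Fin L) : ℤ :=
  (((h * (pt j).1 + g * (pt j).2).choose (c.1 : ℕ) : ℕ) : ℤ) *
    ((b : ℤ) ^ (pt j).1 * (p : ℤ) ^ (pt j).2) ^ (c.2 : ℕ)

end Pool.Agent.CZ
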