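import Mathlib
import Pool.Agent.CZ.LDefs
import Pool.Agent.CZ.L1

set_option autoImplicit false

namespace Pool.Agent.CZ

open Finset Polynomial

/-- the vector of the point `q` -/
private noncomputable def vq (b p g h : ℕ) (K L : ℕ) (q : ℕ × ℕ) (c : Fin K × Fin L) : ℚ :=
  (((h * q.1 + g * q.2).choose (c.1 : ℕ) : ℕ) : ℚ) * ((b : ℚ) ^ q.1 * (p : ℚ) ^ q.2) ^ (c.2 : ℕ)

/-- the polynomial of the column block `l` -/
private noncomputable def pl {K L : ℕ} (a : Fin K × Fin L → ℚ) (l : Fin L) : ℚ[X] :=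
  ∑ k : Fin K, C (a (k, l) * ((Nat.factorial (k : ℕ) : ℕ) : ℚ)⁻¹) * descPochhammer ℚ (k : ℕ)

private theorem pl_eval {K L : ℕ} (a : Fin K × Fin L → ℚ) (l : Fin L) (n : ℕ) :
    (pl a l).eval (n : ℚ) = ∑ k : Fin K, a (k, l) * ((n.choose (k : ℕ) : ℕ) : ℚ) := by
  unfold pl
  rw [eval_finsetSum]
  refine Finset.sum_congr rfl fun k _ => ?_
  rw [eval_mul, eval_C, descPochhammer_eval_eq_descFactorial, Nat.descFactorial_eq_factorial_mul_choose]
  have hk : ((Nat.factorial (k : ℕ) : ℕ) : ℚ) ≠ 0 := by exact_mod_cast Nat.factorial_ne_zero _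
  push_cast
  field_simp

private theorem pl_deg {K L : ℕ} (a : Fin K × Fin L → ℚ) (l : Fin L) :
    (pl a l).natDegree ≤ K - 1 := by
  unfold pl
  refine natDegree_sum_le_of_forall_le _ _ fun k _ => ?_
  refine (natDegree_C_mul_le _ _).trans ?_
  rw [descPochhammer_natDegree]
  have := k.2
  omega

private theorem pl_zero {K L : ℕ} (a : Fin K × Fin L → ℚ) (h : pl a = 0) : a = 0 := by
  have h1 : ∀ (l : Fin L) (n : ℕ), ∑ k : Fin K, a (k, l) * ((n.choose (k : ℕ) : ℕ) : ℚ) = 0 := by
    intro l n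
    rw [← pl_eval, h]
    simp
  have h2 : ∀ (l : Fin L) (n : ℕ) (hn : n < K), a (⟨n, hn⟩, l) = 0 := by
    intro l n
    induction n using Nat.strong_induction_on with
    | _ n ih =>
      intro hn
      have h3 := h1 l n
      rw [Finset.sum_eq_single (⟨n, hn⟩ : Fin K)] at h3
      · rw [Nat.choose_self, Nat.cast_one, mul_one] at h3
        exact h3
      · intro k _ hk
        by_cases hkn : (k : ℕ) < n
        · have := ih k hkn k.2
          rw [show (⟨(k : ℕ), k.2⟩ : Fin K) = k from rfl] at this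
          rw [this, zero_mul]
        · have hne : (k : ℕ) ≠ n := fun e => hk (Fin.ext e)
          rw [Nat.choose_eq_zero_of_lt (by omega), Nat.cast_zero, mul_zero]
      · intro hh
        exact absurd (Finset.mem_univ _) hh
  funext c
  exact h2 c.2 c.1 c.1.2

private theorem vq_span {b p g h R2 S L K : ℕ} (hb : 2 ≤ b) (hp : 1 ≤ p) (hgh : Nat.Coprime g h)
    (hS : S ≤ h) (hRS : (K - 1) * L < R2 * S) :
    Submodule.span ℚ (vq b p g h K L '' {q | q.1 < R2 + L - 1 ∧ q.2 < S}) = ⊤ := by
  classical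
  by_contra hne
  obtain ⟨f, hf0, hf⟩ := Submodule.exists_le_ker_of_lt_top _ (lt_top_iff_ne_top.2 hne)
  set a : Fin K × Fin L → ℚ := fun c => f (fun j => if c = j then 1 else 0) with ha
  have hfa : ∀ x : Fin K × Fin L → ℚ, f x = ∑ c, x c * a c := by
    intro x
    rw [LinearMap.pi_apply_eq_sum_univ f x]
    rfl
  have hpl : pl a ≠ 0 := by
    intro h0
    apply hf0
    have h1 := pl_zero a h0
    ext x
    rw [LinearMap.comp_apply, hfa, h1]
    simp
  obtain ⟨r, s, hr, hs, hrs⟩ := zero_est hb hp hgh hS hRS (pl a) (pl_deg a) hpl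
  apply hrs
  have h2 : f (vq b p g h K L (r, s)) = 0 :=
    LinearMap.mem_ker.1 (hf (Submodule.subset_span ⟨(r, s), ⟨hr, hs⟩, rfl⟩))
  rw [hfa, Fintype.sum_prod_type_right] at h2
  rw [← h2]
  refine Finset.sum_congr rfl fun l _ => ?_
  rw [pl_eval, Finset.sum_mul]
  refine Finset.sum_congr rfl fun k _ => ?_
  unfold vq
  ring

/-- **Points with a nonzero determinant.** (project CZ, row L2; uses `zero_est` of `L1`)

Proof. Let `G = (range (R2 + L - 1)) ×ˢ (range S)` and, for `q = (r,s) ∈ G`, let `v_q : Fin K × Fin L → ℚ`,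
`v_q c = C(h r + g s, c.1) * (b^r p^s)^c.2`. Claim: the vectors `v_q` span `ℚ^(Fin K × Fin L)`. Otherwise there is a
nonzero linear functional `a` with `∑_c a c * v_q c = 0` for all `q` (`Submodule.exists_le_ker_of_lt_top`, or the
matrix `A = (v_q c)` has `A.mulVec a = 0`). Put `P l = ∑_k a (k,l) • ((k! : ℚ)⁻¹ • descPochhammer ℚ k)` (degree
`≤ K - 1`, value at a natural number `n` is `∑_k a (k,l) C(n,k)`: `descPochhammer_eval_eq_descFactorial`,
`Nat.descFactorial_eq_factorial_mul_choose`). `P ≠ 0`, because the polynomials `descPochhammer ℚ k`, `k < K`, are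
linearly independent (degrees `k`; or: if `P l = 0` then `∑_k a (k,l) C(n,k) = 0` for `n = 0, 1, ..., K-1`, and by
induction on `n` all `a (n,l) = 0`). `zero_est` gives a point of `G` with `∑_c a c * v_q c ≠ 0`, a contradiction.
Since the `v_q` span, some `N = #(Fin K × Fin L)` of them form a basis (`exists_linearIndependent`,
`Submodule.exists_fun_fin_finrank_span_eq` or `exists_linearIndependent_extension`...), which gives an injective
`pt : Fin K × Fin L → ℕ × ℕ` with linearly independent rows, i.e. with nonzero determinant over `ℚ`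
(`Matrix.linearIndependent_rows_iff_isUnit`); the determinant over `ℤ` maps to it (`Int.cast` ring map,
`RingHom.map_det`), so it is nonzero. -/
theorem exists_points {b p g h R2 S L K : ℕ} (hb : 2 ≤ b) (hp : 1 ≤ p) (hgh : Nat.Coprime g h) (hS : S ≤ h)
    (hK : 1 ≤ K) (hL : 1 ≤ L) (hRS : (K - 1) * L < R2 * S) :
    ∃ pt : Fin K × Fin L → ℕ × ℕ, Function.Injective pt ∧
      (∀ j, (pt j).1 < R2 + L - 1 ∧ (pt j).2 < S) ∧ (Matrix.of (ent b p g h pt)).det ≠ 0 := by
  classical
  have hspan := vq_span (K := K) hb hp hgh hS hRS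
  obtain ⟨f, hf1, _, hf3⟩ := Submodule.exists_fun_fin_finrank_span_eq ℚ
    (vq b p g h K L '' {q | q.1 < R2 + L - 1 ∧ q.2 < S})
  have hcard : Module.finrank ℚ (Submodule.span ℚ
      (vq b p g h K L '' {q | q.1 < R2 + L - 1 ∧ q.2 < S})) = Fintype.card (Fin K × Fin L) := by
    rw [hspan, finrank_top, Module.finrank_fintype_fun_eq_card]
  let e : Fin K × Fin L ≃ Fin (Module.finrank ℚ (Submodule.span ℚ
      (vq b p g h K L '' {q | q.1 < R2 + L - 1 ∧ q.2 < S}))) :=
    (Fintype.equivFin _).trans (finCongr hcard.symm)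
  choose pt hpt hv using fun j => hf1 (e j)
  have hli : LinearIndependent ℚ fun j => vq b p g h K L (pt j) := by
    have h1 := hf3.comp e e.injective
    have h2 : (f ∘ e) = fun j => vq b p g h K L (pt j) := by
      funext j
      exact (hv j).symm
    rwa [h2] at h1
  refine ⟨pt, ?_, hpt, ?_⟩
  · intro i j hij
    apply hli.injective
    simp only [hij]
  · intro h0
    have h1 : IsUnit (Matrix.of fun j => vq b p g h K L (pt j)) :=
      Matrix.linearIndependent_rows_iff_isUnit.1 hli
    have h2 := ((Matrix.isUnit_iff_isUnit_det _).1 h1).ne_zero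
    apply h2
    have h3 : (Matrix.of fun j => vq b p g h K L (pt j)) =
        (Int.castRingHom ℚ).mapMatrix (Matrix.of (ent b p g h pt)) := by
      ext j c
      simp only [Matrix.of_apply, RingHom.mapMatrix_apply, Matrix.map_apply, vq, ent, map_mul,
        map_pow, eq_intCast, Int.cast_natCast]
    rw [h3, ← RingHom.map_det, h0, map_zero]

end Pool.Agent.CZ
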