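import Mathlib

set_option autoImplicit false

namespace Pool.Agent.CZ

open Finset

private theorem L5_sum (S : Finset ℕ) : S.card * (S.card - 1) ≤ 2 * ∑ n ∈ S, n := by
  induction S using Finset.induction_on_max with
  | empty => simp
  | insert a s ha ih =>
    have hnot : a ∉ s := fun h => lt_irrefl _ (ha a h)
    rw [card_insert_of_notMem hnot, sum_insert hnot]
    have hle : s.card ≤ a := by
      have h1 : s ⊆ range a := fun x hx => mem_range.2 (ha x hx)
      simpa using card_le_card h1
    generalize s.card = k at ih hle ⊢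
    generalize ∑ n ∈ s, n = t at ih ⊢
    rcases k with _ | m
    · simp
    · have e1 : (m + 1 + 1) * (m + 1 + 1 - 1) = (m + 1) * (m + 1 - 1) + 2 * (m + 1) := by
        rw [Nat.add_sub_cancel, Nat.add_sub_cancel]
        ring
      rw [e1]
      linarith

private theorem L5_arith (m k t : ℕ) (h : k * (k - 1) ≤ 2 * t) :
    (m + k) * (m + k - 1) ≤ 2 * (m * (m + k - 1) + t) := by
  rcases m with _ | m
  · simpa using h
  · rcases k with _ | k
    · have e1 : m + 1 + 0 - 1 = m := by omega
      rw [e1]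
      nlinarith
    · have e1 : m + 1 + (k + 1) - 1 = m + (k + 1) := by omega
      rw [e1]
      rw [Nat.add_sub_cancel] at h
      nlinarith

private theorem L5_card {ι : Type*} [Fintype ι] [DecidableEq ι] {D : ℕ} (f : ι → Option (Fin D))
    (hf : ∀ i j n, f i = some n → f j = some n → i = j) :
    Fintype.card ι * (Fintype.card ι - 1) / 2 ≤
      ∑ j, (f j).elim (Fintype.card ι - 1) (fun n => (n : ℕ)) := by
  classical
  apply Nat.div_le_of_le_mul
  set N := Fintype.card ι with hN
  set J := univ.filter fun j => f j = none with hJ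
  set K := univ.filter fun j => ¬ f j = none with hK
  have h1 : J.card + K.card = N := by
    rw [hN, ← card_univ]
    exact Finset.card_filter_add_card_filter_not (s := univ) (fun j => f j = none)
  have h2 : ∑ j, (f j).elim (N - 1) (fun n => (n : ℕ)) =
      ∑ j ∈ J, (f j).elim (N - 1) (fun n => (n : ℕ)) +
        ∑ j ∈ K, (f j).elim (N - 1) (fun n => (n : ℕ)) :=
    (sum_filter_add_sum_filter_not univ (fun j => f j = none) _).symm
  have h3 : ∑ j ∈ J, (f j).elim (N - 1) (fun n => (n : ℕ)) = J.card * (N - 1) := by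
    rw [sum_congr rfl (g := fun _ => N - 1), sum_const, smul_eq_mul]
    intro j hj
    rw [(mem_filter.1 hj).2]
    rfl
  have hinj : Set.InjOn (fun j => (f j).elim (N - 1) (fun n => (n : ℕ))) (K : Set ι) := by
    intro i hi j hj hij
    have hi' := (mem_filter.1 hi).2
    have hj' := (mem_filter.1 hj).2
    obtain ⟨n, hn⟩ := Option.ne_none_iff_exists'.1 hi'
    obtain ⟨n', hn'⟩ := Option.ne_none_iff_exists'.1 hj'
    have e : ((n : ℕ)) = (n' : ℕ) := by
      have := hij
      simp only [hn, hn', Option.elim_some] at this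
      exact this
    have e2 : n = n' := Fin.ext e
    exact hf i j n hn (by rw [hn', e2])
  have h4 := L5_sum (K.image fun j => (f j).elim (N - 1) (fun n => (n : ℕ)))
  rw [card_image_of_injOn hinj, sum_image hinj] at h4
  have h5 := L5_arith J.card K.card _ h4
  rw [h1] at h5
  rw [h2, h3]
  exact h5

private theorem L5_leib {ι : Type*} [Fintype ι] [DecidableEq ι] (M : Matrix ι ι ℝ) :
    |M.det| ≤ ∑ σ : Equiv.Perm ι, ∏ j, |M j (σ j)| := by
  rw [← Matrix.det_transpose, Matrix.det_apply']
  refine (abs_sum_le_sum_abs _ _).trans (sum_le_sum fun σ _ => ?_)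
  rw [abs_mul, abs_prod]
  have h1 : |(((Equiv.Perm.sign σ : ℤˣ) : ℤ) : ℝ)| = 1 := by
    rcases Int.units_eq_one_or (Equiv.Perm.sign σ) with h | h <;> simp [h]
  rw [h1, one_mul]
  exact le_rfl

/-- **Interpolation determinant bound (finite series and an error term).** (project CZ, row L5)

Proof. Let `N = #ι`. The determinant is multilinear in the rows (`Matrix.detRowAlternating` or
`MultilinearMap.map_sum_finset`/`map_add_univ`): row `j` is `∑_{n<D} x_j^n • (c · n) + E j ·`. Expand first over the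
set `J ⊆ ι` of rows in which the error part `E j ·` is taken (`MultilinearMap.map_add_univ`: `2^N` sets), then the
other rows over `n_j < D`. For given `J` and `n : ι → ℕ` (irrelevant on `J`) the determinant with rows `c · (n_j)`,
`j ∉ J`, and `E j ·`, `j ∈ J`, vanishes unless the `n_j`, `j ∉ J`, are distinct (two equal rows), and then
`∑_{j ∉ J} n_j ≥ (N-m)(N-m-1)/2`, `m = #J` (a set of `N - m` distinct naturals has sum at least `0+1+...`;
`Finset.sum_range_id_le_sum...`/ a short induction). Hence, with the Leibniz formula, the absolute value of the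
contribution of `(J, n)` is at most
`∏_{j ∉ J} |x_j|^(n_j) * ∑_σ ∏_{j ∉ J} |c (σ j) (n_j)| * ∏_{j ∈ J} |E j (σ j)|`
`≤ ρ^(-(N-m)(N-m-1)/2) * ρ^(-m(N-1)) * ∑_σ ∏_{j ∉ J} |c (σ j) (n_j)| (ρ |x_j|)^(n_j) * ∏_{j∈J} Φ (σ j) j`.
Since `N(N-1)/2 - (N-m)(N-m-1)/2 = m(2N-m-1)/2 ≤ m(N-1)`, the powers of `ρ ≥ 1` are together at most
`ρ^(-N(N-1)/2)`. Summing over `n` (a product of sums, `Finset.prod_univ_sum`/`Fintype.piFinset`) gives, for each `J`,
at most `ρ^(-N(N-1)/2) ∑_σ ∏_j Φ (σ j) j`; there are `2^N` sets `J`. -/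
theorem det_bound {ι : Type*} [Fintype ι] [DecidableEq ι] {D : ℕ} {ρ : ℝ} (hρ : 1 ≤ ρ) (x : ι → ℝ)
    (c : ι → ℕ → ℝ) (E Φ : ι → ι → ℝ)
    (hΦ : ∀ i j, ∑ n ∈ range D, |c i n| * (ρ * |x j|) ^ n ≤ Φ i j)
    (hE : ∀ i j, |E j i| * ρ ^ (Fintype.card ι - 1) ≤ Φ i j) :
    |(Matrix.of fun j i => (∑ n ∈ range D, c i n * x j ^ n) + E j i).det| *
        ρ ^ (Fintype.card ι * (Fintype.card ι - 1) / 2) ≤
      2 ^ Fintype.card ι * ∑ σ : Equiv.Perm ι, ∏ j, Φ (σ j) j := by
  classical
  set N := Fintype.card ι with hN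
  set r : ι → Option (Fin D) → ι → ℝ := fun j o i => o.elim (E j i) (fun n => c i n * x j ^ (n : ℕ)) with hr
  set w : Option (Fin D) → ℝ := fun o => o.elim (ρ ^ (N - 1)) (fun n => ρ ^ (n : ℕ)) with hw
  have hρ0 : 0 ≤ ρ := by linarith
  have hw0 : ∀ o, 0 ≤ w o := by
    intro o
    rcases o with _ | n
    · exact pow_nonneg hρ0 _
    · exact pow_nonneg hρ0 _
  have hexp : (Matrix.of fun j i => (∑ n ∈ range D, c i n * x j ^ n) + E j i).det =
      ∑ f : ι → Option (Fin D), (Matrix.of fun j => r j (f j)).det := by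
    have h1 := (Matrix.detRowAlternating (R := ℝ) (n := ι)).toMultilinearMap.map_sum
      (fun j (o : Option (Fin D)) => r j o)
    have h2 : (fun j => ∑ o : Option (Fin D), r j o) =
        fun j i => (∑ n ∈ range D, c i n * x j ^ n) + E j i := by
      funext j i
      rw [Finset.sum_apply, Fintype.sum_option, add_comm, Finset.sum_range]
      rfl
    rw [h2] at h1
    exact h1
  have hterm : ∀ f : ι → Option (Fin D), |(Matrix.of fun j => r j (f j)).det| * ρ ^ (N * (N - 1) / 2) ≤
      ∑ σ : Equiv.Perm ι, ∏ j, (|r j (f j) (σ j)| * w (f j)) := by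
    intro f
    have hnn : 0 ≤ ∑ σ : Equiv.Perm ι, ∏ j, (|r j (f j) (σ j)| * w (f j)) :=
      sum_nonneg fun σ _ => prod_nonneg fun j _ => mul_nonneg (abs_nonneg _) (hw0 _)
    by_cases hf : ∀ i j n, f i = some n → f j = some n → i = j
    · have h1 : ρ ^ (N * (N - 1) / 2) ≤ ∏ j, w (f j) := by
        have h2 := pow_le_pow_right₀ hρ (L5_card f hf)
        refine h2.trans (le_of_eq ?_)
        rw [← prod_pow_eq_pow_sum]
        refine prod_congr rfl fun j _ => ?_
        rcases f j with _ | n
        · rfl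
        · rfl
      calc |(Matrix.of fun j => r j (f j)).det| * ρ ^ (N * (N - 1) / 2)
          ≤ (∑ σ : Equiv.Perm ι, ∏ j, |r j (f j) (σ j)|) * ∏ j, w (f j) := by
            refine mul_le_mul (L5_leib _) h1 (pow_nonneg hρ0 _) ?_
            exact sum_nonneg fun σ _ => prod_nonneg fun j _ => abs_nonneg _
        _ = ∑ σ : Equiv.Perm ι, ∏ j, (|r j (f j) (σ j)| * w (f j)) := by
            rw [sum_mul]
            exact sum_congr rfl fun σ _ => prod_mul_distrib.symm
    · push Not at hf
      obtain ⟨i, j, n, hi, hj, hij⟩ := hf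
      have h0 : (Matrix.of fun j => r j (f j)).det = 0 := by
        have e1 : (Matrix.of fun j => r j (f j)) = Matrix.of fun j k =>
            ((f j).elim 1 (fun n => x j ^ (n : ℕ)) : ℝ) *
              (Matrix.of fun j k => ((f j).elim (E j k) (fun n => c k n) : ℝ)) j k := by
          ext a b
          simp only [Matrix.of_apply, hr]
          rcases f a with _ | n
          · simp
          · simp [mul_comm]
        rw [e1, Matrix.det_mul_column]
        have e2 : (Matrix.of fun j k => ((f j).elim (E j k) (fun n => c k n) : ℝ)).det = 0 := by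
          apply Matrix.det_zero_of_row_eq hij
          funext k
          simp only [Matrix.of_apply, hi, hj]
          rfl
        rw [e2, mul_zero]
      rw [h0, abs_zero, zero_mul]
      exact hnn
  have hcol : ∀ i j, ∑ o : Option (Fin D), |r j o i| * w o ≤ 2 * Φ i j := by
    intro i j
    rw [Fintype.sum_option, two_mul]
    refine add_le_add (hE i j) ?_
    refine le_trans (le_of_eq ?_) (hΦ i j)
    rw [Finset.sum_range]
    refine sum_congr rfl fun n _ => ?_
    show |c i n * x j ^ (n : ℕ)| * ρ ^ (n : ℕ) = _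
    rw [abs_mul, abs_pow, mul_pow]
    ring
  calc |(Matrix.of fun j i => (∑ n ∈ range D, c i n * x j ^ n) + E j i).det| * ρ ^ (N * (N - 1) / 2)
      ≤ (∑ f : ι → Option (Fin D), |(Matrix.of fun j => r j (f j)).det|) * ρ ^ (N * (N - 1) / 2) := by
        rw [hexp]
        exact mul_le_mul_of_nonneg_right (abs_sum_le_sum_abs _ _) (pow_nonneg hρ0 _)
    _ ≤ ∑ f : ι → Option (Fin D), ∑ σ : Equiv.Perm ι, ∏ j, (|r j (f j) (σ j)| * w (f j)) := by
        rw [sum_mul]
        exact sum_le_sum fun f _ => hterm f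
    _ = ∑ σ : Equiv.Perm ι, ∏ j, ∑ o : Option (Fin D), |r j o (σ j)| * w o := by
        rw [sum_comm]
        refine sum_congr rfl fun σ _ => ?_
        rw [prod_univ_sum, Fintype.piFinset_univ]
    _ ≤ ∑ σ : Equiv.Perm ι, ∏ j, (2 * Φ (σ j) j) := by
        refine sum_le_sum fun σ _ => prod_le_prod (fun j _ => ?_) fun j _ => hcol _ _
        exact sum_nonneg fun o _ => mul_nonneg (abs_nonneg _) (hw0 _)
    _ = 2 ^ N * ∑ σ : Equiv.Perm ι, ∏ j, Φ (σ j) j := by
        rw [mul_sum]
        refine sum_congr rfl fun σ _ => ?_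
        rw [prod_mul_distrib, prod_const, card_univ]

end Pool.Agent.CZ
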