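import Mathlib
import Pool.Agent.CZ.L5

set_option autoImplicit false

namespace Pool.Agent.CZ

open Finset

private noncomputable def L6_c (b : ℝ) (k n : ℕ) : ℝ :=
  if k ≤ n then b ^ (n - k) / (((n - k).factorial : ℝ) * (k.factorial : ℝ)) else 0

private theorem L6_sum (b x : ℝ) {k D : ℕ} (h : k ≤ D) :
    ∑ n ∈ range D, L6_c b k n * x ^ n =
      x ^ k / (k.factorial : ℝ) * ∑ m ∈ range (D - k), (b * x) ^ m / (m.factorial : ℝ) := by
  obtain ⟨D', rfl⟩ := Nat.exists_eq_add_of_le h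
  rw [Nat.add_sub_cancel_left, Finset.sum_range_add, Finset.mul_sum]
  have h0 : ∑ n ∈ range k, L6_c b k n * x ^ n = 0 := by
    refine Finset.sum_eq_zero fun n hn => ?_
    rw [L6_c, if_neg (by simpa using hn), zero_mul]
  rw [h0, zero_add]
  refine Finset.sum_congr rfl fun m _ => ?_
  rw [L6_c, if_pos (Nat.le_add_right k m), Nat.add_sub_cancel_left, pow_add, mul_pow]
  have h1 : ((m.factorial : ℕ) : ℝ) ≠ 0 := by exact_mod_cast m.factorial_ne_zero
  have h2 : ((k.factorial : ℕ) : ℝ) ≠ 0 := by exact_mod_cast k.factorial_ne_zero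
  field_simp

private theorem L6_abs (b : ℝ) (k n : ℕ) : |L6_c b k n| = L6_c |b| k n := by
  unfold L6_c
  split_ifs with h
  · rw [abs_div, abs_pow, abs_of_nonneg (by positivity : (0 : ℝ) ≤ ((n - k).factorial : ℝ) * (k.factorial : ℝ))]
  · exact abs_zero

private theorem L6_lim (y : ℝ) {ε : ℝ} (hε : 0 < ε) :
    ∀ᶠ m in Filter.atTop, |Real.exp y - ∑ i ∈ range m, y ^ i / (i.factorial : ℝ)| ≤ ε := by
  have h1 : HasSum (fun n : ℕ => y ^ n / (n.factorial : ℝ)) (Real.exp y) := by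
    rw [Real.exp_eq_exp_ℝ]
    exact NormedSpace.expSeries_div_hasSum_exp y
  have h2 := h1.tendsto_sum_nat
  have h3 := (Metric.tendsto_atTop.1 h2) ε hε
  obtain ⟨N, hN⟩ := h3
  filter_upwards [Filter.eventually_ge_atTop N] with m hm
  have h4 := hN m hm
  rw [Real.dist_eq, abs_sub_comm] at h4
  exact h4.le

/-- **Interpolation determinant bound for `x^k/k! * exp (a (lam x + θ))`.** (project CZ, row L6; uses `det_bound`)

Proof. `N = #ι`. For `D0 : ℕ` put `c i n = (lam a_i)^(n - k_i)/((n-k_i)! k_i!)` for `k_i ≤ n < k_i + D0`, `0` otherwise,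
`D = D0 + max k_i`, so `∑_{n<D} c i n x^n = x^k/k! * ∑_{m<D0} (lam a_i x)^m/m!`, and
`∑_n |c i n| (ρ|x_j|)^n ≤ (ρ|x_j|)^k/k! * exp (ρ |lam| |a_i| |x_j|) =: Φ i j` (`Real.sum_le_exp_of_nonneg`).
The error is `E j i = x_j^k/k! * (exp (lam a_i x_j) (exp (a_i θ_j) - 1) + (exp y - ∑_{m<D0} y^m/m!))`,
`y = lam a_i x_j`. `|a_i θ_j| ≤ 1/4`, so `|exp (a_i θ_j) - 1| ≤ 2 |a_i θ_j| ≤ (1/2) ρ^(-(N-1))`
(`Real.abs_exp_sub_one_le`). For the finitely many pairs `(i, j)` the Taylor remainder is at most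
`(1/2) ρ^(-(N-1))` in absolute value if `D0` is large (`Real.exp` is the limit of its Taylor sums:
`NormedSpace.expSeries`/`Real.exp_bound`..., finitely many eventually statements), and `1 ≤ exp |y|`. So
`|E j i| ≤ |x_j|^k/k! * exp |y| * ρ^(-(N-1)) ≤ Φ i j * ρ^(-(N-1))` as `ρ ≥ 1`. Apply `det_bound`. -/
theorem det_exp {ι : Type*} [Fintype ι] [DecidableEq ι] {ρ lam : ℝ} (hρ : 1 ≤ ρ) (x θ a : ι → ℝ) (k : ι → ℕ)
    (hθ : ∀ i j, 4 * |a i * θ j| * ρ ^ (Fintype.card ι - 1) ≤ 1) :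
    |(Matrix.of fun j i => x j ^ k i / ((k i).factorial : ℝ) * Real.exp (a i * (lam * x j + θ j))).det| *
        ρ ^ (Fintype.card ι * (Fintype.card ι - 1) / 2) ≤
      2 ^ Fintype.card ι * ∑ σ : Equiv.Perm ι, ∏ j, ((ρ * |x j|) ^ k (σ j) / ((k (σ j)).factorial : ℝ) *
        Real.exp (ρ * (|lam| * |a (σ j)| * |x j|))) := by
  set N := Fintype.card ι with hN
  have hρ0 : 0 < ρ := by linarith
  have hρN : 1 ≤ ρ ^ (N - 1) := one_le_pow₀ hρ
  have hρN0 : 0 < ρ ^ (N - 1) := by positivity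
  set ε : ℝ := 1 / (2 * ρ ^ (N - 1)) with hε
  have hε0 : 0 < ε := by positivity
  have hev : ∀ᶠ D in Filter.atTop, ∀ i j : ι, k i ≤ D ∧
      |Real.exp (lam * a i * x j) - ∑ m ∈ range (D - k i), (lam * a i * x j) ^ m / (m.factorial : ℝ)| ≤ ε := by
    rw [Filter.eventually_all]
    intro i
    rw [Filter.eventually_all]
    intro j
    have h1 : Filter.Tendsto (fun D : ℕ => D - k i) Filter.atTop Filter.atTop :=
      Filter.tendsto_sub_atTop_nat (k i)
    exact (Filter.eventually_ge_atTop (k i)).and (h1.eventually (L6_lim (lam * a i * x j) hε0))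
  obtain ⟨D, hD⟩ := hev.exists
  have hfac : ∀ i, (0 : ℝ) < ((k i).factorial : ℝ) := fun i => by exact_mod_cast (k i).factorial_pos
  set Φ : ι → ι → ℝ := fun i j => (ρ * |x j|) ^ k i / ((k i).factorial : ℝ) *
    Real.exp (ρ * (|lam| * |a i| * |x j|)) with hΦdef
  set c : ι → ℕ → ℝ := fun i n => L6_c (lam * a i) (k i) n with hcdef
  set E : ι → ι → ℝ := fun j i => x j ^ k i / ((k i).factorial : ℝ) *
    Real.exp (a i * (lam * x j + θ j)) - ∑ n ∈ range D, c i n * x j ^ n with hEdef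
  have hΦ : ∀ i j, ∑ n ∈ range D, |c i n| * (ρ * |x j|) ^ n ≤ Φ i j := by
    intro i j
    simp only [hcdef, L6_abs]
    rw [L6_sum _ _ (hD i j).1]
    simp only [hΦdef]
    refine mul_le_mul_of_nonneg_left ?_ (by positivity)
    have h1 := Real.sum_le_exp_of_nonneg
      (show 0 ≤ |lam * a i| * (ρ * |x j|) by positivity) (D - k i)
    refine h1.trans (le_of_eq ?_)
    rw [abs_mul]
    congr 1
    ring
  have hE : ∀ i j, |E j i| * ρ ^ (N - 1) ≤ Φ i j := by
    intro i j
    have h1 : E j i = x j ^ k i / ((k i).factorial : ℝ) *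
        (Real.exp (lam * a i * x j) * (Real.exp (a i * θ j) - 1) +
          (Real.exp (lam * a i * x j) -
            ∑ m ∈ range (D - k i), (lam * a i * x j) ^ m / (m.factorial : ℝ))) := by
      simp only [hEdef, hcdef]
      rw [L6_sum _ _ (hD i j).1, show a i * (lam * x j + θ j) = lam * a i * x j + a i * θ j by ring,
        Real.exp_add]
      ring
    set y : ℝ := lam * a i * x j with hy
    set T : ℝ := ∑ m ∈ range (D - k i), y ^ m / (m.factorial : ℝ) with hT
    have h2 : |a i * θ j| ≤ 1 := by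
      have h3 := hθ i j
      have h4 : |a i * θ j| ≤ |a i * θ j| * ρ ^ (N - 1) :=
        le_mul_of_one_le_right (abs_nonneg _) hρN
      nlinarith [abs_nonneg (a i * θ j)]
    have h3 : |Real.exp (a i * θ j) - 1| * ρ ^ (N - 1) ≤ 1 / 2 := by
      have h4 := Real.abs_exp_sub_one_le h2
      have h5 := mul_le_mul_of_nonneg_right h4 hρN0.le
      linarith [hθ i j]
    have h4 : |Real.exp y - T| * ρ ^ (N - 1) ≤ 1 / 2 := by
      have h5 := mul_le_mul_of_nonneg_right (hD i j).2 hρN0.le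
      rw [hε] at h5
      refine h5.trans (le_of_eq ?_)
      field_simp
    have h5 : Real.exp y ≤ Real.exp |y| := Real.exp_le_exp.2 (le_abs_self y)
    have h6 : 1 ≤ Real.exp |y| := Real.one_le_exp (abs_nonneg y)
    have h7 : |Real.exp y * (Real.exp (a i * θ j) - 1) + (Real.exp y - T)| * ρ ^ (N - 1) ≤
        Real.exp |y| := by
      have h8 := abs_add_le (Real.exp y * (Real.exp (a i * θ j) - 1)) (Real.exp y - T)
      rw [abs_mul, abs_of_pos (Real.exp_pos y)] at h8
      have h9 := mul_le_mul_of_nonneg_right h8 hρN0.le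
      have h10 : Real.exp y * (|Real.exp (a i * θ j) - 1| * ρ ^ (N - 1)) ≤ Real.exp y * (1 / 2) :=
        mul_le_mul_of_nonneg_left h3 (Real.exp_pos y).le
      calc |Real.exp y * (Real.exp (a i * θ j) - 1) + (Real.exp y - T)| * ρ ^ (N - 1)
          ≤ (Real.exp y * |Real.exp (a i * θ j) - 1| + |Real.exp y - T|) * ρ ^ (N - 1) := h9
        _ = Real.exp y * (|Real.exp (a i * θ j) - 1| * ρ ^ (N - 1)) +
            |Real.exp y - T| * ρ ^ (N - 1) := by ring
        _ ≤ Real.exp |y| := by linarith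
    have h8 : |y| ≤ ρ * (|lam| * |a i| * |x j|) := by
      rw [hy, abs_mul, abs_mul]
      exact le_mul_of_one_le_left (by positivity) hρ
    have h9 : |x j| ^ k i ≤ (ρ * |x j|) ^ k i :=
      pow_le_pow_left₀ (abs_nonneg _) (le_mul_of_one_le_left (abs_nonneg _) hρ) _
    rw [h1, abs_mul, abs_div, abs_pow, abs_of_pos (hfac i), mul_assoc]
    simp only [hΦdef]
    refine mul_le_mul (div_le_div_of_nonneg_right h9 (hfac i).le) (h7.trans (Real.exp_le_exp.2 h8))
      (by positivity) (by positivity)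
  have key := det_bound hρ x c E Φ hΦ hE
  have hM : (Matrix.of fun j i => (∑ n ∈ range D, c i n * x j ^ n) + E j i) =
      Matrix.of fun j i => x j ^ k i / ((k i).factorial : ℝ) * Real.exp (a i * (lam * x j + θ j)) := by
    ext j i
    simp only [Matrix.of_apply, hEdef]
    ring
  rw [hM] at key
  exact key

end Pool.Agent.CZ
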