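import Mathlib
import Pool.Agent.CZ.LDefs

set_option autoImplicit false

namespace Pool.Agent.CZ

open Finset

/-- the polynomial `C(x, k)` -/
private noncomputable def l7P (k : ℕ) : Polynomial ℝ :=
  Polynomial.C ((k.factorial : ℝ)⁻¹) * descPochhammer ℝ k

/-- its Taylor coefficients at `c`, times `i!` -/
private noncomputable def l7T (c : ℝ) (i k : ℕ) : ℝ :=
  (i.factorial : ℝ) * (Polynomial.taylor c (l7P k)).coeff i

private theorem l7P_natDegree (k : ℕ) : (l7P k).natDegree = k := by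
  have h : ((k.factorial : ℝ)⁻¹) ≠ 0 := inv_ne_zero (by exact_mod_cast k.factorial_ne_zero)
  unfold l7P
  rw [Polynomial.natDegree_C_mul h, descPochhammer_natDegree]

private theorem l7T_diag (c : ℝ) (k : ℕ) : l7T c k k = 1 := by
  have h : ((k.factorial : ℝ)) ≠ 0 := by exact_mod_cast k.factorial_ne_zero
  have h1 : (Polynomial.taylor c (l7P k)).coeff k = (l7P k).leadingCoeff := by
    have := Polynomial.coeff_taylor_natDegree (r := c) (f := l7P k)
    rwa [l7P_natDegree] at this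
  unfold l7T
  rw [h1]
  unfold l7P
  rw [Polynomial.leadingCoeff_mul, Polynomial.leadingCoeff_C,
    (monic_descPochhammer ℝ k).leadingCoeff, mul_one]
  exact mul_inv_cancel₀ h

private theorem l7T_zero (c : ℝ) {i k : ℕ} (h : k < i) : l7T c i k = 0 := by
  unfold l7T
  rw [Polynomial.coeff_eq_zero_of_natDegree_lt, mul_zero]
  rw [Polynomial.natDegree_taylor, l7P_natDegree]
  exact h

private theorem l7_choose (c : ℝ) (n k K : ℕ) (hk : k < K) :
    ((n.choose k : ℕ) : ℝ) =
      ∑ i : Fin K, ((n : ℝ) - c) ^ (i : ℕ) / (((i : ℕ).factorial : ℕ) : ℝ) * l7T c i k := by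
  have h1 : ((n.choose k : ℕ) : ℝ) = (l7P k).eval (n : ℝ) := by
    rw [Nat.cast_choose_eq_descPochhammer_div]
    unfold l7P
    rw [Polynomial.eval_mul, Polynomial.eval_C]
    ring
  rw [h1, ← Polynomial.taylor_eval_sub c (l7P k) (n : ℝ),
    Polynomial.eval_eq_sum_range' (n := K) (by rw [Polynomial.natDegree_taylor, l7P_natDegree]; exact hk),
    ← Fin.sum_univ_eq_sum_range
      (fun i => (Polynomial.taylor c (l7P k)).coeff i * ((n : ℝ) - c) ^ i) K]
  refine Finset.sum_congr rfl fun i _ => ?_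
  have h : (((i : ℕ).factorial : ℕ) : ℝ) ≠ 0 := by exact_mod_cast (i : ℕ).factorial_ne_zero
  unfold l7T
  field_simp

private theorem l7_sum (L : ℕ) : ∑ l : Fin L, (((l : ℕ) : ℝ) - ((L : ℝ) - 1) / 2) = 0 := by
  have h : ∑ l : Fin L, (((l : ℕ) : ℝ)) = (L : ℝ) * ((L : ℝ) - 1) / 2 := by
    rw [Fin.sum_univ_eq_sum_range (fun i => (i : ℝ)) L]
    induction L with
    | zero => simp
    | succ n ih =>
      rw [Finset.sum_range_succ, ih]
      push_cast
      ring
  rw [Finset.sum_sub_distrib, h]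
  simp
  ring

/-- **Centring.** (project CZ, row L7) The interpolation determinant in centred form.

Proof. Over `ℝ` the entry is `C(ζ_j, k) * exp (l * y_j)` with `ζ_j = h r_j + g s_j`, `y_j = r_j log b + s_j log p`
(`Real.exp_log`, `b, p > 0`). Let `m = rb log b + sb log p`, `t_l = l - (L-1)/2`. Then
`l y_j = (L-1)/2 * y_j + t_l (y_j - m) + t_l m`. The factor `exp ((L-1)/2 y_j)` of row `j` can be pulled out
(`Matrix.det_mul_column`/`det_mul_row`), the factor `exp (t_l m)` of column `(k,l)` too; the product of the latter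
over all columns is `exp (m * ∑_{(k,l)} t_l) = exp 0 = 1`, as `∑_{l<L} (l - (L-1)/2) = 0`.
Polynomials: with `c = h rb + g sb`, `C(x, k) = ∑_{i ≤ k} T i k * (x - c)^i/i!` for real numbers `T i k` with
`T k k = 1` (`C(x,k) = descPochhammer x/k!` is a polynomial of degree `k` with leading coefficient `1/k!`; expand it
at `c`, e.g. `Polynomial.taylor`), `T i k = 0` for `i > k`. So the matrix is `B * (T ⊗ 1)` with
`B j (i,l) = (ζ_j - c)^i/i! * exp (...)`, and `det (T ⊗ 1) = 1` (`Matrix.det_kronecker` /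
`Matrix.det_of_upperTriangular`). `ζ_j - c = h (r_j - rb) + g (s_j - sb)`. -/
theorem det_center {b p g h K L : ℕ} (hb : 1 ≤ b) (hp : 1 ≤ p) (pt : Fin K × Fin L → ℕ × ℕ) (rb sb : ℝ) :
    (((Matrix.of (ent b p g h pt)).det : ℤ) : ℝ) =
      Real.exp (((L : ℝ) - 1) / 2 * ∑ j, (((pt j).1 : ℝ) * Real.log b + ((pt j).2 : ℝ) * Real.log p)) *
      (Matrix.of fun j c : Fin K × Fin L =>
        ((h : ℝ) * (((pt j).1 : ℝ) - rb) + g * (((pt j).2 : ℝ) - sb)) ^ (c.1 : ℕ) /
            (((c.1 : ℕ).factorial : ℕ) : ℝ) *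
          Real.exp ((((c.2 : ℕ) : ℝ) - ((L : ℝ) - 1) / 2) *
            ((((pt j).1 : ℝ) - rb) * Real.log b + (((pt j).2 : ℝ) - sb) * Real.log p))).det := by
  have hb0 : (0 : ℝ) < b := by exact_mod_cast hb
  have hp0 : (0 : ℝ) < p := by exact_mod_cast hp
  set m : ℝ := rb * Real.log b + sb * Real.log p with hm
  set c0 : ℝ := h * rb + g * sb with hc0
  set N : Matrix (Fin K × Fin L) (Fin K × Fin L) ℝ := Matrix.of fun j c =>
        ((h : ℝ) * (((pt j).1 : ℝ) - rb) + g * (((pt j).2 : ℝ) - sb)) ^ (c.1 : ℕ) /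
            (((c.1 : ℕ).factorial : ℕ) : ℝ) *
          Real.exp ((((c.2 : ℕ) : ℝ) - ((L : ℝ) - 1) / 2) *
            ((((pt j).1 : ℝ) - rb) * Real.log b + (((pt j).2 : ℝ) - sb) * Real.log p)) with hN
  set y : Fin K × Fin L → ℝ := fun j => ((pt j).1 : ℝ) * Real.log b + ((pt j).2 : ℝ) * Real.log p with hy
  set T : Matrix (Fin K) (Fin K) ℝ := Matrix.of fun i k => l7T c0 (i : ℕ) (k : ℕ) with hT
  set B : Matrix (Fin K × Fin L) (Fin K × Fin L) ℝ := Matrix.of fun j c =>
    Real.exp (((L : ℝ) - 1) / 2 * y j) *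
      (Matrix.of fun j c : Fin K × Fin L =>
        Real.exp ((((c.2 : ℕ) : ℝ) - ((L : ℝ) - 1) / 2) * m) * N j c) j c with hB
  -- the factorisation
  have hfac : (Matrix.of (ent b p g h pt)).map (fun x : ℤ => (x : ℝ)) =
      B * Matrix.kroneckerMap (fun a b => a * b) T (1 : Matrix (Fin L) (Fin L) ℝ) := by
    ext j c
    obtain ⟨k, l⟩ := c
    rw [Matrix.mul_apply, Fintype.sum_prod_type]
    have h1 : ∀ i : Fin K, ∑ l' : Fin L, B j (i, l') *
        Matrix.kroneckerMap (fun a b => a * b) T (1 : Matrix (Fin L) (Fin L) ℝ) (i, l') (k, l) =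
        B j (i, l) * T i k := by
      intro i
      rw [Finset.sum_eq_single l]
      · simp [Matrix.kroneckerMap_apply]
      · intro l' _ hl'
        simp [Matrix.kroneckerMap_apply, Matrix.one_apply_ne hl']
      · intro hl
        exact absurd (Finset.mem_univ l) hl
    rw [Finset.sum_congr rfl fun i _ => h1 i]
    have hexp : Real.exp (((L : ℝ) - 1) / 2 * y j) *
        (Real.exp ((((l : ℕ) : ℝ) - ((L : ℝ) - 1) / 2) * m) *
          Real.exp ((((l : ℕ) : ℝ) - ((L : ℝ) - 1) / 2) *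
            ((((pt j).1 : ℝ) - rb) * Real.log b + (((pt j).2 : ℝ) - sb) * Real.log p))) =
        ((b : ℝ) ^ (pt j).1 * (p : ℝ) ^ (pt j).2) ^ (l : ℕ) := by
      have e1 : (b : ℝ) ^ (pt j).1 = Real.exp (((pt j).1 : ℝ) * Real.log b) := by
        rw [mul_comm, Real.exp_mul, Real.exp_log hb0, Real.rpow_natCast]
      have e2 : (p : ℝ) ^ (pt j).2 = Real.exp (((pt j).2 : ℝ) * Real.log p) := by
        rw [mul_comm, Real.exp_mul, Real.exp_log hp0, Real.rpow_natCast]
      have e3 : ((b : ℝ) ^ (pt j).1 * (p : ℝ) ^ (pt j).2) ^ (l : ℕ) =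
          Real.exp (((l : ℕ) : ℝ) *
            (((pt j).1 : ℝ) * Real.log b + ((pt j).2 : ℝ) * Real.log p)) := by
        rw [e1, e2, ← Real.exp_add, ← Real.exp_nat_mul]
      rw [e3, ← Real.exp_add, ← Real.exp_add]
      congr 1
      rw [hy, hm]
      ring
    have hcast : (Matrix.of (ent b p g h pt)).map (fun x : ℤ => (x : ℝ)) j (k, l) =
        (((h * (pt j).1 + g * (pt j).2).choose (k : ℕ) : ℕ) : ℝ) *
          ((b : ℝ) ^ (pt j).1 * (p : ℝ) ^ (pt j).2) ^ (l : ℕ) := by
      simp [ent]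
    rw [hcast, l7_choose c0 _ _ K k.2, ← hexp, Finset.sum_mul]
    refine Finset.sum_congr rfl fun i _ => ?_
    have hz : (((h * (pt j).1 + g * (pt j).2 : ℕ) : ℝ)) - c0 =
        (h : ℝ) * (((pt j).1 : ℝ) - rb) + g * (((pt j).2 : ℝ) - sb) := by
      rw [hc0]
      push_cast
      ring
    rw [hz]
    simp only [hB, hN, hT, Matrix.of_apply]
    ring
  have hTdet : T.det = 1 := by
    rw [Matrix.det_of_isUpperTriangular]
    · refine Finset.prod_eq_one fun i _ => ?_
      simp only [hT, Matrix.of_apply]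
      exact l7T_diag c0 i
    · intro i j hij
      simp only [hT, Matrix.of_apply]
      exact l7T_zero c0 hij
  have hcol : ∏ c : Fin K × Fin L, Real.exp ((((c.2 : ℕ) : ℝ) - ((L : ℝ) - 1) / 2) * m) = 1 := by
    rw [← Real.exp_sum, ← Finset.sum_mul, Fintype.sum_prod_type]
    simp only
    rw [Finset.sum_congr rfl fun (x : Fin K) _ => l7_sum L]
    simp
  rw [Int.cast_det, hfac, Matrix.det_mul]
  have hk := Matrix.det_kronecker T (1 : Matrix (Fin L) (Fin L) ℝ)
  have hk' : (Matrix.kroneckerMap (fun a b => a * b) T (1 : Matrix (Fin L) (Fin L) ℝ)).det = 1 := by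
    refine hk.trans ?_
    rw [hTdet, Matrix.det_one]
    simp
  rw [hk', mul_one, hB, Matrix.det_mul_column, Matrix.det_mul_row, hcol, one_mul, ← Real.exp_sum,
    ← Finset.mul_sum]

end Pool.Agent.CZ
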