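import Mathlib

set_option autoImplicit false

namespace Pool.Agent.CZ

open Finset

private theorem L4_sum (n : ℕ) (c : ℝ) : 12 * ∑ l ∈ range n, ((l : ℝ) - c) ^ 2 =
    2 * ((n : ℝ) - 1) * n * (2 * n - 1) - 12 * c * n * (n - 1) + 12 * n * c ^ 2 := by
  induction n with
  | zero => simp
  | succ n ih =>
    rw [Finset.sum_range_succ, mul_add, ih]
    push_cast
    ring

private theorem L4_sq (n : ℕ) : ∑ l ∈ range n, ((l : ℝ) - ((n : ℝ) - 1) / 2) ^ 2 ≤ (n : ℝ) ^ 3 / 12 := by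
  have h := L4_sum n (((n : ℝ) - 1) / 2)
  have h0 : (0 : ℝ) ≤ n := Nat.cast_nonneg n
  have e : 2 * ((n : ℝ) - 1) * n * (2 * n - 1) - 12 * (((n : ℝ) - 1) / 2) * n * (n - 1) +
      12 * n * (((n : ℝ) - 1) / 2) ^ 2 = (n : ℝ) ^ 3 - n := by ring
  rw [e] at h
  linarith

private theorem L4_cs {ι : Type*} (s : Finset ι) (a x : ι → ℝ) {μ A X : ℝ} (hμ : 0 < μ)
    (hA : ∑ j ∈ s, a j ^ 2 ≤ A) (hX : ∑ j ∈ s, x j ^ 2 ≤ X) :
    ∑ j ∈ s, |a j| * |x j| ≤ (μ * A + X / μ) / 2 := by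
  have h1 : ∀ j ∈ s, |a j| * |x j| ≤ (μ * a j ^ 2 + x j ^ 2 / μ) / 2 := by
    intro j _
    have h2 : 0 ≤ (μ * |a j| - |x j|) ^ 2 := sq_nonneg _
    rw [← sq_abs (a j), ← sq_abs (x j)]
    rw [le_div_iff₀ (by norm_num : (0 : ℝ) < 2)]
    have h3 : μ * |a j| ^ 2 + |x j| ^ 2 / μ = (μ * (μ * |a j| ^ 2) + |x j| ^ 2) / μ := by
      field_simp
    rw [h3, le_div_iff₀ hμ]
    nlinarith
  refine (Finset.sum_le_sum h1).trans ?_
  rw [← Finset.sum_div, Finset.sum_add_distrib, ← Finset.mul_sum, ← Finset.sum_div]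
  have h4 : μ * ∑ j ∈ s, a j ^ 2 ≤ μ * A := mul_le_mul_of_nonneg_left hA hμ.le
  have h5 : (∑ j ∈ s, x j ^ 2) / μ ≤ X / μ := div_le_div_of_nonneg_right hX hμ.le
  linarith

/-- **The pairing bound.** (project CZ, row L4)

Proof. Write `N = K L`, `a_c = c.2 - (L-1)/2` for a column `c = (k,l)`. `∑_c a_c^2 = K * L (L^2-1)/12 ≤ N L^2/12`.
The points `pt j` are distinct elements of `range R ×ˢ range S`, so
`∑_j (r_j - (R-1)/2)^2 ≤ ∑_{r<R, s<S} (r - (R-1)/2)^2 = S R (R^2-1)/12 ≤ S R^3/12`, and likewise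
`∑_j (s_j - (S-1)/2)^2 ≤ R S^3/12`. For `μ > 0`: `|a||x| ≤ (μ a^2 + x^2/μ)/2`. With `μ = R/L`:
`∑_j |a_{σ j}| |r_j - (R-1)/2| ≤ ((R/L) N L^2/12 + (L/R) S R^3/12)/2 = L R (N + R S)/24`; with `μ = S/L` the second
inequality: `((S/L) N L^2/12 + (L/S) R S^3/12)/2 = L S (N + R S)/24`. (If `R = 0` or `S = 0` or `L = 0` there is no
point or no column: the index type is empty or the bound is trivial.) Useful: `∑_{l<L} (l - (L-1)/2)^2 = L(L^2-1)/12`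
over `ℝ` by induction in the form `12 ∑_{l<L} (l - c)^2 = 2 (L-1) L (2L-1) - 12 c L (L-1) + 12 L c^2`. -/
theorem amgm {K L R S : ℕ} {pt : Fin K × Fin L → ℕ × ℕ} (hinj : Function.Injective pt)
    (hR : ∀ j, (pt j).1 < R ∧ (pt j).2 < S) (σ : Equiv.Perm (Fin K × Fin L)) :
    ∑ j, |(((σ j).2 : ℕ) : ℝ) - ((L : ℝ) - 1) / 2| * |((pt j).1 : ℝ) - ((R : ℝ) - 1) / 2| ≤
      L * R * (K * L + R * S) / 24 ∧
    ∑ j, |(((σ j).2 : ℕ) : ℝ) - ((L : ℝ) - 1) / 2| * |((pt j).2 : ℝ) - ((S : ℝ) - 1) / 2| ≤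
      L * S * (K * L + R * S) / 24 := by
  rcases isEmpty_or_nonempty (Fin K × Fin L) with hE | ⟨⟨j₀⟩⟩
  · simp only [Finset.univ_eq_empty, Finset.sum_empty]
    constructor <;> positivity
  have hL : 0 < L := lt_of_le_of_lt (Nat.zero_le _) j₀.2.isLt
  have hR0 : 0 < R := lt_of_le_of_lt (Nat.zero_le _) (hR j₀).1
  have hS0 : 0 < S := lt_of_le_of_lt (Nat.zero_le _) (hR j₀).2
  have hL' : (0 : ℝ) < L := Nat.cast_pos.2 hL
  have hR' : (0 : ℝ) < R := Nat.cast_pos.2 hR0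
  have hS' : (0 : ℝ) < S := Nat.cast_pos.2 hS0
  have hA : ∑ j, ((((σ j).2 : ℕ) : ℝ) - ((L : ℝ) - 1) / 2) ^ 2 ≤ K * ((L : ℝ) ^ 3 / 12) := by
    rw [Equiv.sum_comp σ (fun c : Fin K × Fin L => (((c.2 : ℕ) : ℝ) - ((L : ℝ) - 1) / 2) ^ 2),
      Fintype.sum_prod_type]
    simp only [Finset.sum_const, Finset.card_univ, Fintype.card_fin, nsmul_eq_mul]
    refine mul_le_mul_of_nonneg_left ?_ (Nat.cast_nonneg K)
    have h1 := L4_sq L
    rw [← Fin.sum_univ_eq_sum_range (fun l : ℕ => ((l : ℝ) - ((L : ℝ) - 1) / 2) ^ 2) L] at h1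
    exact h1
  have hmem : ∀ j, pt j ∈ range R ×ˢ range S := fun j =>
    Finset.mem_product.2 ⟨Finset.mem_range.2 (hR j).1, Finset.mem_range.2 (hR j).2⟩
  have hsum : ∀ f : ℕ × ℕ → ℝ, (∀ q, 0 ≤ f q) → ∑ j, f (pt j) ≤ ∑ q ∈ range R ×ˢ range S, f q := by
    intro f hf
    rw [← Finset.sum_image (s := univ) (g := pt) (f := f) (fun a _ b _ hab => hinj hab)]
    refine Finset.sum_le_sum_of_subset_of_nonneg ?_ (fun q _ _ => hf q)
    intro q hq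
    obtain ⟨j, -, rfl⟩ := Finset.mem_image.1 hq
    exact hmem j
  have hX : ∑ j, (((pt j).1 : ℝ) - ((R : ℝ) - 1) / 2) ^ 2 ≤ S * ((R : ℝ) ^ 3 / 12) := by
    refine (hsum (fun q => ((q.1 : ℝ) - ((R : ℝ) - 1) / 2) ^ 2) (fun q => sq_nonneg _)).trans ?_
    rw [Finset.sum_product]
    simp only [Finset.sum_const, Finset.card_range, nsmul_eq_mul]
    rw [← Finset.mul_sum]
    exact mul_le_mul_of_nonneg_left (L4_sq R) (Nat.cast_nonneg S)
  have hY : ∑ j, (((pt j).2 : ℝ) - ((S : ℝ) - 1) / 2) ^ 2 ≤ R * ((S : ℝ) ^ 3 / 12) := by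
    refine (hsum (fun q => ((q.2 : ℝ) - ((S : ℝ) - 1) / 2) ^ 2) (fun q => sq_nonneg _)).trans ?_
    rw [Finset.sum_product]
    simp only [Finset.sum_const, Finset.card_range, nsmul_eq_mul]
    exact mul_le_mul_of_nonneg_left (L4_sq S) (Nat.cast_nonneg R)
  constructor
  · refine (L4_cs univ _ _ (div_pos hR' hL') hA hX).trans (le_of_eq ?_)
    field_simp
    ring
  · refine (L4_cs univ _ _ (div_pos hS' hL') hA hY).trans (le_of_eq ?_)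
    field_simp
    ring

end Pool.Agent.CZ
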