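import Mathlib
import Pool.Agent.CZ.L4

set_option autoImplicit false

namespace Pool.Agent.CZ

open Finset

/-- **The permutation sum.** (project CZ, row M1; uses `amgm` of `L4`)

Proof. There are `(K L)!` permutations. For each of them, with `x j` the number inside `|·|`:
`|x j| ≤ h |r_j - (R-1)/2| + g |s_j - (S-1)/2| ≤ ((R-1) h + (S-1) g)/2 ≤ B` (as `0 ≤ r_j ≤ R - 1`, `0 ≤ s_j ≤ S - 1`),
so `∏_j (ρ|x_j|)^(k_{σ j})/k_{σ j}! ≤ ∏_j (ρ B)^(k_{σ j})/k_{σ j}! = ∏_{c} (ρ B)^(c.1)/c.1!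
= (∏_{k<K} (ρB)^k/k!)^L` (`Equiv.prod_comp`, `Fintype.prod_prod_type`, `Fin.prod_univ_eq_prod_range`). The product of
the exponentials is `exp (ρ ∑_j (log b/h) |l'_{σ j}| |x_j|)`, and
`(log b/h) |x_j| ≤ log b |r_j - (R-1)/2| + (g/h) log b |s_j - (S-1)/2|`, so by `amgm` the exponent is at most
`ρ (log b * L R (KL + RS)/24 + (g/h) log b * L S (KL + RS)/24)`. -/
theorem perm_sum {b g h K L R S : ℕ} {ρ B : ℝ} (hb : 1 ≤ b) (hh : 1 ≤ h) (hρ : 1 ≤ ρ)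
    {pt : Fin K × Fin L → ℕ × ℕ} (hinj : Function.Injective pt) (hR : ∀ j, (pt j).1 < R ∧ (pt j).2 < S)
    (hB : (((R : ℝ) - 1) * h + ((S : ℝ) - 1) * g) / 2 ≤ B) (hB0 : 0 ≤ B) :
    ∑ σ : Equiv.Perm (Fin K × Fin L), ∏ j,
      ((ρ * |(h : ℝ) * (((pt j).1 : ℝ) - ((R : ℝ) - 1) / 2) + g * (((pt j).2 : ℝ) - ((S : ℝ) - 1) / 2)|) ^
          ((σ j).1 : ℕ) / ((((σ j).1 : ℕ).factorial : ℕ) : ℝ) *
        Real.exp (ρ * (|Real.log b / h| * |(((σ j).2 : ℕ) : ℝ) - ((L : ℝ) - 1) / 2| *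
          |(h : ℝ) * (((pt j).1 : ℝ) - ((R : ℝ) - 1) / 2) + g * (((pt j).2 : ℝ) - ((S : ℝ) - 1) / 2)|))) ≤
      ((K * L).factorial : ℝ) * (∏ k ∈ range K, (ρ * B) ^ k / (k.factorial : ℝ)) ^ L *
        Real.exp (ρ * ((L : ℝ) * (K * L + R * S) / 24 * (R * Real.log b + S * ((g : ℝ) / h * Real.log b)))) := by
  have hlog : 0 ≤ Real.log b := Real.log_natCast_nonneg b
  have hh' : (0 : ℝ) < h := Nat.cast_pos.2 hh
  have hg' : (0 : ℝ) ≤ g := Nat.cast_nonneg g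
  have hρ0 : 0 ≤ ρ := by linarith
  have hx : ∀ j, |(h : ℝ) * (((pt j).1 : ℝ) - ((R : ℝ) - 1) / 2) +
      g * (((pt j).2 : ℝ) - ((S : ℝ) - 1) / 2)| ≤
      h * |((pt j).1 : ℝ) - ((R : ℝ) - 1) / 2| + g * |((pt j).2 : ℝ) - ((S : ℝ) - 1) / 2| := by
    intro j
    refine (abs_add_le _ _).trans (le_of_eq ?_)
    rw [abs_mul, abs_mul, abs_of_nonneg hh'.le, abs_of_nonneg hg']
  have hr : ∀ j, |((pt j).1 : ℝ) - ((R : ℝ) - 1) / 2| ≤ ((R : ℝ) - 1) / 2 := by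
    intro j
    have h1 : ((pt j).1 : ℝ) + 1 ≤ R := by exact_mod_cast (hR j).1
    have h2 : (0 : ℝ) ≤ (pt j).1 := Nat.cast_nonneg _
    rw [abs_le]
    constructor <;> linarith
  have hs : ∀ j, |((pt j).2 : ℝ) - ((S : ℝ) - 1) / 2| ≤ ((S : ℝ) - 1) / 2 := by
    intro j
    have h1 : ((pt j).2 : ℝ) + 1 ≤ S := by exact_mod_cast (hR j).2
    have h2 : (0 : ℝ) ≤ (pt j).2 := Nat.cast_nonneg _
    rw [abs_le]
    constructor <;> linarith
  have hxB : ∀ j, |(h : ℝ) * (((pt j).1 : ℝ) - ((R : ℝ) - 1) / 2) +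
      g * (((pt j).2 : ℝ) - ((S : ℝ) - 1) / 2)| ≤ B := by
    intro j
    refine (hx j).trans (le_trans ?_ hB)
    have h1 := mul_le_mul_of_nonneg_left (hr j) hh'.le
    have h2 := mul_le_mul_of_nonneg_left (hs j) hg'
    linarith
  have hterm : ∀ σ : Equiv.Perm (Fin K × Fin L), ∏ j,
      ((ρ * |(h : ℝ) * (((pt j).1 : ℝ) - ((R : ℝ) - 1) / 2) + g * (((pt j).2 : ℝ) - ((S : ℝ) - 1) / 2)|) ^
          ((σ j).1 : ℕ) / ((((σ j).1 : ℕ).factorial : ℕ) : ℝ) *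
        Real.exp (ρ * (|Real.log b / h| * |(((σ j).2 : ℕ) : ℝ) - ((L : ℝ) - 1) / 2| *
          |(h : ℝ) * (((pt j).1 : ℝ) - ((R : ℝ) - 1) / 2) + g * (((pt j).2 : ℝ) - ((S : ℝ) - 1) / 2)|))) ≤
      (∏ k ∈ range K, (ρ * B) ^ k / (k.factorial : ℝ)) ^ L *
        Real.exp (ρ * ((L : ℝ) * (K * L + R * S) / 24 *
          (R * Real.log b + S * ((g : ℝ) / h * Real.log b)))) := by
    intro σ
    rw [Finset.prod_mul_distrib]
    refine mul_le_mul ?_ ?_ (Finset.prod_nonneg fun j _ => (Real.exp_pos _).le) ?_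
    · have h1 : ∏ j, ((ρ * |(h : ℝ) * (((pt j).1 : ℝ) - ((R : ℝ) - 1) / 2) +
          g * (((pt j).2 : ℝ) - ((S : ℝ) - 1) / 2)|) ^
          ((σ j).1 : ℕ) / ((((σ j).1 : ℕ).factorial : ℕ) : ℝ)) ≤
          ∏ j, ((ρ * B) ^ ((σ j).1 : ℕ) / ((((σ j).1 : ℕ).factorial : ℕ) : ℝ)) := by
        refine Finset.prod_le_prod (fun j _ => by positivity) (fun j _ => ?_)
        refine div_le_div_of_nonneg_right ?_ (Nat.cast_nonneg _)
        exact pow_le_pow_left₀ (by positivity) (mul_le_mul_of_nonneg_left (hxB j) hρ0) _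
      refine h1.trans (le_of_eq ?_)
      rw [Equiv.prod_comp σ (fun c : Fin K × Fin L =>
        (ρ * B) ^ (c.1 : ℕ) / (((c.1 : ℕ).factorial : ℕ) : ℝ)), Fintype.prod_prod_type]
      simp only [Finset.prod_const, Finset.card_univ, Fintype.card_fin]
      rw [Finset.prod_pow]
      congr 1
      exact Fin.prod_univ_eq_prod_range (fun k : ℕ => (ρ * B) ^ k / ((k.factorial : ℕ) : ℝ)) K
    · rw [← Real.exp_sum]
      refine Real.exp_le_exp.2 ?_
      rw [← Finset.mul_sum]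
      refine mul_le_mul_of_nonneg_left ?_ hρ0
      obtain ⟨a1, a2⟩ := amgm hinj hR σ
      have h2 : ∀ j ∈ (univ : Finset (Fin K × Fin L)),
          |Real.log b / h| * |(((σ j).2 : ℕ) : ℝ) - ((L : ℝ) - 1) / 2| *
          |(h : ℝ) * (((pt j).1 : ℝ) - ((R : ℝ) - 1) / 2) +
            g * (((pt j).2 : ℝ) - ((S : ℝ) - 1) / 2)| ≤
          Real.log b * (|(((σ j).2 : ℕ) : ℝ) - ((L : ℝ) - 1) / 2| *
            |((pt j).1 : ℝ) - ((R : ℝ) - 1) / 2|) +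
          ((g : ℝ) / h * Real.log b) * (|(((σ j).2 : ℕ) : ℝ) - ((L : ℝ) - 1) / 2| *
            |((pt j).2 : ℝ) - ((S : ℝ) - 1) / 2|) := by
        intro j _
        have h3 : |Real.log b / h| = Real.log b / h := abs_of_nonneg (by positivity)
        rw [h3]
        refine (mul_le_mul_of_nonneg_left (hx j) (by positivity)).trans (le_of_eq ?_)
        field_simp
      refine (Finset.sum_le_sum h2).trans ?_
      rw [Finset.sum_add_distrib, ← Finset.mul_sum, ← Finset.mul_sum]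
      have h4 := mul_le_mul_of_nonneg_left a1 hlog
      have h5 := mul_le_mul_of_nonneg_left a2 (by positivity : 0 ≤ (g : ℝ) / h * Real.log b)
      refine (add_le_add h4 h5).trans (le_of_eq ?_)
      ring
    · refine pow_nonneg (Finset.prod_nonneg fun k _ => ?_) _
      positivity
  refine (Finset.sum_le_sum fun σ _ => hterm σ).trans (le_of_eq ?_)
  rw [Finset.sum_const, Finset.card_univ, Fintype.card_perm, Fintype.card_prod, Fintype.card_fin,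
    Fintype.card_fin, nsmul_eq_mul]
  ring

end Pool.Agent.CZ
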