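import Mathlib
import Pool.Agent.CZ.LDefs

set_option autoImplicit false

namespace Pool.Agent.CZ

open Finset

/-- **Arithmetic lower bound.** (project CZ, row L3)

Proof. In the expansion `det = ∑_σ sign σ ∏_j ent (σ j) j` (or with `σ` on the columns: `Matrix.det_apply` and
`Matrix.det_transpose`) each product is an integer times
`∏_j (b^(r_j) p^(s_j))^(l_{σ j}) = b^(∑ r_j l_{σ j}) p^(∑ s_j l_{σ j})`, which is divisible by `b^V1 p^V2`. So
`b^V1 p^V2 ∣ det ≠ 0` (`Int.le_of_dvd`, `dvd_abs`). -/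
theorem det_lower {b p g h V1 V2 K L : ℕ} {pt : Fin K × Fin L → ℕ × ℕ}
    (hdet : (Matrix.of (ent b p g h pt)).det ≠ 0)
    (h1 : ∀ σ : Equiv.Perm (Fin K × Fin L), V1 ≤ ∑ j, (pt j).1 * ((σ j).2 : ℕ))
    (h2 : ∀ σ : Equiv.Perm (Fin K × Fin L), V2 ≤ ∑ j, (pt j).2 * ((σ j).2 : ℕ)) :
    (b : ℤ) ^ V1 * (p : ℤ) ^ V2 ≤ |(Matrix.of (ent b p g h pt)).det| := by
  have hdvd : (b : ℤ) ^ V1 * (p : ℤ) ^ V2 ∣ (Matrix.of (ent b p g h pt)).det := by
    rw [← Matrix.det_transpose, Matrix.det_apply]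
    refine Finset.dvd_sum fun σ _ => ?_
    have h3 : (∏ i, (Matrix.of (ent b p g h pt)).transpose (σ i) i) =
        (∏ j, (((h * (pt j).1 + g * (pt j).2).choose ((σ j).1 : ℕ) : ℕ) : ℤ)) *
          ((b : ℤ) ^ (∑ j, (pt j).1 * ((σ j).2 : ℕ)) * (p : ℤ) ^ (∑ j, (pt j).2 * ((σ j).2 : ℕ))) := by
      rw [← Finset.prod_pow_eq_pow_sum, ← Finset.prod_pow_eq_pow_sum, ← Finset.prod_mul_distrib,
        ← Finset.prod_mul_distrib]
      refine Finset.prod_congr rfl fun j _ => ?_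
      simp only [Matrix.transpose_apply, Matrix.of_apply, ent, mul_pow, pow_mul]
    have h4 : (b : ℤ) ^ V1 * (p : ℤ) ^ V2 ∣ ∏ i, (Matrix.of (ent b p g h pt)).transpose (σ i) i := by
      rw [h3]
      exact Dvd.dvd.mul_left (mul_dvd_mul (pow_dvd_pow _ (h1 σ)) (pow_dvd_pow _ (h2 σ))) _
    rw [Units.smul_def, smul_eq_mul]
    exact Dvd.dvd.mul_left h4 _
  exact Int.le_of_dvd (abs_pos.2 hdet) ((dvd_abs _ _).2 hdvd)

end Pool.Agent.CZ
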