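import Mathlib
import Pool.Agent.CZ.LDefs
import Pool.Agent.CZ.L3
import Pool.Agent.CZ.L4

set_option autoImplicit false

namespace Pool.Agent.CZ

open Finset

private theorem M2_sum (n : ℕ) (c : ℝ) :
    ∑ l ∈ range n, ((l : ℝ) - c) = (n : ℝ) * ((n : ℝ) - 1) / 2 - n * c := by
  induction n with
  | zero => simp
  | succ n ih =>
    rw [Finset.sum_range_succ, ih]
    push_cast
    ring

private theorem M2_zero {K L : ℕ} (σ : Equiv.Perm (Fin K × Fin L)) :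
    ∑ j, ((((σ j).2 : ℕ) : ℝ) - ((L : ℝ) - 1) / 2) = 0 := by
  rw [Equiv.sum_comp σ (fun c : Fin K × Fin L => (((c.2 : ℕ) : ℝ) - ((L : ℝ) - 1) / 2)),
    Fintype.sum_prod_type]
  have h1 := M2_sum L (((L : ℝ) - 1) / 2)
  rw [← Fin.sum_univ_eq_sum_range (fun l : ℕ => ((l : ℝ) - ((L : ℝ) - 1) / 2)) L] at h1
  have h2 : (∑ y : Fin L, ((((y : ℕ) : ℕ) : ℝ) - ((L : ℝ) - 1) / 2)) = 0 := by
    rw [h1]; ring
  simp only [h2, Finset.sum_const_zero]

private theorem M2_low {K L : ℕ} (σ : Equiv.Perm (Fin K × Fin L)) (f : Fin K × Fin L → ℕ) (T B : ℝ)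
    (h : ∑ j, |(((σ j).2 : ℕ) : ℝ) - ((L : ℝ) - 1) / 2| * |(f j : ℝ) - T| ≤ B) :
    ((L : ℝ) - 1) / 2 * ∑ j, (f j : ℝ) - B ≤ ((∑ j, f j * ((σ j).2 : ℕ) : ℕ) : ℝ) := by
  have h0 := M2_zero σ
  have h1 : |∑ j, ((((σ j).2 : ℕ) : ℝ) - ((L : ℝ) - 1) / 2) * ((f j : ℝ) - T)| ≤ B := by
    refine (Finset.abs_sum_le_sum_abs _ _).trans (le_trans (le_of_eq ?_) h)
    exact Finset.sum_congr rfl fun j _ => abs_mul _ _
  have h2 : ((∑ j, f j * ((σ j).2 : ℕ) : ℕ) : ℝ) =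
      ((L : ℝ) - 1) / 2 * ∑ j, (f j : ℝ) +
        ∑ j, ((((σ j).2 : ℕ) : ℝ) - ((L : ℝ) - 1) / 2) * ((f j : ℝ) - T) +
        T * ∑ j, ((((σ j).2 : ℕ) : ℝ) - ((L : ℝ) - 1) / 2) := by
    rw [Finset.mul_sum, Finset.mul_sum, ← Finset.sum_add_distrib, ← Finset.sum_add_distrib]
    push_cast
    refine Finset.sum_congr rfl fun j _ => ?_
    ring
  rw [h2, h0]
  have := (abs_le.1 h1).1
  linarith

/-- **Lower bound for the logarithm of the determinant.** (project CZ, row M2; uses `det_lower`, `amgm`)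

Proof. Let `V1` be the minimum over all permutations of `∑_j r_j l_{σ j}` (`Finset.exists_min_image` over
`Finset.univ`), attained at `σ1`; `V2` similarly at `σ2` for `s_j`. `det_lower` gives `b^V1 p^V2 ≤ |det|`, so
`V1 log b + V2 log p ≤ log |det|`. For every `σ`: `∑_j l_{σ j} r_j = (L-1)/2 ∑_j r_j + ∑_j (l_{σ j} - (L-1)/2) r_j`
and `∑_j (l_{σ j} - (L-1)/2) r_j = ∑_j (l_{σ j} - (L-1)/2)(r_j - (R-1)/2)`, because
`∑_j (l_{σ j} - (L-1)/2) = K ∑_{l<L} (l - (L-1)/2) = 0`. By `amgm` its absolute value is at most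
`L R (K L + R S)/24`. So `V1 ≥ (L-1)/2 ∑ r_j - L R (KL+RS)/24`, and `V2 ≥ (L-1)/2 ∑ s_j - L S (KL+RS)/24`.
Multiply by `log b ≥ 0`, `log p ≥ 0` and add. -/
theorem log_lower {b p g h K L R S : ℕ} (hb : 1 ≤ b) (hp : 1 ≤ p)
    {pt : Fin K × Fin L → ℕ × ℕ} (hinj : Function.Injective pt) (hR : ∀ j, (pt j).1 < R ∧ (pt j).2 < S)
    (hdet : (Matrix.of (ent b p g h pt)).det ≠ 0) :
    ((L : ℝ) - 1) / 2 * ∑ j, (((pt j).1 : ℝ) * Real.log b + ((pt j).2 : ℝ) * Real.log p) -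
        (L : ℝ) * (K * L + R * S) / 24 * (R * Real.log b + S * Real.log p) ≤
      Real.log |(((Matrix.of (ent b p g h pt)).det : ℤ) : ℝ)| := by
  classical
  obtain ⟨σ1, -, h1⟩ := Finset.exists_min_image (univ : Finset (Equiv.Perm (Fin K × Fin L)))
    (fun σ => ∑ j, (pt j).1 * ((σ j).2 : ℕ)) ⟨1, mem_univ _⟩
  obtain ⟨σ2, -, h2⟩ := Finset.exists_min_image (univ : Finset (Equiv.Perm (Fin K × Fin L)))
    (fun σ => ∑ j, (pt j).2 * ((σ j).2 : ℕ)) ⟨1, mem_univ _⟩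
  have hd := det_lower hdet (fun σ => h1 σ (mem_univ _)) (fun σ => h2 σ (mem_univ _))
  have a1 := M2_low σ1 (fun j => (pt j).1) _ _ (amgm hinj hR σ1).1
  have a2 := M2_low σ2 (fun j => (pt j).2) _ _ (amgm hinj hR σ2).2
  generalize (∑ j, (pt j).1 * ((σ1 j).2 : ℕ)) = V1 at hd a1
  generalize (∑ j, (pt j).2 * ((σ2 j).2 : ℕ)) = V2 at hd a2
  have hb' : (0 : ℝ) < b := by exact_mod_cast hb
  have hp' : (0 : ℝ) < p := by exact_mod_cast hp
  have hlb : 0 ≤ Real.log b := Real.log_natCast_nonneg b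
  have hlp : 0 ≤ Real.log p := Real.log_natCast_nonneg p
  have hd' : (b : ℝ) ^ V1 * (p : ℝ) ^ V2 ≤ |(((Matrix.of (ent b p g h pt)).det : ℤ) : ℝ)| := by
    have := (Int.cast_le (R := ℝ)).2 hd
    rw [Int.cast_mul, Int.cast_pow, Int.cast_pow, Int.cast_abs, Int.cast_natCast, Int.cast_natCast] at this
    exact this
  have hlog := Real.log_le_log (by positivity) hd'
  rw [Real.log_mul (by positivity) (by positivity), Real.log_pow, Real.log_pow] at hlog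
  refine le_trans ?_ hlog
  have e1 := mul_le_mul_of_nonneg_right a1 hlb
  have e2 := mul_le_mul_of_nonneg_right a2 hlp
  have e3 : (∑ j, (((pt j).1 : ℝ) * Real.log b + ((pt j).2 : ℝ) * Real.log p)) =
      (∑ j, ((pt j).1 : ℝ)) * Real.log b + (∑ j, ((pt j).2 : ℝ)) * Real.log p := by
    rw [Finset.sum_add_distrib, Finset.sum_mul, Finset.sum_mul]
  rw [e3]
  calc _ = (((L : ℝ) - 1) / 2 * (∑ j, ((pt j).1 : ℝ)) - L * R * (K * L + R * S) / 24) * Real.log b +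
        (((L : ℝ) - 1) / 2 * (∑ j, ((pt j).2 : ℝ)) - L * S * (K * L + R * S) / 24) * Real.log p := by ring
    _ ≤ _ := add_le_add e1 e2

end Pool.Agent.CZ
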