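import Mathlib
import Pool.Agent.CZ.LDefs
import Pool.Agent.CZ.L2
import Pool.Agent.CZ.L6
import Pool.Agent.CZ.L7
import Pool.Agent.CZ.M1
import Pool.Agent.CZ.M2

set_option autoImplicit false

namespace Pool.Agent.CZ

open Finset

/-- the linear form is small -/
private theorem m3_eta {b p g h N L : ℕ} (hb : 2 ≤ b) (hp : 1 ≤ p) (hL : 1 ≤ L) (hN : 1 ≤ N)
    (hprec : 8 * L ^ 2 * 25 ^ N ≤ b ^ g) (hclose : ((p : ℤ) ^ h - (b : ℤ) ^ g) ^ 2 < 2 * (b : ℤ) ^ g) :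
    (L : ℝ) * |(h : ℝ) * Real.log p - g * Real.log b| * 5 ^ (N - 1) ≤ 1 := by
  have hb0 : (0 : ℝ) < b := by
    have : 0 < b := by omega
    exact_mod_cast this
  have hp0 : (0 : ℝ) < p := by exact_mod_cast hp
  have hL1 : (1 : ℝ) ≤ L := by exact_mod_cast hL
  set bg : ℝ := (b : ℝ) ^ g with hbg
  have hbg0 : 0 < bg := by positivity
  have hprec' : 8 * (L : ℝ) ^ 2 * 25 ^ N ≤ bg := by rw [hbg]; exact_mod_cast hprec
  have h25 : (25 : ℝ) ^ N = 25 * 25 ^ (N - 1) := by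
    rw [← pow_succ']
    congr 1
    omega
  have h251 : (1 : ℝ) ≤ 25 ^ (N - 1) := one_le_pow₀ (by norm_num)
  have hbg200 : 200 ≤ bg := by
    refine le_trans ?_ hprec'
    rw [h25]
    nlinarith [mul_le_mul (one_le_pow₀ hL1 : (1 : ℝ) ≤ (L : ℝ) ^ 2) h251 (by norm_num) (by positivity)]
  have hclose' : ((p : ℝ) ^ h - bg) ^ 2 < 2 * bg := by rw [hbg]; exact_mod_cast hclose
  set q : ℝ := (p : ℝ) ^ h / bg with hq
  have hq0 : 0 < q := by positivity
  have hqbg : (p : ℝ) ^ h = q * bg := by rw [hq]; field_simp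
  have hq2 : (q - 1) ^ 2 * bg < 2 := by
    rw [hqbg] at hclose'
    have e1 : (q * bg - bg) ^ 2 = (q - 1) ^ 2 * bg * bg := by ring
    rw [e1] at hclose'
    exact lt_of_mul_lt_mul_right hclose' hbg0.le
  have hqlt : (q - 1) ^ 2 < 1 / 100 := by
    by_contra hcon
    push Not at hcon
    nlinarith
  have hqabs := abs_lt_of_sq_lt_sq (a := q - 1) (b := 1 / 2) (by linarith) (by norm_num)
  rw [abs_lt] at hqabs
  have hlogq : (h : ℝ) * Real.log p - g * Real.log b = Real.log q := by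
    rw [hq, Real.log_div (by positivity) hbg0.ne', Real.log_pow, hbg, Real.log_pow]
  have hlog : |Real.log q| ≤ 2 * |q - 1| := by
    have h1 : Real.log q ≤ q - 1 := Real.log_le_sub_one_of_pos hq0
    have h2 : -Real.log q ≤ q⁻¹ - 1 := by
      rw [← Real.log_inv]
      exact Real.log_le_sub_one_of_pos (inv_pos.2 hq0)
    have h3 : q⁻¹ - 1 = (1 - q) * q⁻¹ := by field_simp
    have h4 : q⁻¹ ≤ 2 := by
      rw [inv_le_comm₀ hq0 (by norm_num)]
      linarith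
    rw [abs_le]
    constructor
    · rw [h3] at h2
      have h5 : (1 - q) * q⁻¹ ≤ |1 - q| * 2 :=
        mul_le_mul (le_abs_self _) h4 (inv_pos.2 hq0).le (abs_nonneg _)
      rw [abs_sub_comm] at h5
      linarith
    · have h5 := le_abs_self (q - 1)
      have h6 := abs_nonneg (q - 1)
      linarith
  rw [hlogq]
  have hsq : ((L : ℝ) * |Real.log q| * 5 ^ (N - 1)) ^ 2 ≤ 1 ^ 2 := by
    have h1 : |Real.log q| ^ 2 ≤ 4 * (q - 1) ^ 2 := by
      have h2 := pow_le_pow_left₀ (abs_nonneg _) hlog 2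
      rw [mul_pow, sq_abs (q - 1)] at h2
      linarith
    have h5 : ((5 : ℝ) ^ (N - 1)) ^ 2 = 25 ^ (N - 1) := by
      rw [← pow_mul, mul_comm (N - 1) 2, pow_mul]
      norm_num
    have h2 : ((L : ℝ) * |Real.log q| * 5 ^ (N - 1)) ^ 2 =
        (L : ℝ) ^ 2 * 25 ^ (N - 1) * |Real.log q| ^ 2 := by
      rw [mul_pow, mul_pow, h5]
      ring
    rw [h2]
    have h3 : (L : ℝ) ^ 2 * 25 ^ (N - 1) * |Real.log q| ^ 2 ≤
        (L : ℝ) ^ 2 * 25 ^ (N - 1) * (4 * (q - 1) ^ 2) :=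
      mul_le_mul_of_nonneg_left h1 (by positivity)
    refine h3.trans ?_
    rw [h25] at hprec'
    have h4 : 200 * ((L : ℝ) ^ 2 * 25 ^ (N - 1)) ≤ bg := by linarith
    have h6 : 200 * ((L : ℝ) ^ 2 * 25 ^ (N - 1)) * (q - 1) ^ 2 ≤ bg * (q - 1) ^ 2 :=
      mul_le_mul_of_nonneg_right h4 (sq_nonneg _)
    nlinarith
  exact abs_le_of_sq_le_sq' hsq (by norm_num) |>.2

private theorem m3_half {n : ℕ} {x : ℕ} (hx : x < n) :
    |(x : ℝ) - ((n : ℝ) - 1) / 2| ≤ (n : ℝ) / 2 := by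
  have h1 : (x : ℝ) + 1 ≤ n := by exact_mod_cast hx
  have h2 : (0 : ℝ) ≤ x := Nat.cast_nonneg x
  rw [abs_le]
  constructor <;> linarith

/-- **Two logarithms, core.** (project CZ, row M3; uses `exists_points`, `det_exp`, `det_center`, `perm_sum`,
`log_lower`)

Proof. `R = R2 + L - 1`, `N = K L`. Take the points of `exists_points`. `det_center` with `rb = (R-1)/2`,
`sb = (S-1)/2` gives `det = exp ((L-1)/2 ∑ ...) * det'`; with `log_lower`:
`log |det'| ≥ - L (KL+RS)/24 (R log b + S log p)`.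
The entry of `det'` is `x_j^k/k! * exp (a_c (lam x_j + θ_j))` with `x_j = h (r_j - rb) + g (s_j - sb)`,
`a_c = c.2 - (L-1)/2`, `lam = log b/h`, `θ_j = (s_j - sb) η`, `η = log p - (g/h) log b`. (For `det_exp` index by
`ι = Fin K × Fin L`, `k = fun c => (c.1 : ℕ)`, `card = K * L`.) Condition of `det_exp` for `ρ = 5`:
let `q = p^h/b^g`, `|q - 1| < sqrt (2/b^g) =: τ` by `hclose` (divide by `b^(2g)`), `τ ≤ 1/2` (as `b^g ≥ 8`), so
`h |η| = |log q| ≤ 2 |q-1| ≤ 2 τ`; `|a_c| ≤ L/2`, `|s_j - sb| ≤ S/2 ≤ h/2`; so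
`4 |a_c θ_j| 5^(N-1) ≤ 4 * (L/2) * (h/2) * (2τ/h) * 5^(N-1) = 2 L τ 5^(N-1) ≤ 1`, because
`(2 L τ 5^(N-1))^2 = 8 L^2 25^(N-1)/b^g ≤ 1` (`hprec`).
So with `perm_sum` (`ρ = 5`):
`|det'| 5^(N(N-1)/2) ≤ 2^N N! (∏_k (5B)^k/k!)^L exp (5 L(KL+RS)/24 (R log b + S (g/h) log b))`. Take logarithms
(`N(N-1)/2` is exact: `2 ∣ N (N-1)`; `∑_{k<K} k = K(K-1)/2`; `log (5B) `, `B > 0`): together with the lower bound and
`log p ≤ lp`, `(g/h) log b ≤ lp` this contradicts `hC`. -/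
theorem core {b p g h K L R2 S : ℕ} {lp B : ℝ} (hb : 2 ≤ b) (hp : 1 ≤ p) (hg : 1 ≤ g) (hgh : Nat.Coprime g h)
    (hS : 1 ≤ S) (hSh : S ≤ h) (hK : 1 ≤ K) (hL : 1 ≤ L) (hRS : (K - 1) * L < R2 * S)
    (hprec : 8 * L ^ 2 * 25 ^ (K * L) ≤ b ^ g) (hclose : ((p : ℤ) ^ h - (b : ℤ) ^ g) ^ 2 < 2 * (b : ℤ) ^ g)
    (hlp : Real.log p ≤ lp) (hlp' : (g : ℝ) / h * Real.log b ≤ lp)
    (hB : ((((R2 + L - 1 : ℕ) : ℝ) - 1) * h + ((S : ℝ) - 1) * g) / 2 ≤ B) (hB0 : 0 < B)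
    (hC : (K * L : ℝ) * Real.log 2 + Real.log ((K * L).factorial : ℝ) +
        L * ((K : ℝ) * (K - 1) / 2 * Real.log (5 * B) - ∑ k ∈ range K, Real.log (k.factorial : ℝ)) +
        6 * ((L : ℝ) * (K * L + ((R2 + L - 1 : ℕ) : ℝ) * S) / 24 *
          (((R2 + L - 1 : ℕ) : ℝ) * Real.log b + S * lp)) <
      (K * L : ℝ) * (K * L - 1) / 2 * Real.log 5) : False := by
  obtain ⟨pt, hinj, hpt, hdet⟩ := exists_points hb hp hgh hSh hK hL hRS
  generalize hR : R2 + L - 1 = R at *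
  have hN1 : 1 ≤ K * L := Nat.mul_pos hK hL
  have hh : 1 ≤ h := hS.trans hSh
  have hh0 : (0 : ℝ) < h := by exact_mod_cast hh
  have hb1 : 1 ≤ b := by omega
  have hlb : 0 ≤ Real.log b := Real.log_natCast_nonneg b
  have hlp0 : 0 ≤ Real.log p := Real.log_natCast_nonneg p
  -- the smallness condition
  have hη := m3_eta hb hp hL hN1 hprec hclose
  have hcond : ∀ i j : Fin K × Fin L, 4 * |((((i.2 : ℕ) : ℝ)) - ((L : ℝ) - 1) / 2) *
      ((((pt j).2 : ℝ) - ((S : ℝ) - 1) / 2) * (Real.log p - (g : ℝ) / h * Real.log b))| *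
        5 ^ (Fintype.card (Fin K × Fin L) - 1) ≤ 1 := by
    intro i j
    rw [Fintype.card_prod, Fintype.card_fin, Fintype.card_fin]
    refine le_trans ?_ hη
    have e1 : (h : ℝ) * Real.log p - g * Real.log b = h * (Real.log p - (g : ℝ) / h * Real.log b) := by
      field_simp
    rw [e1, abs_mul, abs_mul, abs_mul, abs_of_pos hh0]
    refine mul_le_mul_of_nonneg_right ?_ (by positivity)
    have h1 := m3_half i.2.2
    have h2 : |((pt j).2 : ℝ) - ((S : ℝ) - 1) / 2| ≤ (h : ℝ) / 2 := by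
      refine (m3_half (hpt j).2).trans ?_
      have : (S : ℝ) ≤ h := by exact_mod_cast hSh
      linarith
    set η : ℝ := |Real.log p - (g : ℝ) / h * Real.log b| with hηdef
    have hη0 : 0 ≤ η := abs_nonneg _
    have h3 : |(((i.2 : ℕ) : ℝ)) - ((L : ℝ) - 1) / 2| * |((pt j).2 : ℝ) - ((S : ℝ) - 1) / 2| ≤
        (L : ℝ) / 2 * ((h : ℝ) / 2) := mul_le_mul h1 h2 (abs_nonneg _) (by positivity)
    have h4 := mul_le_mul_of_nonneg_right h3 hη0
    linarith
  have hup := det_exp (ι := Fin K × Fin L) (ρ := 5) (lam := Real.log b / h) (by norm_num)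
    (fun j => (h : ℝ) * (((pt j).1 : ℝ) - ((R : ℝ) - 1) / 2) + g * (((pt j).2 : ℝ) - ((S : ℝ) - 1) / 2))
    (fun j => (((pt j).2 : ℝ) - ((S : ℝ) - 1) / 2) * (Real.log p - (g : ℝ) / h * Real.log b))
    (fun c => (((c.2 : ℕ) : ℝ)) - ((L : ℝ) - 1) / 2) (fun c => (c.1 : ℕ)) hcond
  have hperm := perm_sum (ρ := 5) hb1 hh (by norm_num) hinj hpt hB hB0.le
  have hcen := det_center (g := g) (h := h) hb1 hp pt (((R : ℝ) - 1) / 2) (((S : ℝ) - 1) / 2)
  have hlow := log_lower (g := g) (h := h) hb1 hp hinj hpt hdet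
  have hM : (Matrix.of fun j c : Fin K × Fin L =>
        ((h : ℝ) * (((pt j).1 : ℝ) - ((R : ℝ) - 1) / 2) + g * (((pt j).2 : ℝ) - ((S : ℝ) - 1) / 2)) ^ (c.1 : ℕ) /
            (((c.1 : ℕ).factorial : ℕ) : ℝ) *
          Real.exp ((((c.2 : ℕ) : ℝ) - ((L : ℝ) - 1) / 2) *
            ((((pt j).1 : ℝ) - ((R : ℝ) - 1) / 2) * Real.log b +
              (((pt j).2 : ℝ) - ((S : ℝ) - 1) / 2) * Real.log p))) =
      Matrix.of fun j c : Fin K × Fin L =>
        ((h : ℝ) * (((pt j).1 : ℝ) - ((R : ℝ) - 1) / 2) + g * (((pt j).2 : ℝ) - ((S : ℝ) - 1) / 2)) ^ (c.1 : ℕ) /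
            (((c.1 : ℕ).factorial : ℕ) : ℝ) *
          Real.exp ((((c.2 : ℕ) : ℝ) - ((L : ℝ) - 1) / 2) *
            (Real.log b / h * ((h : ℝ) * (((pt j).1 : ℝ) - ((R : ℝ) - 1) / 2) +
              g * (((pt j).2 : ℝ) - ((S : ℝ) - 1) / 2)) +
              (((pt j).2 : ℝ) - ((S : ℝ) - 1) / 2) * (Real.log p - (g : ℝ) / h * Real.log b))) := by
    ext j c
    simp only [Matrix.of_apply]
    congr 3
    field_simp
    ring
  rw [hM] at hcen
  beta_reduce at hup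
  generalize hD' : (Matrix.of fun j c : Fin K × Fin L =>
        ((h : ℝ) * (((pt j).1 : ℝ) - ((R : ℝ) - 1) / 2) + g * (((pt j).2 : ℝ) - ((S : ℝ) - 1) / 2)) ^ (c.1 : ℕ) /
            (((c.1 : ℕ).factorial : ℕ) : ℝ) *
          Real.exp ((((c.2 : ℕ) : ℝ) - ((L : ℝ) - 1) / 2) *
            (Real.log b / h * ((h : ℝ) * (((pt j).1 : ℝ) - ((R : ℝ) - 1) / 2) +
              g * (((pt j).2 : ℝ) - ((S : ℝ) - 1) / 2)) +
              (((pt j).2 : ℝ) - ((S : ℝ) - 1) / 2) * (Real.log p - (g : ℝ) / h * Real.log b)))).det = D'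
    at hcen hup
  have hD0 : D' ≠ 0 := by
    rintro rfl
    rw [mul_zero] at hcen
    exact hdet (by exact_mod_cast hcen)
  rw [hcen, abs_mul, abs_of_pos (Real.exp_pos _), Real.log_mul (Real.exp_pos _).ne' (abs_pos.2 hD0).ne',
    Real.log_exp] at hlow
  -- the upper bound
  have hcard : Fintype.card (Fin K × Fin L) = K * L := by
    rw [Fintype.card_prod, Fintype.card_fin, Fintype.card_fin]
  rw [hcard] at hup
  have hup2 := hup.trans (mul_le_mul_of_nonneg_left hperm (by positivity))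
  have hPk : ∀ k ∈ range K, (5 * B) ^ k / (k.factorial : ℝ) ≠ 0 := fun k _ => by positivity
  have hP : (0 : ℝ) < ∏ k ∈ range K, (5 * B) ^ k / (k.factorial : ℝ) :=
    Finset.prod_pos fun k _ => by positivity
  have hlog := Real.log_le_log (mul_pos (abs_pos.2 hD0) (by positivity)) hup2
  rw [Real.log_mul (abs_pos.2 hD0).ne' (by positivity), Real.log_mul (by positivity) (by positivity),
    Real.log_mul (by positivity) (Real.exp_pos _).ne', Real.log_exp,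
    Real.log_mul (by positivity) (by positivity), Real.log_pow, Real.log_pow, Real.log_pow,
    Real.log_prod hPk] at hlog
  have hsum : ∑ k ∈ range K, Real.log ((5 * B) ^ k / (k.factorial : ℝ)) =
      (K : ℝ) * (K - 1) / 2 * Real.log (5 * B) - ∑ k ∈ range K, Real.log (k.factorial : ℝ) := by
    have e1 : ∀ k ∈ range K, Real.log ((5 * B) ^ k / (k.factorial : ℝ)) =
        (k : ℝ) * Real.log (5 * B) - Real.log (k.factorial : ℝ) := fun k _ => by
      rw [Real.log_div (by positivity) (by positivity), Real.log_pow]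
    rw [Finset.sum_congr rfl e1, Finset.sum_sub_distrib, ← Finset.sum_mul]
    congr 2
    clear * -
    induction K with
    | zero => simp
    | succ n ih =>
      rw [Finset.sum_range_succ, ih]
      push_cast
      ring
  rw [hsum] at hlog
  have hNN : (((K * L * (K * L - 1) / 2 : ℕ)) : ℝ) = (K * L : ℝ) * (K * L - 1) / 2 := by
    have h2 : 2 ∣ K * L * (K * L - 1) := (Nat.even_mul_pred_self _).two_dvd
    rw [Nat.cast_div h2 (by norm_num), Nat.cast_mul, Nat.cast_sub hN1]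
    push_cast
    ring
  rw [hNN] at hlog
  have hcoef : (0 : ℝ) ≤ (L : ℝ) * (K * L + (R : ℝ) * S) / 24 := by positivity
  have hS0 : (0 : ℝ) ≤ S := Nat.cast_nonneg S
  have hA1 : (L : ℝ) * (K * L + R * S) / 24 * (R * Real.log b + S * Real.log p) ≤
      (L : ℝ) * (K * L + R * S) / 24 * (R * Real.log b + S * lp) :=
    mul_le_mul_of_nonneg_left (by nlinarith) hcoef
  have hA2 : (L : ℝ) * (K * L + R * S) / 24 * (R * Real.log b + S * ((g : ℝ) / h * Real.log b)) ≤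
      (L : ℝ) * (K * L + R * S) / 24 * (R * Real.log b + S * lp) :=
    mul_le_mul_of_nonneg_left (by nlinarith) hcoef
  push_cast at hlog hC
  linarith

end Pool.Agent.CZ
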