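import Mathlib

set_option autoImplicit false

namespace Pool.Agent.CZ

open Finset

/-- `K log K - K + 1/2 ≤ log K!` -/
private lemma m4_fact {K : ℕ} (hK : 1 ≤ K) : (K : ℝ) * Real.log K - K + 1 / 2 ≤ Real.log (K.factorial : ℝ) := by
  have h1 := Stirling.le_log_factorial_stirling (n := K) (by omega)
  have h2 : 0 ≤ Real.log (K : ℝ) := Real.log_nonneg (by exact_mod_cast hK)
  have h3 : (1 : ℝ) ≤ Real.log (2 * Real.pi) := by
    rw [Real.le_log_iff_exp_le (by positivity)]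
    have := Real.exp_one_lt_d9
    have := Real.pi_gt_three
    linarith
  linarith

/-- `K(K-1)/2 (log K - 3/2) ≤ ∑_{k<K} log k!` -/
private lemma m4_sum {K : ℕ} (hK : 1 ≤ K) :
    (K : ℝ) * (K - 1) / 2 * (Real.log K - 3 / 2) ≤ ∑ k ∈ range K, Real.log (k.factorial : ℝ) := by
  induction K, hK using Nat.le_induction with
  | base => simp
  | succ K hK ih =>
    rw [sum_range_succ]
    have hK0 : (0 : ℝ) < K := by exact_mod_cast hK
    have h1 := m4_fact hK
    have h2 : Real.log ((K : ℝ) + 1) ≤ Real.log K + 1 / K := by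
      have e : (K : ℝ) + 1 = K * (1 + 1 / K) := by field_simp
      rw [e, Real.log_mul hK0.ne' (by positivity)]
      have := Real.log_le_sub_one_of_pos (show (0 : ℝ) < 1 + 1 / K by positivity)
      linarith
    push_cast
    have h3 : ((K : ℝ) + 1) * (K + 1 - 1) / 2 * (Real.log (K + 1) - 3 / 2) ≤
        ((K : ℝ) + 1) * (K + 1 - 1) / 2 * (Real.log K + 1 / K - 3 / 2) := by
      apply mul_le_mul_of_nonneg_left (by linarith)
      rw [add_sub_cancel_right]
      positivity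
    have h4 : ((K : ℝ) + 1) * (K + 1 - 1) / 2 * (Real.log K + 1 / K - 3 / 2) =
        (K : ℝ) * (K - 1) / 2 * (Real.log K - 3 / 2) + (K * Real.log K - K + 1 / 2) := by
      field_simp
      ring
    linarith

/-- **Normalization of the inequality.** (project CZ, row M4; pure real analysis)

Proof. (1) `K(K-1)/2 (log K - 3/2) ≤ ∑_{k<K} log k!` for `K ≥ 1`, by induction: the step needs
`(K+1)K/2 (log (K+1) - 3/2) - K(K-1)/2 (log K - 3/2) = K log K - 3K/2 + K(K+1)/2 log (1 + 1/K) ≤ K log K - K + 1/2 ≤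
log K!` (`log (1+1/K) ≤ 1/K`; the last inequality: `K! ≥ e^(1/2) (K/e)^K`, e.g. by induction on `K ≥ 1` from
`(1 + 1/K)^K ≤ e`: `log (K+1)! - log K! = log (K+1) ≥ (K+1) log (K+1) - K log K - 1` as `K log (1+1/K) ≤ 1`; for `K = 1`:
`0 ≥ -1 + 1/2`).
(2) `log 2 * N + log N! ≤ N log (2 N)`, `N = K L ≥ 1`. Let `D = L K (K-1)/2 > 0`. Multiply the hypothesis by `D`:
`D log (B/K) + (3/2) D + L (KL+RS) X/4 + N log (2N) < D (L-1) log 5` (`D * (KL+RS) X/(2K(K-1)) = L (KL+RS) X/4`,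
`6 * L (KL+RS)/24 = L(KL+RS)/4`, `D * 2/(K-1) = K L = N`). By (1)
`L (K(K-1)/2 log (5B) - ∑ log k!) ≤ D (log 5 + log B - log K + 3/2)`, and
`N (N-1)/2 = D L + K L (L-1)/2 ≥ D L`. Add up. -/
theorem norm_ineq {K L : ℕ} {B X RS : ℝ} (hK : 2 ≤ K) (hL : 1 ≤ L) (hB : 0 < B)
    (h : Real.log (B / K) + 3 / 2 + ((K : ℝ) * L + RS) * X / (2 * K * (K - 1)) +
      2 * Real.log (2 * ((K : ℝ) * L)) / (K - 1) < ((L : ℝ) - 1) * Real.log 5) :
    (K * L : ℝ) * Real.log 2 + Real.log ((K * L).factorial : ℝ) +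
        L * ((K : ℝ) * (K - 1) / 2 * Real.log (5 * B) - ∑ k ∈ range K, Real.log (k.factorial : ℝ)) +
        6 * ((L : ℝ) * (K * L + RS) / 24 * X) <
      (K * L : ℝ) * (K * L - 1) / 2 * Real.log 5 := by
  have hk : (2 : ℝ) ≤ K := by exact_mod_cast hK
  have hl : (1 : ℝ) ≤ L := by exact_mod_cast hL
  have h5 : 0 < Real.log 5 := Real.log_pos (by norm_num)
  have hN : 1 ≤ K * L := Nat.mul_pos (by omega) (by omega)
  have hN' : (1 : ℝ) ≤ (K : ℝ) * L := by exact_mod_cast hN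
  have hs := m4_sum (K := K) (by omega)
  obtain ⟨Sg, hSg⟩ : ∃ Sg, Sg = ∑ k ∈ range K, Real.log (k.factorial : ℝ) := ⟨_, rfl⟩
  rw [← hSg] at hs ⊢
  have hf : Real.log ((K * L).factorial : ℝ) ≤ (K * L) * Real.log ((K : ℝ) * L) := by
    have h1 : (((K * L).factorial : ℕ) : ℝ) ≤ ((K : ℝ) * L) ^ (K * L) := by
      exact_mod_cast Nat.factorial_le_pow (K * L)
    have h2 := Real.log_le_log (by positivity) h1
    rw [Real.log_pow] at h2
    push_cast at h2
    exact h2
  have hlog2N : Real.log (2 * ((K : ℝ) * L)) = Real.log 2 + Real.log ((K : ℝ) * L) :=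
    Real.log_mul (by norm_num) (by positivity)
  have hBk : Real.log (B / K) = Real.log B - Real.log K := Real.log_div hB.ne' (by positivity)
  have h5B : Real.log (5 * B) = Real.log 5 + Real.log B := Real.log_mul (by norm_num) hB.ne'
  rw [hlog2N, hBk] at h
  rw [h5B]
  obtain ⟨D, hD⟩ : ∃ D : ℝ, D = L * (K * (K - 1) / 2) := ⟨_, rfl⟩
  have hD0 : 0 < D := by
    rw [hD]
    have : (0 : ℝ) < K - 1 := by linarith
    positivity
  have hm := mul_lt_mul_of_pos_left h hD0
  have hk1 : (K : ℝ) - 1 ≠ 0 := by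
    have : (0 : ℝ) < K - 1 := by linarith
    exact this.ne'
  have e1 : D * (Real.log B - Real.log K + 3 / 2 + ((K : ℝ) * L + RS) * X / (2 * K * (K - 1)) +
      2 * (Real.log 2 + Real.log ((K : ℝ) * L)) / (K - 1)) =
      D * (Real.log B - Real.log K + 3 / 2) + L * (K * L + RS) * X / 4 +
        K * L * (Real.log 2 + Real.log ((K : ℝ) * L)) := by
    rw [hD]
    field_simp
    ring
  rw [e1] at hm
  have e2 : (L : ℝ) * ((K : ℝ) * (K - 1) / 2 * (Real.log K - 3 / 2)) ≤ L * Sg :=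
    mul_le_mul_of_nonneg_left hs (by linarith)
  have e3 : (L : ℝ) * ((K : ℝ) * (K - 1) / 2 * (Real.log K - 3 / 2)) = D * (Real.log K - 3 / 2) := by
    rw [hD]; ring
  rw [e3] at e2
  have e4 : (L : ℝ) * ((K : ℝ) * (K - 1) / 2 * (Real.log 5 + Real.log B) - Sg) =
      D * (Real.log 5 + Real.log B) - L * Sg := by
    rw [hD]; ring
  have e5 : D * L * Real.log 5 ≤ (K * L : ℝ) * (K * L - 1) / 2 * Real.log 5 := by
    apply mul_le_mul_of_nonneg_right _ h5.le
    have e6 : (K * L : ℝ) * (K * L - 1) / 2 - D * L = K * L / 2 * (L - 1) := by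
      rw [hD]; ring
    have e7 : 0 ≤ (K : ℝ) * L / 2 * (L - 1) := mul_nonneg (by positivity) (by linarith)
    linarith
  rw [e4]
  have e8 : D * (((L : ℝ) - 1) * Real.log 5) = D * L * Real.log 5 - D * Real.log 5 := by ring
  rw [e8] at hm
  have e9 : 6 * ((L : ℝ) * (K * L + RS) / 24 * X) = L * (K * L + RS) * X / 4 := by ring
  rw [e9]
  have e10 : D * (Real.log B - Real.log K + 3 / 2) = D * Real.log B - D * (Real.log K - 3 / 2) := by ring
  rw [e10] at hm
  have e11 : D * (Real.log 5 + Real.log B) = D * Real.log 5 + D * Real.log B := by ring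
  rw [e11]
  have e12 : (K : ℝ) * L * (Real.log 2 + Real.log ((K : ℝ) * L)) =
    K * L * Real.log 2 + K * L * Real.log ((K : ℝ) * L) := by ring
  rw [e12] at hm
  linarith

end Pool.Agent.CZ
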