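import Mathlib

set_option autoImplicit false

namespace Pool.Agent.CZ

/-- the conditions on the parameters of the two-logarithm argument for base `2` -/
def Par (g h K L S R2 : ℕ) : Prop :=
  2 ≤ K ∧ 1 ≤ L ∧ 1 ≤ S ∧ S ≤ h ∧ (K - 1) * L < R2 * S ∧ 8 * L ^ 2 * 25 ^ (K * L) ≤ 2 ^ g ∧
    ∃ B : ℝ, 0 < B ∧ ((((R2 + L - 1 : ℕ) : ℝ) - 1) * h + ((S : ℝ) - 1) * g) / 2 ≤ B ∧
    Real.log (B / K) + 3 / 2 + ((K : ℝ) * L + ((R2 + L - 1 : ℕ) : ℝ) * S) *
        (((R2 + L - 1 : ℕ) : ℝ) * Real.log 2 + S * (((g : ℝ) + 1) * Real.log 2 / h)) / (2 * K * (K - 1)) +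
      2 * Real.log (2 * ((K : ℝ) * L)) / (K - 1) < ((L : ℝ) - 1) * Real.log 5

private lemma cz5_log5 : (1609 : ℝ) / 1000 ≤ Real.log 5 := by
  have h1 : (65 : ℝ) * Real.log 2 ≤ 28 * Real.log 5 := by
    have := Real.log_le_log (by norm_num : (0:ℝ) < 2 ^ 65) (by norm_num : (2:ℝ) ^ 65 ≤ 5 ^ 28)
    rw [Real.log_pow, Real.log_pow] at this
    exact_mod_cast this
  have h2 := Real.log_two_gt_d9
  nlinarith

private lemma cz5_log_lo {x : ℝ} (hx0 : 0 < x) (hx : x ≤ 31383 / 10) : Real.log x ≤ 806 / 100 := by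
  have h1 : (8 : ℝ) * Real.log x ≤ 93 * Real.log 2 := by
    have h3 : x ^ 8 ≤ 2 ^ 93 := by
      calc x ^ 8 ≤ (31383 / 10) ^ 8 := pow_le_pow_left₀ hx0.le hx 8
        _ ≤ 2 ^ 93 := by norm_num
    have := Real.log_le_log (by positivity) h3
    rw [Real.log_pow, Real.log_pow] at this
    exact_mod_cast this
  have h2 := Real.log_two_lt_d9
  nlinarith

private lemma cz5_log_hi {x : ℝ} (hx0 : 0 < x) (hx : x ≤ 4824) : Real.log x ≤ 850 / 100 := by
  have h1 : (4 : ℝ) * Real.log x ≤ 49 * Real.log 2 := by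
    have h3 : x ^ 4 ≤ 2 ^ 49 := by
      calc x ^ 4 ≤ (4824) ^ 4 := pow_le_pow_left₀ hx0.le hx 4
        _ ≤ 2 ^ 49 := by norm_num
    have := Real.log_le_log (by positivity) h3
    rw [Real.log_pow, Real.log_pow] at this
    exact_mod_cast this
  have h2 := Real.log_two_lt_d9
  nlinarith

/-- `log (32 k) ≤ 10.7 + (k - 1343)/1343` -/
private lemma cz5_log_k {k : ℝ} (hk : 1343 ≤ k) : Real.log (32 * k) ≤ 107 / 10 + k / 1343 - 1 := by
  have h1 : Real.log (32 * k) = Real.log 42976 + Real.log (k / 1343) := by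
    rw [← Real.log_mul (by norm_num) (by positivity)]
    congr 1
    ring
  have h2 : Real.log (k / 1343) ≤ k / 1343 - 1 := Real.log_le_sub_one_of_pos (by positivity)
  have h3 : Real.log 42976 ≤ 107 / 10 := by
    have h1 : (5 : ℝ) * Real.log 42976 ≤ 77 * Real.log 2 := by
      have := Real.log_le_log (by norm_num) (by norm_num : (42976:ℝ) ^ 5 ≤ 2 ^ 77)
      rw [Real.log_pow, Real.log_pow] at this
      exact_mod_cast this
    have h2 := Real.log_two_lt_d9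
    nlinarith
  linarith

/-- precision -/
private lemma cz5_prec {g m : ℕ} (hg : 100000 ≤ g) (hm : 3200 * m ≤ 43 * g) :
    8 * 16 ^ 2 * 25 ^ (m * 16) ≤ 2 ^ g := by
  have h1 : (25 : ℕ) ^ (m * 16) = 5 ^ (32 * m) := by
    rw [show (25 : ℕ) = 5 ^ 2 by norm_num, ← pow_mul]
    congr 1
    ring
  have h2 : (5 : ℕ) ^ 430 ≤ 2 ^ 999 := by decide +kernel
  have h3 : (8 * 16 ^ 2 * 25 ^ (m * 16)) ^ 1000 ≤ ((2 : ℕ) ^ g) ^ 1000 := by
    calc (8 * 16 ^ 2 * 25 ^ (m * 16)) ^ 1000 = (2 ^ 11 * 5 ^ (32 * m)) ^ 1000 := by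
          rw [h1, show 8 * 16 ^ 2 = 2 ^ 11 by norm_num]
      _ = 2 ^ 11000 * 5 ^ (32 * m * 1000) := by
          rw [mul_pow, ← pow_mul, ← pow_mul]
      _ ≤ 2 ^ 11000 * 5 ^ (430 * g) := by
          apply Nat.mul_le_mul_left
          apply Nat.pow_le_pow_right (by norm_num)
          omega
      _ = 2 ^ 11000 * (5 ^ 430) ^ g := by rw [pow_mul]
      _ ≤ 2 ^ 11000 * (2 ^ 999) ^ g := by
          apply Nat.mul_le_mul_left
          exact Nat.pow_le_pow_left h2 g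
      _ = 2 ^ (11000 + 999 * g) := by rw [← pow_mul, ← pow_add]
      _ ≤ 2 ^ (g * 1000) := by
          apply Nat.pow_le_pow_right (by norm_num)
          omega
      _ = (2 ^ g) ^ 1000 := by rw [pow_mul]
  exact (Nat.pow_le_pow_iff_left (Nat.succ_ne_zero 999)).1 h3

/-- real inequality -/
private lemma cz5_real {g h k R : ℝ} (hk : 1343 ≤ k) (hg : g ≤ 3200 * (k + 1) / 43) (hg0 : 0 ≤ g)
    (h1 : 4096 ≤ h) (h2 : h ≤ 16384) (hR0 : 15 ≤ R) (hR : R ≤ 2 / 5 * (k - 1) + 16) :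
    Real.log (((R - 1) * h + (40 - 1) * g) / 2 / k) + 3 / 2 + (k * 16 + R * 40) *
        (R * Real.log 2 + 40 * ((g + 1) * Real.log 2 / h)) / (2 * k * (k - 1)) +
      2 * Real.log (2 * (k * 16)) / (k - 1) < (16 - 1) * Real.log 5 := by
  have l5 := cz5_log5
  have l2 := Real.log_two_lt_d9
  have l2' := Real.log_two_gt_d9
  have hkp : 0 < k := by linarith
  have hkp' : 0 < k - 1 := by linarith
  have hh : 0 < h := by linarith
  have hB : ((R - 1) * h + (40 - 1) * g) / 2 / k ≤ 2056 / 10000 * h + 1454 := by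
    rw [div_div, div_le_iff₀ (by positivity)]
    have a1 : (R - 1) * h ≤ (2 / 5 * (k - 1) + 15) * h := by
      apply mul_le_mul_of_nonneg_right _ hh.le
      linarith
    have a2 : (15 : ℝ) ≤ 15 / 1343 * k := by
      rw [div_mul_eq_mul_div, le_div_iff₀ (by norm_num)]
      linarith
    have a3 : (2 / 5 * (k - 1) + 15) * h ≤ (4112 / 10000 * k) * h := by
      apply mul_le_mul_of_nonneg_right _ hh.le
      linarith
    nlinarith
  have hlogk : 2 * Real.log (2 * (k * 16)) / (k - 1) ≤ 2 / 100 := by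
    rw [div_le_iff₀ hkp']
    have := cz5_log_k hk
    rw [show 2 * (k * 16) = 32 * k by ring]
    have a2 : k / 1343 * 1343 = k := by field_simp
    nlinarith
  have hmid : (k * 16 + R * 40) *
        (R * Real.log 2 + 40 * ((g + 1) * Real.log 2 / h)) / (2 * k * (k - 1)) ≤
        1624 / 100 * (2856 / 10000 + 2070 / h) := by
    rw [div_le_iff₀ (by positivity)]
    have a1 : k * 16 + R * 40 ≤ 3248 / 100 * k := by linarith
    have a2 : R * Real.log 2 ≤ 2856 / 10000 * (k - 1) := by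
      have : R * Real.log 2 ≤ R * (6932 / 10000) := by
        apply mul_le_mul_of_nonneg_left _ (by linarith)
        linarith
      linarith
    have a3 : 40 * ((g + 1) * Real.log 2 / h) ≤ 2070 / h * (k - 1) := by
      rw [show 40 * ((g + 1) * Real.log 2 / h) = (40 * ((g + 1) * Real.log 2)) / h by ring,
        div_mul_eq_mul_div]
      apply div_le_div_of_nonneg_right _ hh.le
      have : (g + 1) * Real.log 2 ≤ (g + 1) * (6932 / 10000) := by
        apply mul_le_mul_of_nonneg_left _ (by linarith)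
        linarith
      linarith
    calc (k * 16 + R * 40) * (R * Real.log 2 + 40 * ((g + 1) * Real.log 2 / h))
        ≤ (3248 / 100 * k) * (2856 / 10000 * (k - 1) + 2070 / h * (k - 1)) := by
          apply mul_le_mul a1 (by linarith) _ (by positivity)
          positivity
      _ = 1624 / 100 * (2856 / 10000 + 2070 / h) * (2 * k * (k - 1)) := by ring
  have hpos : 0 < ((R - 1) * h + (40 - 1) * g) / 2 / k := by
    apply div_pos _ hkp
    apply div_pos _ (by norm_num)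
    have : 0 < (R - 1) * h := mul_pos (by linarith) hh
    linarith
  rcases le_total h 8192 with hc | hc
  · have b1 := cz5_log_lo hpos (by linarith)
    have b2 : 2070 / h ≤ 2070 / 4096 := by
      apply div_le_div_of_nonneg_left (by norm_num) (by norm_num) h1
    linarith
  · have b1 := cz5_log_hi hpos (by linarith)
    have b2 : 2070 / h ≤ 2070 / 8192 := by
      apply div_le_div_of_nonneg_left (by norm_num) (by norm_num) hc
    linarith

/-- **Parameters, `4096 ≤ h < 16384`.** (project CZ, row M5)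

Proof. `L = 16`, `S = 40`, `K = 43 g / 3200` (natural division), `R2 = 2 (K - 1) / 5 + 1` (natural division), so
`K ≥ 1343`, `R2 S > 16 (K-1)`, `R = R2 + 15 ≤ 0.4 (K-1) + 16`, `K ≤ 43 g/3200`, `K - 1 ≥ 43 g/3200 - 2`, hence
`g ≤ 74.53 (K - 1)` (`g ≥ 100000`), `K L ≤ 43 g/200`.
Precision: `8 * 256 * 25^(K L) ≤ 2^g`: `25^(KL) = 5^(2KL)`, `2 K L ≤ 43 g/100`, `5^430 ≤ 2^999` (numerically
`5^430 * 2 ≤ 2^1000`), so `(2^11 5^(2KL))^1000 ≤ 2^11000 5^(430 g) ≤ 2^(11000 + 999 g) ≤ 2^(1000 g)`.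
Inequality, `B := ((R-1) h + (S-1) g)/2`: `(KL + RS)/(2K) ≤ (32 K + 624)/(2K) ≤ 16.24`;
`R log 2/(K-1) ≤ (0.4 + 16/1342) * 0.6932 ≤ 0.2856`; `S (g+1) log 2/(h (K-1)) ≤ 40 * 74.54 * 0.6932/h ≤ 2067/h`;
`B/K ≤ ((0.4 + 15/1343) h + 39 * 74.53)/2 ≤ 0.2056 h + 1454`; `2 log (2KL)/(K-1) ≤ 0.02` (`log x / x` type bound:
`K ≥ 1343`; e.g. `log (32 K) ≤ log (32 * 1343) + (K-1343)/1343`, so the quotient is at most
`2 (10.7 + K/1343)/(K-1) ≤ 0.018`).
`h < 8192`: `log (0.2056 * 8192 + 1454) = log 3138.3 ≤ 8.052`, middle term `≤ 16.24 (0.2856 + 2067/4096) ≤ 12.84`;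
sum `≤ 8.052 + 1.5 + 12.84 + 0.02 = 22.42 < 24.14 ≤ 15 log 5`. `8192 ≤ h < 16384`:
`log (0.2056 * 16384 + 1454) ≤ log 4823 ≤ 8.482`, middle term `≤ 16.24 (0.2856 + 2067/8192) ≤ 8.74`; sum `≤ 18.75`.
(`log 5 ≥ 1.6094`: from `5^3 = 125 < 128`? no: `5^28 > 2^65`, `log 5 ≥ 65/28 * 0.693147 = 1.6091`, which is enough:
`15 * 1.6091 = 24.13`. `log 3138.3 ≤ log 4096 - log (4096/3138.3)`, or `3138.3 ≤ 2^12 * 0.7662`; use
`Real.log_le_sub_one_of_pos` after factoring a power of two, or `2^(581/50)`: `3138.3^50 ≤ 2^581`.) -/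
theorem params_lo {g h : ℕ} (hg : 100000 ≤ g) (h1 : 4096 ≤ h) (h2 : h < 16384) :
    ∃ K L S R2 : ℕ, Par g h K L S R2 := by
  refine ⟨43 * g / 3200, 16, 40, 2 * (43 * g / 3200 - 1) / 5 + 1, ?_⟩
  have hKlo : 1343 ≤ 43 * g / 3200 := by omega
  have hm : 3200 * (43 * g / 3200) ≤ 43 * g := by omega
  have hm' : 43 * g < 3200 * (43 * g / 3200 + 1) := by omega
  generalize 43 * g / 3200 = K at *
  have hR : 5 * (2 * (K - 1) / 5 + 1) ≤ 2 * (K - 1) + 5 := by omega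
  have hR' : 2 * (K - 1) < 5 * (2 * (K - 1) / 5 + 1) := by omega
  generalize 2 * (K - 1) / 5 + 1 = R2 at *
  refine ⟨by omega, by omega, by omega, by omega, by omega, cz5_prec hg hm, ?_⟩
  have hKr : (1343 : ℝ) ≤ K := by exact_mod_cast hKlo
  have hRr : (((R2 + 16 - 1 : ℕ) : ℝ)) ≤ 2 / 5 * ((K : ℝ) - 1) + 16 := by
    have h3 : 5 * (R2 + 16 - 1) + 2 ≤ 2 * K + 80 := by omega
    have h4 : ((5 * (R2 + 16 - 1) + 2 : ℕ) : ℝ) ≤ ((2 * K + 80 : ℕ) : ℝ) := by exact_mod_cast h3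
    push_cast [-Nat.cast_sub] at h4 ⊢
    linarith
  have hR0 : (15 : ℝ) ≤ (((R2 + 16 - 1 : ℕ) : ℝ)) := by
    have h3 : 15 ≤ R2 + 16 - 1 := by omega
    exact_mod_cast h3
  have hgr : (g : ℝ) ≤ 3200 * ((K : ℝ) + 1) / 43 := by
    rw [le_div_iff₀ (by norm_num)]
    have h3 : g * 43 ≤ 3200 * (K + 1) := by omega
    exact_mod_cast h3
  have hh1 : (4096 : ℝ) ≤ h := by exact_mod_cast h1
  have hh2 : (h : ℝ) ≤ 16384 := by exact_mod_cast h2.le
  generalize (((R2 + 16 - 1 : ℕ) : ℝ)) = R at *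
  have key := cz5_real hKr hgr (Nat.cast_nonneg g) hh1 hh2 hR0 hRr
  refine ⟨((R - 1) * h + (40 - 1) * g) / 2, ?_, ?_, ?_⟩
  · have : 0 < (R - 1) * (h : ℝ) := mul_pos (by linarith) (by linarith)
    have : (0 : ℝ) ≤ g := Nat.cast_nonneg g
    apply div_pos _ (by norm_num)
    linarith
  · push_cast
    exact le_rfl
  · push_cast
    exact key

end Pool.Agent.CZ
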