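import Mathlib
import Pool.Agent.CZ.M5

set_option autoImplicit false

namespace Pool.Agent.CZ

private theorem M6_growth (j : ℕ) (hj : 7 ≤ j) :
    128 * (j + 7) ^ 2 ≤ 196 * 2 ^ j ∧ 128 * (j + 7) ≤ 14 * 2 ^ j ∧ 8 * (j + 7) ^ 2 ≤ 2 ^ (j + 7) := by
  induction j, hj using Nat.le_induction with
  | base => norm_num
  | succ n hn ih =>
    obtain ⟨h1, h2, h3⟩ := ih
    refine ⟨?_, ?_, ?_⟩
    · rw [pow_succ 2 n]
      nlinarith
    · rw [pow_succ 2 n]
      nlinarith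
    · rw [show n + 1 + 7 = (n + 7) + 1 by ring, pow_succ 2 (n + 7)]
      nlinarith

private theorem M6_growth' (j : ℕ) (hj : 9 ≤ j) : 32 * (j + 7) ≤ 2 ^ j ∧ 512 ≤ 2 ^ j := by
  induction j, hj using Nat.le_induction with
  | base => norm_num
  | succ n hn ih =>
    obtain ⟨h1, h2⟩ := ih
    rw [pow_succ]
    constructor
    · nlinarith
    · nlinarith

private theorem M6_prec {g K L : ℕ} (h1 : 200 * (K * L) ≤ 43 * g)
    (h2 : (8 * L ^ 2) ^ 1000 ≤ 2 ^ g) : 8 * L ^ 2 * 25 ^ (K * L) ≤ 2 ^ g := by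
  have h3 : (5 : ℕ) ^ 430 ≤ 2 ^ 999 := by decide +kernel
  rw [← Nat.pow_le_pow_iff_left (n := 1000) (by norm_num), mul_pow]
  have h4 : (25 ^ (K * L)) ^ 1000 ≤ (2 ^ (999 * g) : ℕ) := by
    calc (25 ^ (K * L)) ^ 1000 = 5 ^ (2000 * (K * L)) := by
          rw [show (25 : ℕ) = 5 ^ 2 by norm_num, ← pow_mul, ← pow_mul]
          congr 1
          ring
      _ ≤ 5 ^ (430 * g) := Nat.pow_le_pow_right (by norm_num) (by omega)
      _ = (5 ^ 430) ^ g := by rw [pow_mul]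
      _ ≤ (2 ^ 999) ^ g := Nat.pow_le_pow_left h3 g
      _ = 2 ^ (999 * g) := by rw [pow_mul]
  calc (8 * L ^ 2) ^ 1000 * (25 ^ (K * L)) ^ 1000 ≤ 2 ^ g * 2 ^ (999 * g) := Nat.mul_le_mul h2 h4
    _ = (2 ^ g) ^ 1000 := by
      rw [← pow_add, ← pow_mul]
      congr 1
      ring

private theorem M6_logK {K L : ℝ} (hL : 14 ≤ L) (hK : 1400 ≤ K) (hKL : 90 * L + 1 ≤ K) :
    2 * Real.log (2 * (K * L)) / (K - 1) ≤ 3 / 100 := by
  have hl2 := Real.log_two_lt_d9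
  have h1 : Real.log (2 * (K * L)) ≤ Real.log (K ^ 2) := by
    apply Real.log_le_log (by positivity)
    nlinarith
  have h2 : Real.log (K ^ 2) = 2 * Real.log K := by
    rw [Real.log_pow]
    norm_num
  have h3 : Real.log K = Real.log (K / 1024) + 10 * Real.log 2 := by
    rw [Real.log_div (by positivity) (by norm_num), show (1024 : ℝ) = 2 ^ 10 by norm_num,
      Real.log_pow]
    push_cast
    ring
  have h4 : Real.log (K / 1024) ≤ K / 1024 - 1 := Real.log_le_sub_one_of_pos (by positivity)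
  rw [div_le_iff₀ (by linarith)]
  linarith

private theorem M6_gK {g K L : ℝ} (hL : 14 ≤ L) (hK : 1400 ≤ K)
    (hK2 : 43 * g ≤ 200 * ((K + 1) * L)) : g + 1 ≤ 468 / 100 * L * (K - 1) := by
  nlinarith

private theorem M6_mid {K L t g h R S : ℝ} (hL : 14 ≤ L) (hLt2 : 128 * L ^ 2 ≤ 196 * t) (ht : 128 ≤ t)
    (hS : S = 5 / 8 * t) (h1 : t ^ 2 ≤ h) (hg : 100000 ≤ g) (hK2 : 43 * g ≤ 200 * ((K + 1) * L))
    (hK : 1400 ≤ K) (hKL : 90 * L + 1 ≤ K) (hKS : 21 / 4 * t ≤ K) (hR0 : 1 < R)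
    (hR : R * S ≤ (K - 1) * L + L * S) :
    (K * L + R * S) * (R * Real.log 2 + S * ((g + 1) * Real.log 2 / h)) / (2 * K * (K - 1)) ≤
      51 / 10 + 83 / 10000 * L := by
  have ht0 : 0 < t := by linarith
  have hS0 : 0 < S := by rw [hS]; positivity
  have hh0 : 0 < h := lt_of_lt_of_le (by positivity) h1
  have hK0 : 0 < K := by linarith
  have hK1 : 0 < K - 1 := by linarith
  have hgK := M6_gK hL hK hK2
  have hl2 := Real.log_two_lt_d9
  have hl0 : 0 < Real.log 2 := Real.log_pos (by norm_num)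
  -- first factor
  have hA : (K * L + R * S) / (2 * K) ≤ 106 / 100 * L := by
    rw [div_le_iff₀ (by positivity)]
    nlinarith [mul_le_mul_of_nonneg_left hKS (by linarith : 0 ≤ L)]
  have hA0 : 0 ≤ (K * L + R * S) / (2 * K) := by positivity
  -- second factor
  have hR' : R ≤ 8 / 5 * (L / t) * (K - 1) + (K - 1) / 90 := by
    have h5 : R ≤ ((K - 1) * L + L * S) / S := by
      rw [le_div_iff₀ hS0]
      exact hR
    have h6 : ((K - 1) * L + L * S) / S = 8 / 5 * (L / t) * (K - 1) + L := by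
      rw [hS]
      field_simp
    rw [h6] at h5
    linarith
  have hG : S * ((g + 1) / h) ≤ 2925 / 1000 * (L / t) * (K - 1) := by
    have h5 : (g + 1) / h ≤ (468 / 100 * L * (K - 1)) / t ^ 2 :=
      div_le_div₀ (by positivity) hgK (by positivity) h1
    calc S * ((g + 1) / h) ≤ S * ((468 / 100 * L * (K - 1)) / t ^ 2) :=
          mul_le_mul_of_nonneg_left h5 hS0.le
      _ = 2925 / 1000 * (L / t) * (K - 1) := by
          rw [hS]
          field_simp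
          ring
  have hB : (R + S * ((g + 1) / h)) / (K - 1) ≤ 4525 / 1000 * (L / t) + 1 / 90 := by
    rw [div_le_iff₀ hK1]
    linarith
  have hB0 : 0 ≤ (R + S * ((g + 1) / h)) / (K - 1) := by positivity
  have hx : L * (L / t) ≤ 196 / 128 := by
    rw [← mul_div_assoc, div_le_iff₀ ht0]
    nlinarith
  have hx0 : 0 ≤ L / t := by positivity
  have e : (K * L + R * S) * (R * Real.log 2 + S * ((g + 1) * Real.log 2 / h)) / (2 * K * (K - 1)) =
      (K * L + R * S) / (2 * K) * ((R + S * ((g + 1) / h)) / (K - 1)) * Real.log 2 := by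
    field_simp
  rw [e]
  calc (K * L + R * S) / (2 * K) * ((R + S * ((g + 1) / h)) / (K - 1)) * Real.log 2 ≤
      (106 / 100 * L) * (4525 / 1000 * (L / t) + 1 / 90) * (6932 / 10000) := by
        apply mul_le_mul
        · exact mul_le_mul hA hB hB0 (by positivity)
        · linarith
        · exact hl0.le
        · positivity
    _ = (106 / 100) * (6932 / 10000) * (4525 / 1000 * (L * (L / t)) + L / 90) := by ring
    _ ≤ 51 / 10 + 83 / 10000 * L := by linarith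

private theorem M6_B {K L t g h R S : ℝ} (hL : 14 ≤ L) (hLt : 128 * L ≤ 14 * t) (ht : 128 ≤ t)
    (hS : S = 5 / 8 * t) (h1 : t ^ 2 ≤ h) (h2 : h ≤ 4 * t ^ 2) (hgh : 158 * h ≤ 100 * g + 100)
    (hg : 100000 ≤ g) (hK2 : 43 * g ≤ 200 * ((K + 1) * L))
    (hK : 1400 ≤ K) (hR : R * S ≤ (K - 1) * L + L * S) :
    ((R - 1) * h + (S - 1) * g) / 2 / K ≤ 483 / 100 * L * t := by
  have ht0 : 0 < t := by linarith
  have hS0 : 0 < S := by rw [hS]; positivity
  have hh0 : 0 < h := lt_of_lt_of_le (by positivity) h1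
  have hK0 : 0 < K := by linarith
  have hK1 : 0 < K - 1 := by linarith
  have hL0 : 0 < L := by linarith
  have hgK := M6_gK hL hK hK2
  have hR' : R ≤ 8 / 5 * (L / t) * (K - 1) + L := by
    have h5 : R ≤ ((K - 1) * L + L * S) / S := by
      rw [le_div_iff₀ hS0]
      exact hR
    have h6 : ((K - 1) * L + L * S) / S = 8 / 5 * (L / t) * (K - 1) + L := by
      rw [hS]
      field_simp
    rwa [h6] at h5
  have hx0 : 0 ≤ L / t := by positivity
  have hRh : R * h ≤ 64 / 10 * (L * t) * K + 325 / 1000 * (L * t) * K := by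
    have h5 : R * h ≤ (8 / 5 * (L / t) * (K - 1) + L) * h := mul_le_mul_of_nonneg_right hR' hh0.le
    have h6 : 8 / 5 * (L / t) * (K - 1) * h ≤ 8 / 5 * (L / t) * (K - 1) * (4 * t ^ 2) :=
      mul_le_mul_of_nonneg_left h2 (by positivity)
    have h7 : 8 / 5 * (L / t) * (K - 1) * (4 * t ^ 2) = 64 / 10 * (L * t) * (K - 1) := by
      field_simp
      ring
    have h8 : L * h ≤ L * (2963 / 1000 * L * K) := by
      apply mul_le_mul_of_nonneg_left _ hL0.le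
      nlinarith
    have h9 : L * (2963 / 1000 * L * K) ≤ 325 / 1000 * (L * t) * K := by
      have : L * K * (128 * L) ≤ L * K * (14 * t) := mul_le_mul_of_nonneg_left hLt (by positivity)
      nlinarith
    have h10 : 64 / 10 * (L * t) * (K - 1) ≤ 64 / 10 * (L * t) * K :=
      mul_le_mul_of_nonneg_left (by linarith) (by positivity)
    nlinarith
  have hSg : S * g ≤ 2925 / 1000 * (L * t) * K := by
    have h5 : S * (g + 1) ≤ S * (468 / 100 * L * (K - 1)) := mul_le_mul_of_nonneg_left hgK hS0.le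
    have h6 : S * (468 / 100 * L * (K - 1)) = 2925 / 1000 * (L * t) * (K - 1) := by
      rw [hS]
      ring
    have h10 : 2925 / 1000 * (L * t) * (K - 1) ≤ 2925 / 1000 * (L * t) * K :=
      mul_le_mul_of_nonneg_left (by linarith) (by positivity)
    nlinarith
  rw [div_div, div_le_iff₀ (by positivity)]
  have : 0 ≤ L * t * K := by positivity
  nlinarith

private theorem M6_main {K L t g h R S : ℝ} {j : ℕ} (hLj : L = j + 7) (htj : t = 2 ^ j)
    (hL : 14 ≤ L) (hLt : 128 * L ≤ 14 * t) (hLt2 : 128 * L ^ 2 ≤ 196 * t) (ht : 128 ≤ t)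
    (hS : S = 5 / 8 * t) (h1 : t ^ 2 ≤ h) (h2 : h ≤ 4 * t ^ 2) (hgh : 158 * h ≤ 100 * g + 100)
    (hg : 100000 ≤ g) (hK2 : 43 * g ≤ 200 * ((K + 1) * L))
    (hK : 1400 ≤ K) (hKL : 90 * L + 1 ≤ K) (hKS : 21 / 4 * t ≤ K) (hR0 : 1 < R)
    (hR : R * S ≤ (K - 1) * L + L * S) :
    Real.log (((R - 1) * h + (S - 1) * g) / 2 / K) + 3 / 2 +
      (K * L + R * S) * (R * Real.log 2 + S * ((g + 1) * Real.log 2 / h)) / (2 * K * (K - 1)) +
      2 * Real.log (2 * (K * L)) / (K - 1) < (L - 1) * Real.log 5 := by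
  have e1 := M6_mid hL hLt2 ht hS h1 hg hK2 hK hKL hKS hR0 hR
  have e2 := M6_B hL hLt ht hS h1 h2 hgh hg hK2 hK hR
  have e3 := M6_logK hL hK hKL
  have ht0 : 0 < t := by linarith
  have hK0 : 0 < K := by linarith
  have hh0 : 0 < h := lt_of_lt_of_le (by positivity) h1
  have hL0 : 0 < L := by linarith
  have hS1 : 0 < S - 1 := by rw [hS]; linarith
  have hB0 : 0 < ((R - 1) * h + (S - 1) * g) / 2 / K := by
    have : 0 < R - 1 := by linarith
    positivity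
  have e4 : Real.log (((R - 1) * h + (S - 1) * g) / 2 / K) ≤ Real.log (483 / 100 * L * t) :=
    Real.log_le_log hB0 e2
  have e5 : Real.log (483 / 100 * L * t) = Real.log (483 / 6400 * L) + (L - 1) * Real.log 2 := by
    have h3 : 483 / 100 * L * t = (483 / 6400 * L) * 2 ^ (j + 6) := by
      rw [htj, pow_add]
      ring
    rw [h3, Real.log_mul (by positivity) (by positivity), Real.log_pow, hLj]
    push_cast
    ring
  have e6 : Real.log (483 / 6400 * L) ≤ 483 / 6400 * L - 1 :=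
    Real.log_le_sub_one_of_pos (by positivity)
  have e7 : 2 * Real.log 2 ≤ Real.log 5 := by
    have : Real.log (2 ^ 2 : ℝ) ≤ Real.log 5 := Real.log_le_log (by norm_num) (by norm_num)
    rwa [Real.log_pow, Nat.cast_ofNat] at this
  have e8 : (L - 1) * (2 * Real.log 2) ≤ (L - 1) * Real.log 5 :=
    mul_le_mul_of_nonneg_left e7 (by linarith)
  have e9 := Real.log_two_gt_d9
  have e10 : (L - 1) * 0.6931471803 ≤ (L - 1) * Real.log 2 :=
    mul_le_mul_of_nonneg_left e9.le (by linarith)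
  linarith

private theorem M6_fin {g h K L S t i j Q : ℕ} (hg : 100000 ≤ g) (hgh : 158 * h ≤ 100 * g + 100)
    (htj : t = 2 ^ j) (hLj : L = j + 7) (hSi : S = 5 * 2 ^ i) (hji : j = i + 3)
    (gr1 : 128 * L ^ 2 ≤ 196 * t) (gr2 : 128 * L ≤ 14 * t) (gr3 : 8 * L ^ 2 ≤ 2 ^ L)
    (hj : 7 ≤ j) (ht : 128 ≤ t) (hj1 : t ^ 2 ≤ h) (hj2 : h < t ^ 2 * 4)
    (hK1 : 200 * (K * L) ≤ 43 * g) (hK2 : 43 * g ≤ 200 * ((K + 1) * L))
    (k1 : 1401 ≤ K) (k2 : 90 * L + 2 ≤ K) (k3 : 42 * 2 ^ i ≤ K) (l4 : 1000 * L ≤ g)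
    (hQ1 : Q * S ≤ (K - 1) * L) (hQ2 : (K - 1) * L < (Q + 1) * S) :
    ∃ K L S R2 : ℕ, Par g h K L S R2 := by
  have htu : t = 8 * 2 ^ i := by
    rw [htj, hji, pow_add]
    ring
  have hprec : 8 * L ^ 2 * 25 ^ (K * L) ≤ 2 ^ g := by
    apply M6_prec hK1
    calc (8 * L ^ 2) ^ 1000 ≤ (2 ^ L) ^ 1000 := Nat.pow_le_pow_left gr3 1000
      _ = 2 ^ (1000 * L) := by rw [← pow_mul, mul_comm]
      _ ≤ 2 ^ g := Nat.pow_le_pow_right (by norm_num) l4
  have hSh : S ≤ h := by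
    have : t * 1 ≤ t * t := Nat.mul_le_mul_left t (by omega)
    rw [← pow_two] at this
    omega
  -- the real inequality
  have hR : (((Q + 1) + L - 1 : ℕ) : ℝ) = (Q : ℝ) + L := by
    rw [show Q + 1 + L - 1 = Q + L by omega]
    push_cast
    ring
  have hKm : ((K - 1 : ℕ) : ℝ) = (K : ℝ) - 1 := by
    rw [Nat.cast_sub (by omega), Nat.cast_one]
  have c1 : (Q : ℝ) * S ≤ ((K : ℝ) - 1) * L := by
    rw [← hKm]
    exact_mod_cast hQ1
  have cL : (14 : ℝ) ≤ L := by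
    have : 14 ≤ L := by omega
    exact_mod_cast this
  have cLt : (128 : ℝ) * L ≤ 14 * t := by exact_mod_cast gr2
  have cLt2 : (128 : ℝ) * (L : ℝ) ^ 2 ≤ 196 * t := by exact_mod_cast gr1
  have ct : (128 : ℝ) ≤ t := by exact_mod_cast ht
  have cS : (S : ℝ) = 5 / 8 * t := by
    have h8 : 8 * S = 5 * t := by omega
    have : (8 : ℝ) * S = 5 * t := by exact_mod_cast h8
    linarith
  have ch1 : (t : ℝ) ^ 2 ≤ h := by exact_mod_cast hj1
  have ch2 : (h : ℝ) ≤ 4 * (t : ℝ) ^ 2 := by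
    have : h ≤ 4 * t ^ 2 := by omega
    exact_mod_cast this
  have cgh : (158 : ℝ) * h ≤ 100 * g + 100 := by exact_mod_cast hgh
  have cg : (100000 : ℝ) ≤ g := by exact_mod_cast hg
  have cK2 : (43 : ℝ) * g ≤ 200 * (((K : ℝ) + 1) * L) := by exact_mod_cast hK2
  have cK : (1400 : ℝ) ≤ K := by
    have : 1400 ≤ K := by omega
    exact_mod_cast this
  have cKL : (90 : ℝ) * L + 1 ≤ K := by
    have : 90 * L + 1 ≤ K := by omega
    exact_mod_cast this
  have cKS : (21 / 4 : ℝ) * t ≤ K := by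
    have : 21 * t ≤ 4 * K := by omega
    have : (21 : ℝ) * t ≤ 4 * K := by exact_mod_cast this
    linarith
  have cR0 : (1 : ℝ) < (Q : ℝ) + L := by
    have : (0 : ℝ) ≤ Q := Nat.cast_nonneg _
    linarith
  have cR : ((Q : ℝ) + L) * S ≤ ((K : ℝ) - 1) * L + L * S := by linarith
  have cLj : (L : ℝ) = (j : ℝ) + 7 := by
    rw [hLj]
    push_cast
    ring
  have ctj : (t : ℝ) = 2 ^ j := by
    rw [htj]
    push_cast
    rfl
  have main := M6_main cLj ctj cL cLt cLt2 ct cS ch1 ch2 cgh cg cK2 cK cKL cKS cR0 cR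
  have hS1 : 1 ≤ S := by omega
  refine ⟨K, L, S, Q + 1, by omega, by omega, hS1, hSh, hQ2, hprec,
    ((((Q : ℝ) + L) - 1) * h + ((S : ℝ) - 1) * g) / 2, ?_, ?_, ?_⟩
  · have a1 : (0 : ℝ) < h := lt_of_lt_of_le (by positivity) ch1
    have a2 : (0 : ℝ) < (S : ℝ) - 1 := by rw [cS]; linarith
    have a3 : (0 : ℝ) < (Q : ℝ) + L - 1 := by linarith
    have a4 : (0 : ℝ) < g := by linarith
    positivity
  · rw [hR]
  · rw [hR]
    exact main

private theorem M6_low {g h L t i j : ℕ} (hg : 100000 ≤ g) (hgh : 158 * h ≤ 100 * g + 100)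
    (htj : t = 2 ^ j) (hLj : L = j + 7) (hji : j = i + 3) (hj : 7 ≤ j) (hj1 : t ^ 2 ≤ h) :
    1401 * (200 * L) ≤ 43 * g ∧ (90 * L + 2) * (200 * L) ≤ 43 * g ∧
      42 * 2 ^ i * (200 * L) ≤ 43 * g ∧ 1000 * L ≤ g := by
  have htu : t = 8 * 2 ^ i := by
    rw [htj, hji, pow_add]
    ring
  rcases Nat.lt_or_ge j 9 with h9 | h9
  · have h10 : i = 4 ∨ i = 5 := by omega
    rcases h10 with h10 | h10
    · have hL14 : L = 14 := by omega
      rw [hL14, h10]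
      omega
    · have hL15 : L = 15 := by omega
      rw [hL15, h10]
      omega
  · obtain ⟨h11, h12⟩ := M6_growth' j h9
    rw [← htj] at h11 h12
    rw [← hLj] at h11
    have a1 : 16384 * L ≤ t ^ 2 := by nlinarith
    have a2 : 1024 * L ^ 2 ≤ t ^ 2 := by nlinarith
    have a3 : 32 * (L * t) ≤ t ^ 2 := by nlinarith
    have a4 : 158 * t ^ 2 ≤ 100 * g + 100 := by omega
    have a5 : L ≤ L ^ 2 := by nlinarith
    have a6 : L * t = 8 * (2 ^ i * L) := by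
      rw [htu]
      ring
    refine ⟨by omega, ?_, ?_, by omega⟩
    · have : (90 * L + 2) * (200 * L) = 18000 * L ^ 2 + 400 * L := by ring
      rw [this]
      omega
    · have : 42 * 2 ^ i * (200 * L) = 8400 * (2 ^ i * L) := by ring
      rw [this]
      omega

/-- **Parameters, `h ≥ 16384`.** (project CZ, row M6) (`hgh` is `h log 3 ≤ (g+1) log 2`, rounded.)

Proof. Let `4^j ≤ h < 4^(j+1)`, `j ≥ 7`. `L = j + 7`, `S = 5 * 2^(j-3)`, `K = 43 g/(200 L)` (natural division),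
`R2 = (K-1) L / S + 1` (natural division), `R = R2 + L - 1 ≤ (K-1) L/S + L`, `N = K L ≤ 43 g/200`.
`g ≥ 1.58 h - 1 ≥ 1.57 * 4^j` and `g ≥ 100000`; `K + 1 ≥ 0.215 g/L`. For `j = 7`: `K ≥ 1534`; for `j ≥ 8`:
`K ≥ 0.33 * 4^j/(j+7) ≥ ...` (at `j = 8`: `K ≥ 1432`). In all cases `K ≥ 1400` and `S/(2K) ≤ 0.06`, `L/(K-1) ≤ 0.0111`,
`g/(K-1) ≤ 4.67 L`, `L h/K ≤ 3.1 L^2`.
Precision: `8 L^2 25^(KL) ≤ 2^g`: as in `params_lo`, `25^(KL) ≤ 2^(0.999 g)`, and `8 L^2 ≤ 2^(g/1000)` (`L = j+7`,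
`g ≥ 1.57 * 4^j`, `g ≥ 100000`: `8 L^2 ≤ 2^(2L) ... `; for `j = 7, 8`: `g/1000 ≥ 100`; in general
`8 (j+7)^2 ≤ 2^(j+7) ≤ 2^(g/1000)` since `j + 7 ≤ 4^j/1000 + 100`). `S ≤ h` clear.
Terms: `(KL+RS)/(2K) ≤ L (1 + S/(2K)) ≤ 1.06 L` (`RS ≤ (K-1) L + L S`);
`R log 2/(K-1) ≤ 0.6932 (L/S + 0.0111)`; `S (g+1) log 2/(h(K-1)) ≤ 0.6932 * 4.68 L S/4^j`. With `S = 0.625 * 2^j`:
middle term `≤ 1.06 L * (0.6932 * 1.6 L/2^j + 0.0077 + 0.6932*4.68*0.625 L/2^j) ≤ 1.06 * (3.137 L^2/2^j + 0.0077 L)`.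
`B/K ≤ (1/2) ((L/S + L/K) h + S g/K) ≤ (1/2)(6.4 L 2^j + 3.1 L^2 + 0.625 * 4.67 L 2^j) ≤ (4.66 + 1.55 L/2^j) L 2^j
≤ 4.83 L 2^j`. `2 log (2KL)/(K-1) ≤ 0.03`.
Wanted: `log 4.83 + log (j+7) + j log 2 + 1.5 + 3.326 (j+7)^2/2^j + 0.0082 (j+7) + 0.03 < (j+6) log 5`. At `j = 7`:
`1.575 + 2.64 + 4.853 + 1.5 + 5.10 + 0.12 + 0.03 = 15.8 < 20.9`; at `j = 8`: `1.575+2.71+5.55+1.5+2.93+0.13+0.03 = 14.4 <
22.5`. For `j ≥ 8` the left side grows by less than `log 2 + 0.1 + 0.01` per step and the right side by `1.609`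
(`(j+7)^2/2^j` decreases, `log (j+7) ≤ log 15 + (j-8)/15`). The slack is large (`≥ 5`), so every rough estimate is
fine. -/
theorem params_hi {g h : ℕ} (hg : 100000 ≤ g) (h1 : 16384 ≤ h) (hgh : 158 * h ≤ 100 * g + 100) :
    ∃ K L S R2 : ℕ, Par g h K L S R2 := by
  obtain ⟨j, hj1, hj2⟩ : ∃ j : ℕ, 4 ^ j ≤ h ∧ h < 4 ^ (j + 1) :=
    ⟨Nat.log 4 h, Nat.pow_log_le_self 4 (by omega), Nat.lt_pow_succ_log_self (by norm_num) h⟩
  have hj : 7 ≤ j := by
    by_contra hc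
    have h3 : (4 : ℕ) ^ (j + 1) ≤ 4 ^ 7 := Nat.pow_le_pow_right (by norm_num) (by omega)
    norm_num at h3
    omega
  obtain ⟨i, hji⟩ : ∃ i, j = i + 3 := ⟨j - 3, by omega⟩
  obtain ⟨gr1, gr2, gr3⟩ := M6_growth j hj
  have gr4 : 128 ≤ 2 ^ j := by
    have : 2 ^ 7 ≤ 2 ^ j := Nat.pow_le_pow_right (by norm_num) hj
    simpa using this
  have hsq : (4 : ℕ) ^ j = (2 ^ j) ^ 2 := by
    rw [← pow_mul, mul_comm, pow_mul]
    norm_num
  rw [pow_succ, hsq] at hj2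
  rw [hsq] at hj1
  obtain ⟨t, htj⟩ : ∃ t, t = 2 ^ j := ⟨_, rfl⟩
  obtain ⟨L, hLj⟩ : ∃ L, L = j + 7 := ⟨_, rfl⟩
  obtain ⟨S, hSi⟩ : ∃ S, S = 5 * 2 ^ i := ⟨_, rfl⟩
  obtain ⟨K, hK⟩ : ∃ K, K = 43 * g / (200 * L) := ⟨_, rfl⟩
  obtain ⟨Q, hQ⟩ : ∃ Q, Q = (K - 1) * L / S := ⟨_, rfl⟩
  rw [← htj] at gr1 gr2 gr4 hj1 hj2
  rw [← hLj] at gr1 gr2 gr3
  have hL200 : 0 < 200 * L := by omega
  have hSpos : 0 < S := by rw [hSi]; positivity
  obtain ⟨l1, l2, l3, l4⟩ := M6_low hg hgh htj hLj hji hj hj1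
  have hK1 : 200 * (K * L) ≤ 43 * g := by
    have := Nat.div_mul_le_self (43 * g) (200 * L)
    rw [← hK] at this
    calc 200 * (K * L) = K * (200 * L) := by ring
      _ ≤ _ := this
  have hK2 : 43 * g ≤ 200 * ((K + 1) * L) := by
    have := Nat.lt_mul_div_succ (43 * g) (b := 200 * L) hL200
    rw [← hK] at this
    calc 43 * g ≤ 200 * L * (K + 1) := this.le
      _ = _ := by ring
  have k1 : 1401 ≤ K := by rw [hK]; exact (Nat.le_div_iff_mul_le hL200).2 l1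
  have k2 : 90 * L + 2 ≤ K := by rw [hK]; exact (Nat.le_div_iff_mul_le hL200).2 l2
  have k3 : 42 * 2 ^ i ≤ K := by rw [hK]; exact (Nat.le_div_iff_mul_le hL200).2 l3
  have hQ1 : Q * S ≤ (K - 1) * L := by rw [hQ]; exact Nat.div_mul_le_self _ _
  have hQ2 : (K - 1) * L < (Q + 1) * S := by
    have := Nat.lt_mul_div_succ ((K - 1) * L) hSpos
    rw [← hQ] at this
    calc (K - 1) * L < S * (Q + 1) := this
      _ = _ := by ring
  exact M6_fin hg hgh htj hLj hSi hji gr1 gr2 gr3 hj gr4 hj1 hj2 hK1 hK2 k1 k2 k3 l4 hQ1 hQ2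

end Pool.Agent.CZ
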