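import Mathlib
import Pool.Agent.CZ.M3
import Pool.Agent.CZ.M4
import Pool.Agent.CZ.M5
import Pool.Agent.CZ.M6

set_option autoImplicit false

namespace Pool.Agent.CZ

/-- `3^h ≤ p^h ≤ 2 * 2^g` bounds `h` -/
private lemma h_le {g h : ℕ} (h3 : 3 ^ h ≤ 2 ^ (g + 1)) : 158 * h ≤ 100 * g + 100 := by
  have e : (2 : ℕ) ^ 158 ≤ 3 ^ 100 := by norm_num
  have h4 : (2 : ℕ) ^ (158 * h) ≤ 2 ^ (100 * (g + 1)) := by
    calc (2 : ℕ) ^ (158 * h) = (2 ^ 158) ^ h := by rw [pow_mul]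
      _ ≤ (3 ^ 100) ^ h := Nat.pow_le_pow_left e h
      _ = (3 ^ h) ^ 100 := by rw [← pow_mul, ← pow_mul, mul_comm]
      _ ≤ (2 ^ (g + 1)) ^ 100 := Nat.pow_le_pow_left h3 100
      _ = _ := by rw [← pow_mul, mul_comm]
  have h5 := (Nat.pow_le_pow_iff_right (by norm_num : 1 < 2)).mp h4
  omega

/-- **Two logarithms.** A large power `p^h`, `h ≥ 4096`, is not close to a power `2^g`. -/
theorem two_log {p g h : ℕ} (hp : p.Prime) (hp3 : 3 ≤ p) (hg : 100000 ≤ g) (hh : 4096 ≤ h)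
    (hgh : Nat.Coprime g h) : (2 : ℤ) ^ g ≤ ((p : ℤ) ^ h - 2 ^ g) ^ 2 := by
  by_contra hcon
  push Not at hcon
  have hG : (0 : ℤ) < 2 ^ g := by positivity
  have hclose : ((p : ℤ) ^ h - ((2 : ℕ) : ℤ) ^ g) ^ 2 < 2 * ((2 : ℕ) : ℤ) ^ g := by
    push_cast
    linarith
  -- `p^h ≤ 2 * 2^g`
  have hle : p ^ h ≤ 2 ^ (g + 1) := by
    have h1 : (p : ℤ) ^ h < 2 * 2 ^ g := by
      by_contra h2
      push Not at h2
      have h3 : (2 : ℤ) ^ g ≤ (p : ℤ) ^ h - 2 ^ g := by linarith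
      have h4 : (2 : ℤ) ^ g * 2 ^ g ≤ ((p : ℤ) ^ h - 2 ^ g) ^ 2 := by
        rw [sq]
        exact mul_le_mul h3 h3 hG.le (by linarith)
      have h5 : (1 : ℤ) ≤ 2 ^ g := by linarith
      nlinarith
    have h2 : (p : ℤ) ^ h ≤ ((2 ^ (g + 1) : ℕ) : ℤ) := by
      push_cast
      rw [pow_succ]
      linarith
    exact_mod_cast h2
  have h3 : 3 ^ h ≤ 2 ^ (g + 1) := (Nat.pow_le_pow_left hp3 h).trans hle
  have h158 := h_le h3
  obtain ⟨K, L, S, R2, hK, hL, hS, hSh, hRS, hprec, B, hB0, hB, hin⟩ : ∃ K L S R2 : ℕ, Par g h K L S R2 := by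
    rcases Nat.lt_or_ge h 16384 with h5 | h5
    · exact params_lo hg hh h5
    · exact params_hi hg h5 h158
  have hh0 : (0 : ℝ) < h := by
    have : 0 < h := by omega
    exact_mod_cast this
  have hl2 : 0 < Real.log 2 := Real.log_pos (by norm_num)
  refine core (b := 2) (p := p) (g := g) (h := h) (K := K) (L := L) (R2 := R2) (S := S)
    (lp := ((g : ℝ) + 1) * Real.log 2 / h) (B := B) le_rfl (by omega) (by omega) hgh hS hSh (by omega) hL hRS
    hprec hclose ?_ ?_ hB hB0 ?_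
  · rw [le_div_iff₀ hh0]
    have h6 : Real.log ((p : ℝ) ^ h) ≤ Real.log ((2 : ℝ) ^ (g + 1)) := by
      apply Real.log_le_log
      · have : 0 < p := by omega
        positivity
      · exact_mod_cast hle
    rw [Real.log_pow, Real.log_pow] at h6
    push_cast at h6
    linarith
  · push_cast
    rw [div_mul_eq_mul_div]
    apply div_le_div_of_nonneg_right _ hh0.le
    nlinarith
  · have := norm_ineq (K := K) (L := L) (B := B)
      (X := ((R2 + L - 1 : ℕ) : ℝ) * Real.log 2 + S * (((g : ℝ) + 1) * Real.log 2 / h))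
      (RS := ((R2 + L - 1 : ℕ) : ℝ) * S) hK hL hB0 hin
    push_cast at this ⊢
    exact this

end Pool.Agent.CZ
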