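import Mathlib
import Pool.Agent.CZ.Setup
import Pool.Agent.CZ.TwoLog
import Pool.Agent.CZ.NoWin2
import Pool.Agent.BX.Hauck4
import Pool.Agent.BetaL.Noda

set_option autoImplicit false

namespace Pool.Agent.CZ

open Finset Pool.Agent.BetaL Pool.Agent.MP_1e96f1_co

variable {Ω : Type*} [Fintype Ω] [DecidableEq Ω]

/-- `v - 2 k + d > 0` -/
private lemma co_pos {Bs : Finset (Finset Ω)} {v k d i : ℕ} (hD : IsDesign Bs v k d) (hd : 0 < d)
    (hB : IsBeta Bs v d i) (hi : 1 < i) (hi' : i < k - d) : 0 < v + d - 2 * k := by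
  obtain ⟨hdk, hkv⟩ := design_facts hD
  rcases Nat.eq_zero_or_pos (v + d - 2 * k) with h0 | h0
  · exfalso
    obtain ⟨n, rfl⟩ : ∃ n, i = n + 1 := ⟨i - 1, by omega⟩
    have hlow := noda_lower hD hB (by omega)
    obtain ⟨q, hq⟩ : ∃ q, k = d + q := ⟨k - d, by omega⟩
    have e1 : k - d = q := by omega
    have e2 : v = d + 2 * q := by omega
    have e3 : n + 2 ≤ q := by omega
    rw [e1] at hlow
    rw [e2] at hlow
    obtain ⟨r, hr⟩ : ∃ r, q = n + 2 + r := ⟨q - (n + 2), by omega⟩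
    rw [hr] at hlow
    nlinarith
  · exact h0

/-- The two families of root tables, as hypotheses. -/
def RA1 : Prop := ∀ g l P : ℕ, 210 ≤ g → g ≤ 100000 → l.Prime → 3 ≤ l → l ≤ 829 → ¬ l ∣ g →
      (2 : ℤ) ^ g ≤ ((P : ℤ) ^ l - 2 ^ g) ^ 2

/-- The second family. -/
def RA2 : Prop := ∀ g l P : ℕ, 100000 ≤ g → g ≤ 1000000 → l.Prime → 3 ≤ l → l ≤ 167 → ¬ l ∣ g →
      (2 : ℤ) ^ g ≤ ((P : ℤ) ^ l - 2 ^ g) ^ 2

/-- **The case `(2, 3)`** on top of the root tables. -/
theorem two_three_of (h1 : RA1) (h2 : RA2) {Bs : Finset (Finset Ω)} {v k d : ℕ} (hD : IsDesign Bs v k d)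
    (hd : 0 < d) (hB : IsBeta Bs v d 2) (hk : k = d + 3) : False := by
  have no : ∀ (t N : ℕ) (h : ℕ → ℕ), ¬ Window t N h := fun t N h =>
    no_window_of (fun g h p hg hh hgh hp hp3 => two_log hp hp3 hg hh hgh) h1 h2 t N h
  by_cases hn1 : IsBeta Bs v d 1
  · have := BX.hauck_four hD hd hn1 hB (Or.inl (by omega))
    omega
  · rcases Nat.lt_or_ge v (2 * k) with hv | hv
    · obtain ⟨hdk, hkv⟩ := design_facts hD
      have hd' := co_pos hD hd hB (by omega) (by omega)
      have hD' := design_co hD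
      have hB' := beta_co hD (by omega) hB
      have e1 : k - d - 2 + 1 = 2 := by omega
      rw [e1] at hB'
      by_cases hn1' : IsBeta (co Bs) v (v + d - 2 * k) 1
      · have := BX.hauck_four hD' hd' hn1' hB' (Or.inl (by omega))
        omega
      · obtain ⟨t, N, h, hW⟩ := setup_window hD' hd' hB' (by omega) (by omega) hn1'
        exact no t N h hW
    · obtain ⟨t, N, h, hW⟩ := setup_window hD hd hB hk hv hn1
      exact no t N h hW

end Pool.Agent.CZ
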