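import Mathlib

/-! [CZ-RA] no `l`-th power is close to a power of `2` with exponent prime to `l`: the root tables.

A perfect power `P ^ l` within `2 ^ (g / 2)` of `2 ^ g`, `g = l q + r`, would give a multiple `P 2 ^ (w - q)` of `2 ^ s` equal to
the integer part (up to the error) of the root `2 ^ (w + r / l)`, for every `w` with `q + s ≤ w`, `2 w + 2 ≤ g`. The kernel computes
`2 ^ (w + 1 / l)` by Newton's iteration, and the `2 ^ (w + r / l)` by successive multiplication (lower bounds `L`, upper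
bounds `U`), and checks that there is no multiple of `2 ^ s` between `L` and `U`. -/

set_option autoImplicit false

namespace Pool.Agent.CZ

/-- a Newton step for `2 ^ (w + 1 / l)` -/
def nst (l w b : ℕ) : ℕ :=
  Nat.div (Nat.add (Nat.mul (Nat.sub l 1) b)
    (Nat.div (Nat.pow 2 (Nat.add (Nat.mul l w) 1)) (Nat.pow b (Nat.sub l 1)))) l

/-- an approximation of `2 ^ (w + 1 / l)` -/
def rt (l k : ℕ) : ℕ → ℕ :=
  Nat.rec (motive := fun _ => ℕ → ℕ)
    (fun w => nst l w (nst l w (nst l w (nst l w (nst l w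
      (Nat.add (Nat.pow 2 w) (Nat.div (Nat.pow 2 w) l)))))))
    (fun _ ih w => nst l w (Nat.mul (ih (Nat.add (Nat.div w 2) 12))
      (Nat.pow 2 (Nat.sub w (Nat.add (Nat.div w 2) 12))))) k

/-- the loop over the residues: `L ≤ 2 ^ (w + r / l) ≤ U` -/
def lp (w s A B n : ℕ) : ℕ → ℕ → Bool :=
  Nat.rec (motive := fun _ => ℕ → ℕ → Bool) (fun _ _ => true)
    (fun _ ih L U => match Nat.beq (Nat.shiftRight (Nat.sub L 1) s) (Nat.shiftRight U s) with
      | true => ih (Nat.shiftRight (Nat.mul L A) w) (Nat.add (Nat.shiftRight (Nat.mul U B) w) 1)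
      | false => false) n

/-- the check for one precision `w` -/
def gd1 (l w s A B : ℕ) : Bool :=
  match Nat.ble 1 A, Nat.ble (Nat.pow A l) (Nat.pow 2 (Nat.add (Nat.mul l w) 1)),
    Nat.ble (Nat.pow 2 (Nat.add (Nat.mul l w) 1)) (Nat.pow B l) with
  | true, true, true => lp w s A B (Nat.sub l 1) A B
  | _, _, _ => false

def gd (l w s : ℕ) : Bool :=
  gd1 l w s (Nat.sub (rt l (Nat.log2 w) w) 1) (Nat.add (rt l (Nat.log2 w) w) 2)

/-- the loop over the precisions -/
def lv (l s G1 n : ℕ) : ℕ → Bool :=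
  Nat.rec (motive := fun _ => ℕ → Bool) (fun _ => false)
    (fun _ ih G2 => match Nat.blt G2 G1 with
      | true => true
      | false => match gd l (Nat.add (Nat.div G2 l) s) s with
        | true => ih (Nat.add (Nat.mul 2 (Nat.add (Nat.div G2 l) s)) 1)
        | false => false) n

/-- the product of the primes up to `23` -/
def pr23 : ℕ := 223092870

/-- the composite numbers are left out -/
def skp (l : ℕ) : Bool :=
  match Nat.ble 24 l, Nat.beq (Nat.gcd l pr23) 1 with
  | true, false => true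
  | _, _ => false

/-- the loop over the exponents `a ≤ l < a + n` -/
def al (G1 G2 a n : ℕ) : Bool :=
  Nat.rec (motive := fun _ => Bool) true
    (fun i ih => match skp (Nat.add a i) with
      | true => ih
      | false => match lv (Nat.add a i) 40 G1 60 G2 with
        | true => ih
        | false => false) n

theorem ck_l3a : lv 3 30 210 60 100000 = true := by decide +kernel
theorem ck_l3b : lv 3 30 100000 60 1000000 = true := by decide +kernel
theorem ck_1 : al 210 100000 5 825 = true := by decide +kernel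
theorem ck_2 : al 100000 1000000 5 163 = true := by decide +kernel
theorem ck_pr : pr23 ∣ Nat.factorial 23 := by decide +kernel

theorem lp_spec {l w s A B : ℕ} (hA : A ^ l ≤ 2 ^ (l * w + 1)) (hB : 2 ^ (l * w + 1) ≤ B ^ l) (n : ℕ) :
    ∀ L U r : ℕ, L ^ l ≤ 2 ^ (l * w + r) → 2 ^ (l * w + r) ≤ U ^ l → lp w s A B n L U = true →
    ∀ i < n, ∃ L' U' : ℕ, L' ^ l ≤ 2 ^ (l * w + (r + i)) ∧ 2 ^ (l * w + (r + i)) ≤ U' ^ l ∧
      (L' - 1) / 2 ^ s = U' / 2 ^ s := by
  induction n with
  | zero =>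
    intro L U r _ _ _ i hi
    omega
  | succ n ih =>
    intro L U r hL hU h i hi
    have e : lp w s A B (n + 1) L U =
        (match Nat.beq (Nat.shiftRight (Nat.sub L 1) s) (Nat.shiftRight U s) with
          | true => lp w s A B n (Nat.shiftRight (Nat.mul L A) w) (Nat.add (Nat.shiftRight (Nat.mul U B) w) 1)
          | false => false) := rfl
    rw [e] at h
    cases hb : Nat.beq (Nat.shiftRight (Nat.sub L 1) s) (Nat.shiftRight U s) with
    | false =>
      rw [hb] at h
      exact absurd h (by simp)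
    | true =>
      rw [hb] at h
      rcases Nat.eq_zero_or_pos i with h0 | h0
      · subst h0
        refine ⟨L, U, by simpa using hL, by simpa using hU, ?_⟩
        have h1 := Nat.eq_of_beq_eq_true hb
        have h2 : (L - 1) >>> s = U >>> s := h1
        rwa [Nat.shiftRight_eq_div_pow, Nat.shiftRight_eq_div_pow] at h2
      · have hp : 0 < (2 ^ w) ^ l := by positivity
        have e1 : (2 : ℕ) ^ (l * w) = (2 ^ w) ^ l := by rw [← pow_mul, mul_comm]
        have hL' : (Nat.shiftRight (Nat.mul L A) w) ^ l ≤ 2 ^ (l * w + (r + 1)) := by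
          have h1 : Nat.shiftRight (Nat.mul L A) w = L * A / 2 ^ w := Nat.shiftRight_eq_div_pow _ _
          rw [h1]
          have h2 : L * A / 2 ^ w * 2 ^ w ≤ L * A := Nat.div_mul_le_self _ _
          have h3 := Nat.pow_le_pow_left h2 l
          rw [mul_pow, mul_pow] at h3
          have h4 : L ^ l * A ^ l ≤ 2 ^ (l * w + r) * 2 ^ (l * w + 1) := Nat.mul_le_mul hL hA
          have h5 : 2 ^ (l * w + r) * 2 ^ (l * w + 1) = 2 ^ (l * w + (r + 1)) * (2 ^ w) ^ l := by
            rw [← e1, ← pow_add, ← pow_add]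
            congr 1
            ring
          rw [h5] at h4
          exact Nat.le_of_mul_le_mul_right (h3.trans h4) hp
        have hU' : 2 ^ (l * w + (r + 1)) ≤ (Nat.add (Nat.shiftRight (Nat.mul U B) w) 1) ^ l := by
          have h1 : Nat.add (Nat.shiftRight (Nat.mul U B) w) 1 = U * B / 2 ^ w + 1 :=
            congrArg (· + 1) (Nat.shiftRight_eq_div_pow (U * B) w)
          rw [h1]
          have h2 : U * B ≤ (U * B / 2 ^ w + 1) * 2 ^ w := by
            have := Nat.lt_div_mul_add (a := U * B) (b := 2 ^ w) (by positivity)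
            rw [add_mul, one_mul]
            exact this.le
          have h3 := Nat.pow_le_pow_left h2 l
          rw [mul_pow, mul_pow] at h3
          have h4 : 2 ^ (l * w + r) * 2 ^ (l * w + 1) ≤ U ^ l * B ^ l := Nat.mul_le_mul hU hB
          have h5 : 2 ^ (l * w + r) * 2 ^ (l * w + 1) = 2 ^ (l * w + (r + 1)) * (2 ^ w) ^ l := by
            rw [← e1, ← pow_add, ← pow_add]
            congr 1
            ring
          rw [h5] at h4
          exact Nat.le_of_mul_le_mul_right (h4.trans h3) hp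
        obtain ⟨L', U', h1, h2, h3⟩ := ih _ _ (r + 1) hL' hU' h (i - 1) (by omega)
        have e2 : r + 1 + (i - 1) = r + i := by omega
        rw [e2] at h1 h2
        exact ⟨L', U', h1, h2, h3⟩

/-- the separation of an `l`-th power from its neighbours -/
theorem ra_sep {l : ℕ} (hl : 1 ≤ l) {Y z : ℝ} (hY : 0 ≤ Y) (hz : 0 < z) (h : Y + 1 ≤ z ∨ z + 1 ≤ Y) :
    (z ^ (l - 1)) ^ 2 ≤ (Y ^ l - z ^ l) ^ 2 := by
  obtain ⟨m, rfl⟩ : ∃ m, l = m + 1 := ⟨l - 1, by omega⟩
  rw [Nat.add_sub_cancel]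
  have hm : 0 < z ^ m := by positivity
  rcases h with h | h
  · have h1 : Y ^ m ≤ z ^ m := pow_le_pow_left₀ hY (by linarith) m
    have h2 : Y ^ (m + 1) ≤ z ^ (m + 1) - z ^ m := by
      rw [pow_succ, pow_succ]
      nlinarith [pow_nonneg hY m]
    have h3 : z ^ m ≤ z ^ (m + 1) - Y ^ (m + 1) := by linarith
    have h4 : (Y ^ (m + 1) - z ^ (m + 1)) ^ 2 = (z ^ (m + 1) - Y ^ (m + 1)) ^ 2 := by ring
    rw [h4]
    exact pow_le_pow_left₀ hm.le h3 2
  · have h1 : z ^ m ≤ Y ^ m := pow_le_pow_left₀ hz.le (by linarith) m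
    have h2 : z ^ (m + 1) + z ^ m ≤ Y ^ (m + 1) := by
      rw [pow_succ, pow_succ]
      nlinarith [pow_nonneg hY m]
    exact pow_le_pow_left₀ hm.le (by linarith) 2

theorem ra_key {l w s g P L U : ℕ} (hl : 2 ≤ l) (hq : g / l + s ≤ w) (hg : 2 * w + 2 ≤ g)
    (hL : L ^ l ≤ 2 ^ (l * w + g % l)) (hU : 2 ^ (l * w + g % l) ≤ U ^ l)
    (hs : (L - 1) / 2 ^ s = U / 2 ^ s) : (2 : ℤ) ^ g ≤ ((P : ℤ) ^ l - 2 ^ g) ^ 2 := by
  rcases Nat.eq_zero_or_pos P with hP | hP
  · subst hP
    rw [Nat.cast_zero, zero_pow (by omega), zero_sub, neg_sq]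
    have h1 : (1 : ℤ) ≤ 2 ^ g := one_le_pow₀ (by norm_num)
    nlinarith
  have hl0 : l ≠ 0 := by omega
  -- the root
  obtain ⟨z, hz, hzl⟩ : ∃ z : ℝ, 0 < z ∧ z ^ l = 2 ^ (l * w + g % l) := by
    refine ⟨((2 : ℝ) ^ (l * w + g % l)) ^ ((l : ℝ)⁻¹), by positivity, ?_⟩
    exact Real.rpow_inv_natCast_pow (by positivity) hl0
  have hz2 : z < 2 ^ (w + 1) := by
    refine lt_of_pow_lt_pow_left₀ l (by positivity) ?_
    rw [hzl, ← pow_mul]
    refine pow_lt_pow_right₀ (by norm_num) ?_
    have := Nat.mod_lt g (show 0 < l by omega)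
    have h2 : (w + 1) * l = l * w + l := by ring
    omega
  have hLz : (L : ℝ) ≤ z := by
    refine (pow_le_pow_iff_left₀ (by positivity) hz.le hl0).1 ?_
    rw [hzl]
    exact_mod_cast hL
  have hUz : z ≤ (U : ℝ) := by
    refine (pow_le_pow_iff_left₀ hz.le (by positivity) hl0).1 ?_
    rw [hzl]
    exact_mod_cast hU
  -- the multiple of `2 ^ (w - q)`
  set q := g / l with hqd
  set Y := P * 2 ^ (w - q) with hY
  have hYpos : 0 < Y := by positivity
  have hYs : 2 ^ s ∣ Y := (pow_dvd_pow 2 (by omega)).trans (Dvd.intro_left P rfl)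
  have hout : Y + 1 ≤ L ∨ U + 1 ≤ Y := by
    by_contra hn
    push Not at hn
    obtain ⟨c, hc⟩ := hYs
    have hs0 : 0 < 2 ^ s := by positivity
    have h1 : (L - 1) / 2 ^ s < c := by
      rw [Nat.div_lt_iff_lt_mul hs0, mul_comm, ← hc]
      omega
    have h2 : c ≤ U / 2 ^ s := by
      rw [Nat.le_div_iff_mul_le hs0, mul_comm, ← hc]
      omega
    omega
  have hsep := ra_sep (l := l) (by omega) (Y := (Y : ℝ)) (z := z) (by positivity) hz (by
    rcases hout with h | h
    · left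
      have h1 : ((Y : ℝ) + 1) ≤ L := by exact_mod_cast h
      linarith
    · right
      have h1 : ((U : ℝ) + 1) ≤ Y := by exact_mod_cast h
      linarith)
  have hm : 0 < z ^ (l - 1) := by positivity
  have h1 : (z ^ (l - 1)) ^ 2 * z ^ 2 = (z ^ l) ^ 2 := by
    rw [← mul_pow, ← pow_succ]
    congr 3
    omega
  have h2 : z ^ 2 ≤ 2 ^ g := by
    calc z ^ 2 ≤ (2 ^ (w + 1)) ^ 2 := pow_le_pow_left₀ hz.le hz2.le 2
      _ = 2 ^ (2 * w + 2) := by
        rw [← pow_mul]
        congr 1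
        ring
      _ ≤ 2 ^ g := pow_le_pow_right₀ (by norm_num) hg
  have h3 : (z ^ l) ^ 2 ≤ ((Y : ℝ) ^ l - z ^ l) ^ 2 * 2 ^ g := by
    rw [← h1]
    exact mul_le_mul hsep h2 (by positivity) (by positivity)
  -- back to `P`
  have h4 : z ^ l = 2 ^ g * (2 : ℝ) ^ (l * (w - q)) := by
    rw [hzl, ← pow_add]
    congr 1
    have h5 : l * q + g % l = g := Nat.div_add_mod g l
    have h6 : l * w = l * q + l * (w - q) := by
      rw [← mul_add]
      congr 1
      omega
    omega
  have h5 : (Y : ℝ) ^ l = (P : ℝ) ^ l * (2 : ℝ) ^ (l * (w - q)) := by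
    rw [hY]
    push_cast
    rw [mul_pow, ← pow_mul, mul_comm (w - q) l]
  rw [h4, h5, ← sub_mul, mul_pow, mul_pow, mul_right_comm] at h3
  have h6 : (((2 : ℝ) ^ g)) ^ 2 ≤ ((P : ℝ) ^ l - 2 ^ g) ^ 2 * 2 ^ g :=
    le_of_mul_le_mul_right h3 (by positivity)
  rw [sq ((2 : ℝ) ^ g)] at h6
  have h7 : (2 : ℝ) ^ g ≤ ((P : ℝ) ^ l - 2 ^ g) ^ 2 := le_of_mul_le_mul_right h6 (by positivity)
  exact_mod_cast h7

theorem gd1_spec {l w s A B g P : ℕ} (hl : 2 ≤ l) (hd : ¬ l ∣ g) (hq : g / l + s ≤ w)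
    (hg : 2 * w + 2 ≤ g) (h : gd1 l w s A B = true) : (2 : ℤ) ^ g ≤ ((P : ℤ) ^ l - 2 ^ g) ^ 2 := by
  unfold gd1 at h
  split at h
  · rename_i h1 h2 h3
    have hA : A ^ l ≤ 2 ^ (l * w + 1) := Nat.le_of_ble_eq_true h2
    have hB : 2 ^ (l * w + 1) ≤ B ^ l := Nat.le_of_ble_eq_true h3
    have hr : g % l ≠ 0 := fun h0 => hd (Nat.dvd_of_mod_eq_zero h0)
    have hr2 := Nat.mod_lt g (show 0 < l by omega)
    obtain ⟨L, U, e1, e2, e3⟩ := lp_spec hA hB (l - 1) A B 1 hA hB h (g % l - 1) (by omega)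
    have e4 : 1 + (g % l - 1) = g % l := by omega
    rw [e4] at e1 e2
    exact ra_key hl hq hg e1 e2 e3
  · exact absurd h (by simp)

theorem lv_spec {l s G1 g P : ℕ} (hl : 2 ≤ l) (hd : ¬ l ∣ g) (hg1 : G1 ≤ g) (n : ℕ) :
    ∀ G2 : ℕ, lv l s G1 n G2 = true → g ≤ G2 → (2 : ℤ) ^ g ≤ ((P : ℤ) ^ l - 2 ^ g) ^ 2 := by
  induction n with
  | zero =>
    intro G2 h
    exact absurd (show false = true from h) (by simp)
  | succ n ih =>
    intro G2 h hg2
    have e : lv l s G1 (n + 1) G2 = (match Nat.blt G2 G1 with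
      | true => true
      | false => match gd l (Nat.add (Nat.div G2 l) s) s with
        | true => lv l s G1 n (Nat.add (Nat.mul 2 (Nat.add (Nat.div G2 l) s)) 1)
        | false => false) := rfl
    rw [e] at h
    cases hb : Nat.blt G2 G1 with
    | true =>
      rw [Nat.blt_eq] at hb
      omega
    | false =>
      rw [hb] at h
      cases hc : gd l (Nat.add (Nat.div G2 l) s) s with
      | false =>
        rw [hc] at h
        exact absurd h (by simp)
      | true =>
        rw [hc] at h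
        rcases Nat.lt_or_ge (2 * (G2 / l + s) + 1) g with h1 | h1
        · have h2 : g / l + s ≤ G2 / l + s := Nat.add_le_add_right (Nat.div_le_div_right hg2) s
          exact gd1_spec hl hd h2 (by omega) hc
        · exact ih _ h h1

theorem al_spec {G1 G2 a : ℕ} (n : ℕ) (h : al G1 G2 a n = true) :
    ∀ i < n, skp (a + i) = true ∨ lv (a + i) 40 G1 60 G2 = true := by
  induction n with
  | zero =>
    intro i hi
    omega
  | succ n ih =>
    have e : al G1 G2 a (n + 1) = (match skp (Nat.add a n) with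
      | true => al G1 G2 a n
      | false => match lv (Nat.add a n) 40 G1 60 G2 with
        | true => al G1 G2 a n
        | false => false) := rfl
    rw [e] at h
    intro i hi
    cases hb : skp (Nat.add a n) with
    | true =>
      rw [hb] at h
      rcases Nat.lt_or_ge i n with h1 | h1
      · exact ih h i h1
      · have h2 : i = n := by omega
        subst h2
        exact Or.inl hb
    | false =>
      rw [hb] at h
      cases hc : lv (Nat.add a n) 40 G1 60 G2 with
      | false =>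
        rw [hc] at h
        exact absurd h (by simp)
      | true =>
        rw [hc] at h
        rcases Nat.lt_or_ge i n with h1 | h1
        · exact ih h i h1
        · have h2 : i = n := by omega
          subst h2
          exact Or.inr hc

theorem skp_prime {l : ℕ} (hl : l.Prime) : skp l = false := by
  unfold skp
  split
  · rename_i h1 h2
    have h3 : 24 ≤ l := Nat.le_of_ble_eq_true h1
    have h4 : Nat.gcd l pr23 ≠ 1 := Nat.ne_of_beq_eq_false h2
    exfalso
    have h5 : l ∣ pr23 := by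
      by_contra h6
      exact h4 ((Nat.Prime.coprime_iff_not_dvd hl).2 h6)
    have h6 := (hl.dvd_factorial).1 (h5.trans ck_pr)
    omega
  · rfl

theorem ra_all {G1 G2 n : ℕ} (h3 : lv 3 30 G1 60 G2 = true) (h : al G1 G2 5 n = true) {g l P : ℕ}
    (hg1 : G1 ≤ g) (hg2 : g ≤ G2) (hl : l.Prime) (hl3 : 3 ≤ l) (hln : l < 5 + n) (hd : ¬ l ∣ g) :
    (2 : ℤ) ^ g ≤ ((P : ℤ) ^ l - 2 ^ g) ^ 2 := by
  rcases Nat.lt_or_ge l 5 with h5 | h5
  · interval_cases l
    · exact lv_spec (by norm_num) hd hg1 60 G2 h3 hg2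
    · exact absurd hl (by decide)
  · obtain ⟨i, rfl⟩ : ∃ i, l = 5 + i := ⟨l - 5, by omega⟩
    rcases al_spec n h i (by omega) with h6 | h6
    · rw [skp_prime hl] at h6
      exact absurd h6 (by simp)
    · exact lv_spec (by omega) hd hg1 60 G2 h6 hg2

/-- (RA1) -/
theorem root_one (g l P : ℕ) (h1 : 210 ≤ g) (h2 : g ≤ 100000) (hl : l.Prime) (h3 : 3 ≤ l) (h4 : l ≤ 829)
    (hd : ¬ l ∣ g) : (2 : ℤ) ^ g ≤ ((P : ℤ) ^ l - 2 ^ g) ^ 2 :=
  ra_all ck_l3a ck_1 h1 h2 hl h3 (by omega) hd

/-- (RA2) -/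
theorem root_two (g l P : ℕ) (h1 : 100000 ≤ g) (h2 : g ≤ 1000000) (hl : l.Prime) (h3 : 3 ≤ l) (h4 : l ≤ 167)
    (hd : ¬ l ∣ g) : (2 : ℤ) ^ g ≤ ((P : ℤ) ^ l - 2 ^ g) ^ 2 :=
  ra_all ck_l3b ck_2 h1 h2 hl h3 (by omega) hd

end Pool.Agent.CZ
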