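import Mathlib
import Pool.Agent.CZ.Final
import Pool.Agent.CZ.RA

set_option autoImplicit false

namespace Pool.Agent.CZ

open Pool.Agent.MP_1e96f1_co

/-- **The case `(2, 3)`**: there is no `β(2)` design with `d > 0` and `k = d + 3` (no perfect single-error-correcting
code in a Johnson graph with `1 < ` minimum distance `< k`). -/
theorem two_three {Ω : Type*} [Fintype Ω] [DecidableEq Ω] {Bs : Finset (Finset Ω)} {v k d : ℕ}
    (hD : IsDesign Bs v k d) (hd : 0 < d) (hB : IsBeta Bs v d 2) (hk : k = d + 3) : False :=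
  two_three_of (fun g l P h1 h2 hl h3 h4 h5 => root_one g l P h1 h2 hl h3 h4 h5)
    (fun g l P h1 h2 hl h3 h4 h5 => root_two g l P h1 h2 hl h3 h4 h5) hD hd hB hk

end Pool.Agent.CZ
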